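import Pool.Agent.P8H70.TF.Stm

/-!
A one-sided bound of the time correlations gives the energy inequality between almost all times.
-/

set_option autoImplicit false
set_option linter.unusedSectionVars false

open MeasureTheory Set Filter Topology
open scoped InnerProductSpace ENNReal NNReal

namespace Pool.Agent.P8H70.TF

variable {H : Type} [NormedAddCommGroup H] [InnerProductSpace ℝ H] [CompleteSpace H]

/-- the sequence of steps -/
noncomputable def st (s : ℝ) (n : ℕ) : ℝ := s / (n + 1)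

theorem st_pos {s : ℝ} (hs : 0 < s) (n : ℕ) : 0 < st s n := by unfold st; positivity

theorem st_le {s : ℝ} (hs : 0 < s) (n : ℕ) : st s n ≤ s := by
  unfold st
  refine div_le_self hs.le ?_
  have : (0 : ℝ) ≤ n := Nat.cast_nonneg n
  linarith

theorem st_lim (s : ℝ) : Tendsto (st s) atTop (𝓝 0) := by
  have h := tendsto_one_div_add_atTop_nhds_zero_nat (𝕜 := ℝ)
  have h2 := h.const_mul s
  rw [mul_zero] at h2
  refine h2.congr fun n => ?_
  unfold st
  ring

theorem sub_st_lim {s : ℝ} (hs : 0 < s) (t : ℝ) :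
    Tendsto (fun n => t - st s n) atTop (𝓝[≠] t) := by
  refine tendsto_nhdsWithin_iff.2 ⟨?_, Eventually.of_forall fun n => ?_⟩
  · have := (st_lim s).const_sub t
    rwa [sub_zero] at this
  · have := st_pos hs n
    simp only [mem_compl_iff, mem_singleton_iff]
    intro h
    linarith

/-- backward difference quotients converge -/
theorem quot_lim {P : ℝ → ℝ} {d t s : ℝ} (hs : 0 < s) (h : HasDerivAt P d t) :
    Tendsto (fun n => (P t - P (t - st s n)) / st s n) atTop (𝓝 d) := by
  have h1 := (hasDerivAt_iff_tendsto_slope.mp h).comp (sub_st_lim hs t)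
  refine h1.congr fun n => ?_
  have h0 := (st_pos hs n).ne'
  simp only [Function.comp, slope_def_field]
  rw [show t - st s n - t = -(st s n) by ring, div_neg, ← neg_div]
  congr 1
  ring

/-- integral of a backward difference -/
theorem int_diff {φ : ℝ → ℝ} (hφ : ∀ a b, IntervalIntegrable φ volume a b) (s t h : ℝ) :
    ∫ τ in s..t, (φ τ - φ (τ - h))
      = ((∫ τ in (0 : ℝ)..t, φ τ) - ∫ τ in (0 : ℝ)..(t - h), φ τ)
        - ((∫ τ in (0 : ℝ)..s, φ τ) - ∫ τ in (0 : ℝ)..(s - h), φ τ) := by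
  have i1 : IntervalIntegrable (fun τ => φ (τ - h)) volume s t := by
    have := (hφ (s - h) (t - h)).comp_sub_right h
    simpa using this
  rw [intervalIntegral.integral_sub (hφ s t) i1, intervalIntegral.integral_comp_sub_right,
    ← intervalIntegral.integral_interval_sub_left (hφ 0 t) (hφ 0 s),
    ← intervalIntegral.integral_interval_sub_left (hφ 0 (t - h)) (hφ 0 (s - h))]
  ring

theorem core_good (fat : S_FAT) {u : ℝ → H} {g p : ℝ → ℝ} {M s t : ℝ}
    (hu : AEStronglyMeasurable u volume) (hM : ∀ x, ‖u x‖ ≤ M) (hg : Integrable g)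
    (hp : IntegrableOn p (Ioc s t)) (hs : 0 < s) (hst : s ≤ t)
    (hder : ∀ᵐ τ, τ ∈ Ioc s t →
      Tendsto (fun n : ℕ => ⟪u τ - u (τ - st s n), u τ⟫_ℝ / st s n) atTop (𝓝 (p τ)))
    (hC : ∀ᵐ τ, τ ∈ Ioc s t → ∀ x ∈ Ioo 0 τ,
      ⟪u τ - u x, u τ⟫_ℝ ≤ (∫ r in x..τ, g r) + (τ - x) * g τ)
    (ks : HasDerivAt (fun x => ∫ r in (0 : ℝ)..x, ‖u r‖ ^ 2 / 2) (‖u s‖ ^ 2 / 2) s)
    (kt : HasDerivAt (fun x => ∫ r in (0 : ℝ)..x, ‖u r‖ ^ 2 / 2) (‖u t‖ ^ 2 / 2) t) :
    ‖u t‖ ^ 2 / 2 - ‖u s‖ ^ 2 / 2 ≤ ∫ τ in s..t, p τ := by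
  set k : ℝ → ℝ := fun r => ‖u r‖ ^ 2 / 2 with hk
  set Γ : ℝ → ℝ := fun x => ∫ r in (0 : ℝ)..x, g r with hΓ
  have hM0 : 0 ≤ M := (norm_nonneg _).trans (hM 0)
  have gi : ∀ a b, IntervalIntegrable g volume a b := fun a b => hg.intervalIntegrable
  have kM : AEStronglyMeasurable k volume :=
    ((hu.norm.aemeasurable.pow_const 2).div_const 2).aestronglyMeasurable
  have kb : ∀ r, ‖k r‖ ≤ M ^ 2 / 2 := fun r => by
    have h1 := hM r
    have h2 := norm_nonneg (u r)
    rw [Real.norm_eq_abs, abs_of_nonneg (by simp only [hk]; positivity)]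
    simp only [hk]
    have : ‖u r‖ ^ 2 ≤ M ^ 2 := by gcongr
    linarith
  have ki : ∀ a b, IntervalIntegrable k volume a b := fun a b => by
    rw [intervalIntegrable_iff]
    exact Measure.integrableOn_of_bounded (M := M ^ 2 / 2) (by simp) kM
      (Eventually.of_forall kb)
  have Γc : Continuous Γ := intervalIntegral.continuous_primitive (fun a b => gi a b) 0
  have Γi : ∀ a b, IntervalIntegrable Γ volume a b := fun a b => Γc.intervalIntegrable a b
  have Γd : ∀ x, HasDerivAt (fun y => ∫ r in (0 : ℝ)..y, Γ r) (Γ x) x := fun x =>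
    intervalIntegral.integral_hasDerivAt_right (Γi 0 x)
      (Γc.stronglyMeasurableAtFilter _ _) Γc.continuousAt
  -- the shifted velocity
  have hus : ∀ h : ℝ, AEStronglyMeasurable (fun τ => u (τ - h)) volume := fun h =>
    hu.comp_measurePreserving (measurePreserving_sub_right volume h)
  have qm : ∀ h : ℝ, AEStronglyMeasurable (fun τ => ⟪u τ - u (τ - h), u τ⟫_ℝ) volume := fun h =>
    (hu.sub (hus h)).inner hu
  have qb : ∀ h τ : ℝ, ‖⟪u τ - u (τ - h), u τ⟫_ℝ‖ ≤ 2 * M * M := fun h τ => by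
    refine (norm_inner_le_norm _ _).trans ?_
    have h1 : ‖u τ - u (τ - h)‖ ≤ 2 * M := (norm_sub_le _ _).trans (by
      have := hM τ; have := hM (τ - h); linarith)
    exact mul_le_mul h1 (hM τ) (norm_nonneg _) (by positivity)
  have qi : ∀ h, IntegrableOn (fun τ => ⟪u τ - u (τ - h), u τ⟫_ℝ) (Ioc s t) := fun h =>
    Measure.integrableOn_of_bounded (M := 2 * M * M) (by simp) (qm h)
      (Eventually.of_forall (qb h))
  set F : ℕ → ℝ → ℝ := fun n τ => (Γ τ - Γ (τ - st s n)) / st s n + g τ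
    - ⟪u τ - u (τ - st s n), u τ⟫_ℝ / st s n with hF
  have ΓI : ∀ h, IntegrableOn (fun τ => Γ τ - Γ (τ - h)) (Ioc s t) := fun h => by
    have : Continuous (fun τ => Γ τ - Γ (τ - h)) := by fun_prop
    exact (this.integrableOn_Icc (a := s) (b := t)).mono_set Ioc_subset_Icc_self
  have hFi : ∀ n, Integrable (F n) (volume.restrict (Ioc s t)) := fun n =>
    (((ΓI (st s n)).div_const _).add hg.integrableOn).sub ((qi (st s n)).div_const _)
  have hpi : IntervalIntegrable p volume s t := by
    rw [intervalIntegrable_iff_integrableOn_Ioc_of_le hst]; exact hp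
  have key := fat ℝ (volume.restrict (Ioc s t)) F (fun τ => 2 * g τ - p τ)
    (fun n => (((∫ τ in (0 : ℝ)..t, Γ τ) - ∫ τ in (0 : ℝ)..(t - st s n), Γ τ) / st s n
        - ((∫ τ in (0 : ℝ)..s, Γ τ) - ∫ τ in (0 : ℝ)..(s - st s n), Γ τ) / st s n)
      + (Γ t - Γ s)
      - (((∫ τ in (0 : ℝ)..t, k τ) - ∫ τ in (0 : ℝ)..(t - st s n), k τ) / st s n
        - ((∫ τ in (0 : ℝ)..s, k τ) - ∫ τ in (0 : ℝ)..(s - st s n), k τ) / st s n))
    ((Γ t - Γ s) + (Γ t - Γ s) - (k t - k s)) hFi ?_ ?_ ?_ ?_ ?_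
  · have e1 : ∫ τ in Ioc s t, (2 * g τ - p τ) = 2 * (Γ t - Γ s) - ∫ τ in s..t, p τ := by
      rw [← intervalIntegral.integral_of_le hst, intervalIntegral.integral_sub
        ((gi s t).const_mul 2) hpi, intervalIntegral.integral_const_mul, hΓ]
      simp only
      rw [intervalIntegral.integral_interval_sub_left (gi 0 t) (gi 0 s)]
    rw [e1] at key
    have : ‖u t‖ ^ 2 / 2 = k t := rfl
    have : ‖u s‖ ^ 2 / 2 = k s := rfl
    linarith
  · -- nonnegative
    intro n
    rw [ae_restrict_iff' measurableSet_Ioc]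
    filter_upwards [hC] with τ hτ hI
    have h0 := st_pos hs n
    have h1 := st_le hs n
    have hx : τ - st s n ∈ Ioo 0 τ := ⟨by linarith [hI.1], by linarith⟩
    have h2 := hτ hI _ hx
    rw [show τ - (τ - st s n) = st s n by ring] at h2
    have e1 : ∫ r in (τ - st s n)..τ, g r = Γ τ - Γ (τ - st s n) := by
      rw [hΓ]
      simp only
      rw [intervalIntegral.integral_interval_sub_left (gi _ _) (gi _ _)]
    rw [e1] at h2
    simp only [hF]
    have h3 : ⟪u τ - u (τ - st s n), u τ⟫_ℝ / st s n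
        ≤ ((Γ τ - Γ (τ - st s n)) + st s n * g τ) / st s n := by gcongr
    have h4 : ((Γ τ - Γ (τ - st s n)) + st s n * g τ) / st s n
        = (Γ τ - Γ (τ - st s n)) / st s n + g τ := by
      field_simp
    linarith
  · exact (hg.integrableOn.const_mul 2).sub hp
  · rw [ae_restrict_iff' measurableSet_Ioc]
    have hgd : ∀ᵐ τ, HasDerivAt Γ (g τ) τ := by
      filter_upwards [LocallyIntegrable.ae_hasDerivAt_integral hg.locallyIntegrable] with τ hτ
      exact hτ 0
    filter_upwards [hder, hgd] with τ h1 h2 hI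
    have h3 := (quot_lim hs h2).add_const (g τ)
    have h4 := h3.sub (h1 hI)
    have e : g τ + g τ - p τ = 2 * g τ - p τ := by ring
    rw [e] at h4
    exact h4
  · refine Eventually.of_forall fun n => ?_
    have h0 := st_pos hs n
    have e1 : ∫ τ in Ioc s t, F n τ
        = (∫ τ in s..t, (Γ τ - Γ (τ - st s n))) / st s n + (Γ t - Γ s)
          - (∫ τ in s..t, ⟪u τ - u (τ - st s n), u τ⟫_ℝ) / st s n := by
      have a1 : Integrable (fun τ => (Γ τ - Γ (τ - st s n)) / st s n)
        (volume.restrict (Ioc s t)) := (ΓI (st s n)).div_const _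
      have a2 : Integrable g (volume.restrict (Ioc s t)) := hg.integrableOn
      have a3 : Integrable (fun τ => (Γ τ - Γ (τ - st s n)) / st s n + g τ)
        (volume.restrict (Ioc s t)) := a1.add a2
      have a4 : Integrable (fun τ => ⟪u τ - u (τ - st s n), u τ⟫_ℝ / st s n)
        (volume.restrict (Ioc s t)) := (qi (st s n)).div_const _
      simp only [hF]
      rw [integral_sub a3 a4, integral_add a1 a2,
        integral_div, integral_div, ← intervalIntegral.integral_of_le hst,
        ← intervalIntegral.integral_of_le hst, ← intervalIntegral.integral_of_le hst]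
      congr 2
      rw [hΓ]
      simp only
      rw [intervalIntegral.integral_interval_sub_left (gi 0 t) (gi 0 s)]
    have e2 : ∫ τ in s..t, (k τ - k (τ - st s n)) ≤ ∫ τ in s..t, ⟪u τ - u (τ - st s n), u τ⟫_ℝ := by
      refine intervalIntegral.integral_mono_on hst ?_ ?_ ?_
      · exact (ki s t).sub (by
          have := (ki (s - st s n) (t - st s n)).comp_sub_right (st s n)
          simpa using this)
      · rw [intervalIntegrable_iff_integrableOn_Ioc_of_le hst]; exact qi _
      · intro τ _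
        have a1 := norm_sub_sq_real (u τ) (u (τ - st s n))
        have a2 : ⟪u τ - u (τ - st s n), u τ⟫_ℝ = ‖u τ‖ ^ 2 - ⟪u τ, u (τ - st s n)⟫_ℝ := by
          rw [inner_sub_left, real_inner_self_eq_norm_sq, real_inner_comm]
        have a3 : 0 ≤ ‖u τ - u (τ - st s n)‖ ^ 2 := by positivity
        simp only [hk]
        rw [a2]
        linarith
    rw [e1, int_diff Γi, sub_div, ← sub_div]
    rw [int_diff ki] at e2
    have e3 := div_le_div_of_nonneg_right e2 h0.le
    rw [sub_div] at e3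
    rw [sub_div]
    linarith
  · have l1 := quot_lim (P := fun y => ∫ r in (0 : ℝ)..y, Γ r) hs (Γd t)
    have l2 := quot_lim (P := fun y => ∫ r in (0 : ℝ)..y, Γ r) hs (Γd s)
    have l3 := quot_lim (P := fun y => ∫ r in (0 : ℝ)..y, k r) hs kt
    have l4 := quot_lim (P := fun y => ∫ r in (0 : ℝ)..y, k r) hs ks
    exact ((l1.sub l2).add_const _).sub (l3.sub l4)

end Pool.Agent.P8H70.TF
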