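import Pool.Agent.P8H70.TF.Inc

/-!
From the tested inequality to monotonicity.
-/

set_option autoImplicit false
set_option linter.unusedSectionVars false

open MeasureTheory Set Filter Topology
open scoped InnerProductSpace ENNReal NNReal

namespace Pool.Agent.P8H70.TF

open H772R2.NS

/-- a ramp -/
noncomputable def ramp (ε y : ℝ) : ℝ := max 0 (min y ε)

theorem ramp_lip (ε : ℝ) : LipschitzWith 1 (ramp ε) := by
  have h1 : LipschitzWith 1 (fun y : ℝ => min y ε) := LipschitzWith.id.min_const ε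
  exact (h1.const_max 0)

theorem ramp_mono (ε : ℝ) : Monotone (ramp ε) := fun _ _ h =>
  max_le_max le_rfl (min_le_min_right _ h)

theorem ramp_neg {ε y : ℝ} (hy : y ≤ 0) (hε : 0 ≤ ε) : ramp ε y = 0 := by
  unfold ramp
  rw [min_eq_left (hy.trans hε), max_eq_left hy]

theorem ramp_big {ε y : ℝ} (hy : ε ≤ y) (hε : 0 ≤ ε) : ramp ε y = ε := by
  unfold ramp
  rw [min_eq_right hy, max_eq_right hε]

theorem ramp_mid {ε y : ℝ} (hy : 0 ≤ y) (hy' : y ≤ ε) : ramp ε y = y := by
  unfold ramp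
  rw [min_eq_left hy', max_eq_right hy]

theorem ramp_der {ε y : ℝ} (hε : 0 < ε) (h0 : y ≠ 0) (h1 : y ≠ ε) :
    HasDerivAt (ramp ε) ((Ioc 0 ε).indicator (fun _ => (1 : ℝ)) y) y := by
  rcases lt_or_gt_of_ne h0 with h | h
  · rw [indicator_of_notMem (fun hh => absurd hh.1 (by linarith))]
    refine (hasDerivAt_const y (0 : ℝ)).congr_of_eventuallyEq ?_
    filter_upwards [Iio_mem_nhds h] with z hz
    exact ramp_neg (le_of_lt hz) hε.le
  rcases lt_or_gt_of_ne h1 with h' | h'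
  · rw [indicator_of_mem (show y ∈ Ioc 0 ε from ⟨h, h'.le⟩)]
    refine (hasDerivAt_id y).congr_of_eventuallyEq ?_
    filter_upwards [Ioo_mem_nhds h h'] with z hz
    exact ramp_mid hz.1.le hz.2.le
  · rw [indicator_of_notMem (fun hh => absurd hh.2 (by linarith))]
    refine (hasDerivAt_const y ε).congr_of_eventuallyEq ?_
    filter_upwards [Ioi_mem_nhds h'] with z hz
    exact ramp_big (le_of_lt hz) hε.le

/-- a trapezoid -/
noncomputable def trap (s t ε x : ℝ) : ℝ := (ramp ε (x - s) - ramp ε (x - (t - ε))) / ε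

theorem trap_lip (s t : ℝ) {ε : ℝ} (hε : 0 < ε) :
    LipschitzWith (Real.toNNReal (2 / ε)) (trap s t ε) := by
  refine LipschitzWith.of_dist_le_mul fun x y => ?_
  have h1 := (ramp_lip ε).dist_le_mul (x - s) (y - s)
  have h2 := (ramp_lip ε).dist_le_mul (x - (t - ε)) (y - (t - ε))
  rw [Real.coe_toNNReal _ (by positivity), Real.dist_eq, Real.dist_eq]
  simp only [NNReal.coe_one, one_mul, Real.dist_eq] at h1 h2
  rw [show x - s - (y - s) = x - y by ring] at h1
  rw [show x - (t - ε) - (y - (t - ε)) = x - y by ring] at h2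
  have e : trap s t ε x - trap s t ε y
      = ((ramp ε (x - s) - ramp ε (y - s)) - (ramp ε (x - (t - ε)) - ramp ε (y - (t - ε)))) / ε := by
    unfold trap; ring
  rw [e, abs_div, abs_of_pos hε, div_le_iff₀ hε]
  have h3 := abs_sub (ramp ε (x - s) - ramp ε (y - s)) (ramp ε (x - (t - ε)) - ramp ε (y - (t - ε)))
  have e2 : 2 / ε * |x - y| * ε = 2 * |x - y| := by field_simp
  rw [e2]
  linarith

theorem trap_nonneg {s t ε : ℝ} (hε : 0 < ε) (h : s + ε ≤ t) (x : ℝ) : 0 ≤ trap s t ε x := by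
  unfold trap
  refine div_nonneg (sub_nonneg.2 (ramp_mono ε (by linarith))) hε.le

theorem trap_supp {s t ε : ℝ} (hε : 0 < ε) (h : s + ε ≤ t) : tsupport (trap s t ε) ⊆ Icc s t := by
  refine closure_minimal (fun x hx => ?_) isClosed_Icc
  by_contra hne
  apply hx
  rw [mem_Icc, not_and_or, not_le, not_le] at hne
  unfold trap
  rcases hne with h1 | h1
  · rw [ramp_neg (by linarith) hε.le, ramp_neg (by linarith) hε.le, sub_zero, zero_div]
  · rw [ramp_big (by linarith) hε.le, ramp_big (by linarith) hε.le, sub_self, zero_div]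

theorem trap_deriv (s t : ℝ) {ε : ℝ} (hε : 0 < ε) :
    ∀ᵐ x, deriv (trap s t ε) x
      = ((Ioc s (s + ε)).indicator (fun _ => (1 : ℝ)) x
        - (Ioc (t - ε) t).indicator (fun _ => (1 : ℝ)) x) / ε := by
  have n : ∀ a : ℝ, ∀ᵐ x : ℝ, x ≠ a := fun a => by simp [ae_iff, measure_singleton]
  filter_upwards [n s, n (s + ε), n (t - ε), n t] with x h1 h2 h3 h4
  have d1 := (ramp_der (y := x - s) hε (sub_ne_zero.2 h1) (fun h => h2 (by linarith))).comp_sub_const
    x s
  have d2 := (ramp_der (y := x - (t - ε)) hε (sub_ne_zero.2 h3)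
    (fun h => h4 (by linarith))).comp_sub_const x (t - ε)
  have d3 := (d1.sub d2).div_const ε
  have e1 : (Ioc 0 ε).indicator (fun _ => (1 : ℝ)) (x - s)
      = (Ioc s (s + ε)).indicator (fun _ => (1 : ℝ)) x := by
    by_cases h : x ∈ Ioc s (s + ε)
    · rw [indicator_of_mem h, indicator_of_mem (show x - s ∈ Ioc 0 ε from
        ⟨by linarith [h.1], by linarith [h.2]⟩)]
    · rw [indicator_of_notMem h, indicator_of_notMem fun hh =>
        h ⟨by linarith [hh.1], by linarith [hh.2]⟩]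
  have e2 : (Ioc 0 ε).indicator (fun _ => (1 : ℝ)) (x - (t - ε))
      = (Ioc (t - ε) t).indicator (fun _ => (1 : ℝ)) x := by
    by_cases h : x ∈ Ioc (t - ε) t
    · rw [indicator_of_mem h, indicator_of_mem (show x - (t - ε) ∈ Ioc 0 ε from
        ⟨by linarith [h.1], by linarith [h.2]⟩)]
    · rw [indicator_of_notMem h, indicator_of_notMem fun hh =>
        h ⟨by linarith [hh.1], by linarith [hh.2]⟩]
  rw [e1, e2] at d3
  exact d3.deriv

theorem trap_int {D : ℝ → ℝ} {T s t ε : ℝ} (hD : IntegrableOn D (Ioc 0 T)) (T0 : 0 < T)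
    (hs : 0 ≤ s) (htT : t ≤ T) (hε : 0 < ε) (h : s + ε ≤ t) :
    ∫ τ in (0 : ℝ)..T, deriv (trap s t ε) τ * D τ
      = ((∫ τ in s..(s + ε), D τ) - ∫ τ in (t - ε)..t, D τ) / ε := by
  have e1 : ∫ τ in (0 : ℝ)..T, deriv (trap s t ε) τ * D τ
      = ∫ τ in Ioc 0 T, ((Ioc s (s + ε)).indicator D τ - (Ioc (t - ε) t).indicator D τ) / ε := by
    rw [intervalIntegral.integral_of_le T0.le]
    refine integral_congr_ae (ae_restrict_of_ae ?_)
    filter_upwards [trap_deriv s t hε] with x hx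
    rw [hx]
    by_cases h1 : x ∈ Ioc s (s + ε) <;> by_cases h2 : x ∈ Ioc (t - ε) t <;>
      simp [h1, h2] <;> ring
  have s1 : Ioc s (s + ε) ⊆ Ioc 0 T := Ioc_subset_Ioc hs (h.trans htT)
  have s2 : Ioc (t - ε) t ⊆ Ioc 0 T := Ioc_subset_Ioc (by linarith) htT
  rw [e1, integral_div, integral_sub, setIntegral_indicator measurableSet_Ioc,
    setIntegral_indicator measurableSet_Ioc, inter_eq_self_of_subset_right s1,
    inter_eq_self_of_subset_right s2, intervalIntegral.integral_of_le (by linarith),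
    intervalIntegral.integral_of_le (by linarith)]
  · exact hD.indicator measurableSet_Ioc
  · exact hD.indicator measurableSet_Ioc

/-- the points at which the averages of `D` converge -/
def LP (T : ℝ) (D : ℝ → ℝ) : Set ℝ :=
  {t | t ∈ Ioo 0 T ∧ HasDerivAt (fun x => ∫ r in (0 : ℝ)..x, D r) (D t) t}

theorem ae_LP {T : ℝ} {D : ℝ → ℝ} (T0 : 0 < T) (hD : IntegrableOn D (Ioc 0 T)) :
    ∀ᵐ t, t ∈ Ioo 0 T → t ∈ LP T D := by
  have hi : IntervalIntegrable D volume 0 T := by
    rw [intervalIntegrable_iff_integrableOn_Ioc_of_le T0.le]; exact hD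
  filter_upwards [hi.ae_hasDerivAt_integral] with t ht hI
  refine ⟨hI, ht ?_ 0 left_mem_uIcc⟩
  rw [uIcc_of_le T0.le]
  exact Ioo_subset_Icc_self hI

theorem ae_mono {T σ : ℝ} {D : ℝ → ℝ} (T0 : 0 < T) (hD : IntegrableOn D (Ioc 0 T))
    (h : ∀ (θ : ℝ → ℝ) (C : ℝ≥0), LipschitzWith C θ → tsupport θ ⊆ Ioo 0 T → (∀ x, 0 ≤ θ x) →
      0 ≤ σ * ∫ τ in (0 : ℝ)..T, deriv θ τ * D τ) {s t : ℝ} (hs : s ∈ LP T D) (ht : t ∈ LP T D)
    (hst : s < t) : σ * D t ≤ σ * D s := by
  have hlt : 0 < (t - s) := by linarith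
  have hstep : ∀ n, s + st (t - s) n ≤ t := fun n => by
    have := st_le hlt n
    linarith
  have key : ∀ n, 0 ≤ σ * ((((∫ τ in (0 : ℝ)..(s + st (t - s) n), D τ) - ∫ τ in (0 : ℝ)..s, D τ)
      / st (t - s) n) - (((∫ τ in (0 : ℝ)..t, D τ) - ∫ τ in (0 : ℝ)..(t - st (t - s) n), D τ)
      / st (t - s) n)) := by
    intro n
    have h0 := st_pos hlt n
    have h1 := hstep n
    have h2 := h (trap s t (st (t - s) n)) _ (trap_lip s t h0)
      ((trap_supp h0 h1).trans (fun x hx => ⟨hs.1.1.trans_le hx.1, hx.2.trans_lt ht.1.2⟩))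
      (trap_nonneg h0 h1)
    rw [trap_int hD T0 hs.1.1.le ht.1.2.le h0 h1] at h2
    have ii' : ∀ x y : ℝ, 0 ≤ x → x ≤ y → y ≤ T → IntervalIntegrable D volume x y :=
      fun x y a b c => ii hD a b c
    have hsT := hs.1.2
    have htT := ht.1.2
    have hs0 := hs.1.1
    have a1 := intervalIntegral.integral_add_adjacent_intervals (ii' 0 s le_rfl hs0.le hsT.le)
      (ii' s (s + st (t - s) n) hs0.le (by linarith) (by linarith))
    have a2 := intervalIntegral.integral_add_adjacent_intervals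
      (ii' 0 (t - st (t - s) n) le_rfl (by linarith) (by linarith))
      (ii' (t - st (t - s) n) t (by linarith) (by linarith) htT.le)
    have e1 : ∫ τ in s..(s + st (t - s) n), D τ
        = (∫ τ in (0 : ℝ)..(s + st (t - s) n), D τ) - ∫ τ in (0 : ℝ)..s, D τ := by linarith
    have e2 : ∫ τ in (t - st (t - s) n)..t, D τ
        = (∫ τ in (0 : ℝ)..t, D τ) - ∫ τ in (0 : ℝ)..(t - st (t - s) n), D τ := by linarith
    rw [e1, e2, sub_div] at h2
    exact h2
  have l1 : Tendsto (fun n => ((∫ τ in (0 : ℝ)..(s + st (t - s) n), D τ)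
      - ∫ τ in (0 : ℝ)..s, D τ) / st (t - s) n) atTop (𝓝 (D s)) := by
    have hp : Tendsto (fun n => s + st (t - s) n) atTop (𝓝[≠] s) := by
      refine tendsto_nhdsWithin_iff.2 ⟨?_, Eventually.of_forall fun n => ?_⟩
      · have := (st_lim (t - s)).const_add s
        rwa [add_zero] at this
      · have := st_pos hlt n
        simp only [mem_compl_iff, mem_singleton_iff]
        intro h
        linarith
    refine ((hasDerivAt_iff_tendsto_slope.mp hs.2).comp hp).congr fun n => ?_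
    simp only [Function.comp, slope_def_field]
    rw [add_sub_cancel_left]
  have l2 := quot_lim hlt ht.2
  have l3 := (l1.sub l2).const_mul σ
  have fin := ge_of_tendsto' l3 key
  linarith

variable {H : Type} [NormedAddCommGroup H] [InnerProductSpace ℝ H] [CompleteSpace H]
variable {K : Type} [NormedAddCommGroup K] [InnerProductSpace ℝ K] [CompleteSpace K]
variable {W : Submodule ℝ (H × K)} {T M ν : ℝ} {u : ℝ → H} {G m : ℝ → K} {f : ℝ → H}

theorem defect_int (S : Sol W T M ν u G m f) (T0 : 0 < T) :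
    IntegrableOn (defect ν u G f) (Ioc 0 T) := by
  have hp : IntervalIntegrable (pow ν u G f) volume 0 T := by
    rw [intervalIntegrable_iff_integrableOn_Ioc_of_le S.T0]
    exact S.pow_int
  have hc : ContinuousOn (fun x => ∫ τ in (0 : ℝ)..x, pow ν u G f τ) (Icc 0 T) := by
    have := intervalIntegral.continuousOn_primitive_interval' hp
      (show (0 : ℝ) ∈ uIcc 0 T from left_mem_uIcc)
    rwa [uIcc_of_le T0.le] at this
  have i1 : IntegrableOn (fun x => ∫ τ in (0 : ℝ)..x, pow ν u G f τ) (Ioc 0 T) :=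
    (hc.integrableOn_Icc).mono_set Ioc_subset_Icc_self
  have i2 : IntegrableOn (fun x => ‖u x‖ ^ 2 / 2) (Ioc 0 T) := by
    refine Integrable.mono' (g := fun _ => M ^ 2 / 2) (by simp)
      ((S.umeas.norm.aemeasurable.pow_const 2).div_const 2).aestronglyMeasurable ?_
    filter_upwards [ae_restrict_mem measurableSet_Ioc] with τ hτ
    have h1 := S.bdd τ (Ioc_subset_Icc_self hτ)
    rw [Real.norm_eq_abs, abs_of_nonneg (by positivity)]
    have : ‖u τ‖ ^ 2 ≤ M ^ 2 := by gcongr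
    linarith
  have i3 : IntegrableOn (fun _ : ℝ => ‖u 0‖ ^ 2 / 2) (Ioc 0 T) := by simp
  exact (i3.add i1).sub i2

/-- upper semicontinuity of the defect along sequences -/
theorem usc_seq (S : Sol W T M ν u G m f) (T0 : 0 < T) {x : ℝ} {y : ℕ → ℝ} {a : ℝ}
    (hx : x ∈ Icc 0 T) (hy : ∀ n, y n ∈ Icc 0 T) (hlim : Tendsto y atTop (𝓝 x))
    (ha : ∀ n, a ≤ defect ν u G f (y n)) : a ≤ defect ν u G f x := by
  have hp : IntervalIntegrable (pow ν u G f) volume 0 T := by
    rw [intervalIntegrable_iff_integrableOn_Ioc_of_le S.T0]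
    exact S.pow_int
  have hc : ContinuousOn (fun x => ∫ τ in (0 : ℝ)..x, pow ν u G f τ) (Icc 0 T) := by
    have := intervalIntegral.continuousOn_primitive_interval' hp
      (show (0 : ℝ) ∈ uIcc 0 T from left_mem_uIcc)
    rwa [uIcc_of_le T0.le] at this
  have hw : Tendsto y atTop (𝓝[Icc 0 T] x) :=
    tendsto_nhdsWithin_iff.2 ⟨hlim, Eventually.of_forall hy⟩
  have l1 := (hc x hx).tendsto.comp hw
  have l2 := ((S.wcont (u x)) x hx).tendsto.comp hw
  have l3 := ((l1.const_add (‖u 0‖ ^ 2 / 2)).sub l2).add_const (‖u x‖ ^ 2 / 2)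
  rw [real_inner_self_eq_norm_sq] at l3
  have fin := ge_of_tendsto' l3 (b := a) fun n => by
    have a2 := norm_sub_sq_real (u (y n)) (u x)
    have a3 : 0 ≤ ‖u (y n) - u x‖ ^ 2 := by positivity
    have a4 := ha n
    simp only [defect] at a4
    simp only [Function.comp]
    linarith
  simp only [defect]
  linarith

/-- the energy is nowhere lost, almost everywhere -/
theorem inc_low (S : Sol W T M ν u G m f) (T0 : 0 < T) {ψ : ℝ → ℝ}
    (hψ : IntegrableOn ψ (Ioc 0 T)) (hψ0 : ∀ t, 0 ≤ ψ t)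
    (hb : ∀ᵐ τ ∂(volume.restrict (Ioc 0 T)), ∀ᵐ r ∂(volume.restrict (Ioc 0 T)),
      -(ψ r + ψ τ + |r - τ| * (ψ r * ψ τ)) ≤ ⟪m r, G τ⟫_ℝ + ⟪m τ, G r⟫_ℝ) :
    ∀ s ∈ Ico 0 T, ∀ᵐ t ∂(volume.restrict (Ioo s T)), defect ν u G f t ≤ defect ν u G f s := by
  intro s hs
  have hD := defect_int S T0
  have hm := fun {s t : ℝ} (a : s ∈ LP T (defect ν u G f)) (b : t ∈ LP T (defect ν u G f))
    (c : s < t) => ae_mono (σ := 1) T0 hD (fun θ C h1 h2 h3 => inc_test S T0 hψ hψ0
      (by simpa using hb) h1 h2 h3) a b c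
  rw [ae_restrict_iff' measurableSet_Ioo]
  filter_upwards [ae_LP T0 hD] with t ht hI
  have htL := ht ⟨hs.1.trans_lt hI.1, hI.2⟩
  have ex : ∀ n : ℕ, ∃ x ∈ Ioo s (s + st (t - s) n), x ∈ LP T (defect ν u G f) := fun n => by
    have hp := st_pos (sub_pos.2 hI.1) n
    have hl := st_le (sub_pos.2 hI.1) n
    obtain ⟨x, hx, hx2⟩ := exists_mem_of_ae (ae_LP T0 hD) (a := s) (b := s + st (t - s) n)
      (by linarith)
    exact ⟨x, hx, hx2 ⟨hs.1.trans_lt hx.1, by linarith [hx.2, hI.2]⟩⟩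
  choose x hx hxL using ex
  have hlim : Tendsto x atTop (𝓝 s) := by
    have l1 : Tendsto (fun n => s + st (t - s) n) atTop (𝓝 s) := by
      have := (st_lim (t - s)).const_add s
      rwa [add_zero] at this
    exact tendsto_of_tendsto_of_tendsto_of_le_of_le tendsto_const_nhds l1
      (fun n => (hx n).1.le) (fun n => (hx n).2.le)
  refine usc_seq S T0 ⟨hs.1, hs.2.le⟩ (fun n => Ioo_subset_Icc_self (hxL n).1) hlim fun n => ?_
  have hl := st_le (sub_pos.2 hI.1) n
  have := hm (hxL n) htL (by linarith [(hx n).2] : x n < t)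
  linarith

/-- the strong energy inequality, almost everywhere -/
theorem inc_up (S : Sol W T M ν u G m f) (T0 : 0 < T) {ψ : ℝ → ℝ}
    (hψ : IntegrableOn ψ (Ioc 0 T)) (hψ0 : ∀ t, 0 ≤ ψ t)
    (hb : ∀ᵐ τ ∂(volume.restrict (Ioc 0 T)), ∀ᵐ r ∂(volume.restrict (Ioc 0 T)),
      ⟪m r, G τ⟫_ℝ + ⟪m τ, G r⟫_ℝ ≤ ψ r + ψ τ + |r - τ| * (ψ r * ψ τ)) :
    ∀ᵐ s ∂(volume.restrict (Ioo 0 T)), ∀ t ∈ Icc s T, defect ν u G f s ≤ defect ν u G f t := by
  have hD := defect_int S T0
  have hm := fun {s t : ℝ} (a : s ∈ LP T (defect ν u G f)) (b : t ∈ LP T (defect ν u G f))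
    (c : s < t) => ae_mono (σ := -1) T0 hD (fun θ C h1 h2 h3 => inc_test S T0 hψ hψ0
      (by
        filter_upwards [hb] with τ hτ
        filter_upwards [hτ] with r hr
        linarith) h1 h2 h3) a b c
  rw [ae_restrict_iff' measurableSet_Ioo]
  filter_upwards [ae_LP T0 hD] with s hs hI t ht
  have hsL := hs hI
  rcases ht.1.eq_or_lt with rfl | hlt
  · exact le_rfl
  have ex : ∀ n : ℕ, ∃ x ∈ Ioo (t - st (t - s) n) t, x ∈ LP T (defect ν u G f) := fun n => by
    have hp := st_pos (sub_pos.2 hlt) n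
    have hl := st_le (sub_pos.2 hlt) n
    obtain ⟨x, hx, hx2⟩ := exists_mem_of_ae (ae_LP T0 hD) (a := t - st (t - s) n) (b := t)
      (by linarith)
    exact ⟨x, hx, hx2 ⟨by linarith [hx.1, hI.1], by linarith [hx.2, ht.2]⟩⟩
  choose x hx hxL using ex
  have hlim : Tendsto x atTop (𝓝 t) := by
    have l1 : Tendsto (fun n => t - st (t - s) n) atTop (𝓝 t) := by
      have := (st_lim (t - s)).const_sub t
      rwa [sub_zero] at this
    exact tendsto_of_tendsto_of_tendsto_of_le_of_le l1 tendsto_const_nhds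
      (fun n => (hx n).1.le) (fun n => (hx n).2.le)
  refine usc_seq S T0 ⟨hI.1.le.trans ht.1, ht.2⟩ (fun n => Ioo_subset_Icc_self (hxL n).1) hlim
    fun n => ?_
  have hl := st_le (sub_pos.2 hlt) n
  have := hm hsL (hxL n) (by linarith [(hx n).1] : s < x n)
  linarith

end Pool.Agent.P8H70.TF
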