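import Pool.Agent.P8H70.TF.Dist
import Pool.Agent.P8H70.TF.Main1

/-!
The law and the criteria for weak solutions of the Navier-Stokes equations.
-/

set_option autoImplicit false
set_option linter.unusedSectionVars false

open MeasureTheory Set Filter Topology
open scoped InnerProductSpace ENNReal ContDiff NNReal

namespace Pool.Agent.P8H70.TF

open H772R2.NS Pool.Agent.TH301.EQ Pool.Agent.P8H70.EC

variable {Ω : Set E3}

theorem tens_par (a b : E3) : tens (a + b) + tens (a - b) = (2 : ℝ) • tens a + (2 : ℝ) • tens b := by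
  ext i
  simp only [PiLp.add_apply, PiLp.smul_apply, tens_apply, PiLp.sub_apply, smul_eq_mul]
  ring

/-- the polarised identity -/
theorem quad_eq (hΩ : MeasurableSet Ω) {p q : L2V Ω × L2M Ω} (hp : p ∈ graphW Ω)
    (hq : q ∈ graphW Ω) :
    ∫ x in Ω, ⟪tens (p.1 x - q.1 x), q.2 x⟫_ℝ = ⟪tensL p.1, q.2⟫_ℝ + ⟪tensL q.1, p.2⟫_ℝ := by
  have hs := (graphW Ω).add_mem hp hq
  have hd := (graphW Ω).sub_mem hp hq
  have par : tensL (p + q).1 + tensL (p - q).1 = (2 : ℝ) • tensL p.1 + (2 : ℝ) • tensL q.1 := by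
    apply Lp.ext
    filter_upwards [Lp.coeFn_add (tensL (p + q).1) (tensL (p - q).1),
      Lp.coeFn_add ((2 : ℝ) • tensL p.1) ((2 : ℝ) • tensL q.1),
      Lp.coeFn_smul (2 : ℝ) (tensL p.1), Lp.coeFn_smul (2 : ℝ) (tensL q.1),
      tensL_coe hΩ hs, tensL_coe hΩ hd, tensL_coe hΩ hp, tensL_coe hΩ hq,
      Lp.coeFn_add p.1 q.1, Lp.coeFn_sub p.1 q.1] with x a1 a2 a3 a4 a5 a6 a7 a8 a9 a10
    rw [a1, a2, Pi.add_apply, Pi.add_apply, a3, a4, Pi.smul_apply, Pi.smul_apply, a5, a6, a7, a8]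
    rw [Prod.fst_add, Prod.fst_sub, a9, a10]
    exact tens_par _ _
  have z1 := inner_tensL_zero hΩ hs
  have z2 := inner_tensL_zero hΩ hd
  have z3 := inner_tensL_zero hΩ hp
  have z4 := inner_tensL_zero hΩ hq
  have e1 : tensL (p + q).1 = (2 : ℝ) • tensL p.1 + (2 : ℝ) • tensL q.1 - tensL (p - q).1 := by
    rw [← par]; abel
  rw [e1, Prod.snd_add, inner_add_right, inner_sub_left, inner_sub_left, inner_add_left,
    inner_add_left, real_inner_smul_left, real_inner_smul_left, real_inner_smul_left,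
    real_inner_smul_left, z3, z4] at z1
  rw [Prod.snd_sub, inner_sub_right] at z2
  have e2 : ∫ x in Ω, ⟪tens (p.1 x - q.1 x), q.2 x⟫_ℝ = ⟪tensL (p - q).1, q.2⟫_ℝ := by
    rw [L2.inner_def]
    apply integral_congr_ae
    filter_upwards [tensL_coe hΩ hd, Lp.coeFn_sub p.1 q.1] with x b1 b2
    rw [b1, Prod.fst_sub, b2, Pi.sub_apply]
  rw [e2]
  linarith

theorem quad_one (hΩ : MeasurableSet Ω) {p q : L2V Ω × L2M Ω} (hp : p ∈ graphW Ω) :
    ∫ x in Ω, ⟪tens (p.1 x), q.2 x⟫_ℝ = ⟪tensL p.1, q.2⟫_ℝ := by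
  rw [L2.inner_def]
  apply integral_congr_ae
  filter_upwards [tensL_coe hΩ hp] with x b1
  rw [b1]

variable {ν T : ℝ} {u : ℝ → L2V Ω} {G : ℝ → L2M Ω} {f : ℝ → L2V Ω}

theorem ns_sol (hΩ : IsOpen Ω) (hν : 0 ≤ ν) (hT : 0 < T) (h : IsWeakSolution Ω ν T u G f) :
    ∃ M, Sol (graphW Ω) T M ν u G (fun t => tensL (u t)) f := by
  obtain ⟨M, hM⟩ := h.bdd
  exact ⟨M, h.toSol hΩ hν hT hM⟩

/-- **The exact law.** -/
theorem ns_law (hΩ : IsOpen Ω) (hν : 0 ≤ ν) (hT : 0 < T) (h : IsWeakSolution Ω ν T u G f)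
    {θ : ℝ → ℝ} {C : ℝ≥0} (hθ : LipschitzWith C θ) (hs : tsupport θ ⊆ Ioo 0 T) :
    Tendsto (fun η : ℝ => ∫ τ in (0 : ℝ)..T, θ τ * ((1 / (2 * η)) * ∫ r in (τ - η)..(τ + η),
        ∫ x in Ω, ⟪tens (u r x - u τ x), G τ x⟫_ℝ))
      (𝓝[>] 0) (𝓝 (2 * ∫ τ in (0 : ℝ)..T, deriv θ τ * energyDefect ν u G f τ)) := by
  obtain ⟨M, S⟩ := ns_sol hΩ hν hT h
  have l1 := (law S hT hθ hs).const_mul (1 / 2)
  have e1 : 1 / 2 * (4 * ∫ τ in (0 : ℝ)..T, deriv θ τ * defect ν u G f τ)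
      = 2 * ∫ τ in (0 : ℝ)..T, deriv θ τ * energyDefect ν u G f τ := by
    have : ∫ τ in (0 : ℝ)..T, deriv θ τ * energyDefect ν u G f τ
        = ∫ τ in (0 : ℝ)..T, deriv θ τ * defect ν u G f τ := by
      refine intervalIntegral.integral_congr fun τ hτ => ?_
      rw [uIcc_of_le hT.le] at hτ
      rw [energyDefect_eq hΩ hν hT h hτ]
    rw [this]; ring
  rw [e1] at l1
  refine l1.congr' ?_
  obtain ⟨δ, hδ, hd⟩ := exists_dist hs
  have hg := h.grad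
  rw [ae_restrict_iff' measurableSet_Ioo] at hg
  filter_upwards [Ioo_mem_nhdsGT hδ] with η hη
  rw [← intervalIntegral.integral_const_mul, ← intervalIntegral.integral_const_mul]
  refine intervalIntegral.integral_congr_ae ?_
  filter_upwards [hg] with τ hτ _
  by_cases h1 : θ τ = 0
  · rw [h1]; ring
  have hτI := hd τ h1 τ (by simpa using hδ)
  have e2 : ∫ r in (τ - η)..(τ + η), (⟪tensL (u r), G τ⟫_ℝ + ⟪tensL (u τ), G r⟫_ℝ)
      = ∫ r in (τ - η)..(τ + η), ∫ x in Ω, ⟪tens (u r x - u τ x), G τ x⟫_ℝ := by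
    refine intervalIntegral.integral_congr_ae ?_
    filter_upwards [hg] with r hr hrI
    rw [uIoc_of_le (by linarith [hη.1])] at hrI
    have hr' := hd τ h1 r (by rw [abs_lt]; constructor <;> linarith [hrI.1, hrI.2, hη.2])
    exact (quad_eq hΩ.measurableSet (p := (u r, G r)) (q := (u τ, G τ))
      (mem_graphW.mpr (hr hr')) (mem_graphW.mpr (hτ hτI))).symm
  rw [e2]
  have h0 := hη.1.ne'
  field_simp

section crit

variable {ψ : ℝ → ℝ}

theorem ns_inc (hΩ : IsOpen Ω) (hν : 0 ≤ ν) (hT : 0 < T) (h : IsWeakSolution Ω ν T u G f)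
    (hψ0 : ∀ t, 0 ≤ ψ t) (hψ : IntegrableOn ψ (Ioo 0 T)) :
    ((∀ᵐ τ ∂(volume.restrict (Ioo 0 T)), ∀ᵐ r ∂(volume.restrict (Ioo 0 T)),
        ∫ x in Ω, ⟪tens (u r x - u τ x), G τ x⟫_ℝ ≤ ψ r + ψ τ + |r - τ| * (ψ r * ψ τ)) →
      ∀ᵐ s ∂(volume.restrict (Ioo 0 T)), ∀ t ∈ Icc s T,
        energyDefect ν u G f s ≤ energyDefect ν u G f t) ∧
    ((∀ᵐ τ ∂(volume.restrict (Ioo 0 T)), ∀ᵐ r ∂(volume.restrict (Ioo 0 T)),
        -(ψ r + ψ τ + |r - τ| * (ψ r * ψ τ)) ≤ ∫ x in Ω, ⟪tens (u r x - u τ x), G τ x⟫_ℝ) →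
      (∀ s ∈ Ico 0 T, ∀ᵐ t ∂(volume.restrict (Ioo s T)),
        energyDefect ν u G f t ≤ energyDefect ν u G f s) ∧
      ((∀ᵐ t ∂(volume.restrict (Ioo 0 T)), 0 ≤ energyDefect ν u G f t) →
        ∀ᵐ t ∂(volume.restrict (Ioo 0 T)), energyDefect ν u G f t = 0)) := by
  obtain ⟨M, S⟩ := ns_sol hΩ hν hT h
  have eT := restrict_Ioc_eq T
  have hψ' : IntegrableOn ψ (Ioc 0 T) := by rw [IntegrableOn, eT]; exact hψ
  have hE := fun {t : ℝ} (ht : t ∈ Icc 0 T) => energyDefect_eq hΩ hν hT h ht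
  have hg := h.grad
  constructor
  · intro hb
    have k := inc_up S hT hψ' hψ0 (by
      rw [eT]
      filter_upwards [hb, hg] with τ h1 h2
      filter_upwards [h1, hg] with r h3 h4
      rw [← quad_eq hΩ.measurableSet (p := (u r, G r)) (q := (u τ, G τ))
        (mem_graphW.mpr h4) (mem_graphW.mpr h2)]
      exact h3)
    filter_upwards [k, ae_restrict_mem measurableSet_Ioo] with s hs hsI t ht
    rw [hE (Ioo_subset_Icc_self hsI), hE ⟨hsI.1.le.trans ht.1, ht.2⟩]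
    exact hs t ht
  · intro hb
    have k := inc_low S hT hψ' hψ0 (by
      rw [eT]
      filter_upwards [hb, hg] with τ h1 h2
      filter_upwards [h1, hg] with r h3 h4
      rw [← quad_eq hΩ.measurableSet (p := (u r, G r)) (q := (u τ, G τ))
        (mem_graphW.mpr h4) (mem_graphW.mpr h2)]
      exact h3)
    have k' : ∀ s ∈ Ico 0 T, ∀ᵐ t ∂(volume.restrict (Ioo s T)),
        energyDefect ν u G f t ≤ energyDefect ν u G f s := by
      intro s hs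
      filter_upwards [k s hs, ae_restrict_mem measurableSet_Ioo] with t ht htI
      rw [hE ⟨hs.1, hs.2.le⟩, hE ⟨hs.1.trans htI.1.le, htI.2.le⟩]
      exact ht
    refine ⟨k', fun h0 => ?_⟩
    filter_upwards [k' 0 ⟨le_rfl, hT⟩, h0] with t h1 h2
    have h3 : energyDefect ν u G f 0 = 0 := by
      rw [hE ⟨le_rfl, hT.le⟩, Sol.defect_zero]
    linarith

theorem ns_back (hΩ : IsOpen Ω) (hν : 0 ≤ ν) (hT : 0 < T) (h : IsWeakSolution Ω ν T u G f)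
    (hψ0 : ∀ t, 0 ≤ ψ t) (hψ : IntegrableOn ψ (Ioo 0 T))
    (hb : ∀ᵐ τ ∂(volume.restrict (Ioo 0 T)), ∀ᵐ r ∂(volume.restrict (Ioo 0 T)), r < τ →
      ⟪tensL (u r), G τ⟫_ℝ ≤ ψ r + ψ τ + |r - τ| * (ψ r * ψ τ)) :
    ∀ s t, 0 ≤ s → s ≤ t → t ≤ T → energyDefect ν u G f s ≤ energyDefect ν u G f t := by
  obtain ⟨M, S⟩ := ns_sol hΩ hν hT h
  have eT := restrict_Ioc_eq T
  have hψ' : IntegrableOn ψ (Ioc 0 T) := by rw [IntegrableOn, eT]; exact hψ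
  intro s t hs hst htT
  rw [energyDefect_eq hΩ hν hT h ⟨hs, hst.trans htT⟩, energyDefect_eq hΩ hν hT h ⟨hs.trans hst, htT⟩]
  exact tri_back Pool.Agent.P8H16.TF.fat S hT hψ' hψ0 (by rw [eT]; exact hb) hs hst htT

theorem ns_forw (hΩ : IsOpen Ω) (hν : 0 ≤ ν) (hT : 0 < T) (h : IsWeakSolution Ω ν T u G f)
    (hψ0 : ∀ t, 0 ≤ ψ t) (hψ : IntegrableOn ψ (Ioo 0 T))
    (hb : ∀ᵐ τ ∂(volume.restrict (Ioo 0 T)), ∀ᵐ r ∂(volume.restrict (Ioo 0 T)), τ < r →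
      -(ψ r + ψ τ + |r - τ| * (ψ r * ψ τ)) ≤ ⟪tensL (u r), G τ⟫_ℝ) :
    (∀ s t, 0 ≤ s → s ≤ t → t ≤ T → energyDefect ν u G f t ≤ energyDefect ν u G f s) ∧
    (0 ≤ energyDefect ν u G f T → ∀ t ∈ Icc 0 T, energyDefect ν u G f t = 0) := by
  obtain ⟨M, S⟩ := ns_sol hΩ hν hT h
  have eT := restrict_Ioc_eq T
  have hψ' : IntegrableOn ψ (Ioc 0 T) := by rw [IntegrableOn, eT]; exact hψ
  have k : ∀ s t, 0 ≤ s → s ≤ t → t ≤ T → energyDefect ν u G f t ≤ energyDefect ν u G f s := by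
    intro s t hs hst htT
    rw [energyDefect_eq hΩ hν hT h ⟨hs, hst.trans htT⟩,
      energyDefect_eq hΩ hν hT h ⟨hs.trans hst, htT⟩]
    exact tri_forw Pool.Agent.P8H16.TF.fat S hT hψ' hψ0 (by rw [eT]; exact hb) hs hst htT
  refine ⟨k, fun h0 t ht => ?_⟩
  have h1 := k 0 t le_rfl ht.1 ht.2
  have h2 := k t T ht.1 ht.2 le_rfl
  have h3 : energyDefect ν u G f 0 = 0 := by
    rw [energyDefect_eq hΩ hν hT h ⟨le_rfl, hT.le⟩, Sol.defect_zero]
  linarith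

end crit

end Pool.Agent.P8H70.TF
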