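import Pool.Agent.P8H70.TF.Pub

/-!
Integrals of functions at two times with factors in mixed classes; the strain along the increments.
-/

set_option autoImplicit false
set_option linter.unusedSectionVars false

open MeasureTheory Set Filter Topology
open scoped InnerProductSpace ENNReal ContDiff NNReal

namespace Pool.Agent.P8H70.TF

open H772R2.NS Pool.Agent.TH301.EQ Pool.Agent.P8H70.EC

variable {Ω : Set E3}

/-- an integral from a one-sided pointwise bound by products in mixed classes -/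
theorem int_gen (F : E3 → ℝ) {ι : Type} [Fintype ι] {b : ι → Fin 3 → ℝ≥0∞}
    (hb : ∀ l, 1 / b l 0 + 1 / b l 1 + 1 / b l 2 ≤ 1)
    (hb' : volume Ω = ⊤ → ∀ l, 1 / b l 0 + 1 / b l 1 + 1 / b l 2 = 1) {W : ι → Fin 3 → E3 → ℝ}
    {B : ι → Fin 3 → ℝ}
    (hW : ∀ l m, AEStronglyMeasurable (W l m) (volume.restrict Ω))
    (hWB : ∀ l m, eLpNorm (W l m) (b l m) (volume.restrict Ω) ≤ ENNReal.ofReal (B l m))
    (h : ∀ᵐ x ∂(volume.restrict Ω), F x ≤ ∑ l, W l 0 x * W l 1 x * W l 2 x) :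
    ∫ x in Ω, F x ≤ (kap (volume.restrict Ω)).toReal * ∑ l, |B l 0| * |B l 1| * |B l 2| := by
  set μ : Measure E3 := volume.restrict Ω with hμ
  have s1 : ENNReal.ofReal (∫ x in Ω, F x) ≤ ∫⁻ x, (∑ l, ‖W l 0 x * W l 1 x * W l 2 x‖ₑ) ∂μ := by
    refine (ofReal_int_le _).trans (lintegral_mono_ae ?_)
    filter_upwards [h] with x hx
    have a1 : ENNReal.ofReal (F x) ≤ ENNReal.ofReal (∑ l, |W l 0 x * W l 1 x * W l 2 x|) := by
      refine ENNReal.ofReal_le_ofReal (hx.trans ?_)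
      exact Finset.sum_le_sum fun l _ => le_abs_self _
    refine a1.trans ?_
    rw [ENNReal.ofReal_sum_of_nonneg fun l _ => abs_nonneg _]
    refine Finset.sum_le_sum fun l _ => le_of_eq ?_
    rw [← ofReal_norm, Real.norm_eq_abs]
  have s2 : ∫⁻ x, (∑ l, ‖W l 0 x * W l 1 x * W l 2 x‖ₑ) ∂μ
      = ∑ l, ∫⁻ x, ‖W l 0 x * W l 1 x * W l 2 x‖ₑ ∂μ := by
    rw [lintegral_finsetSum']
    intro l _
    exact (((hW l 0).mul (hW l 1)).mul (hW l 2)).enorm
  have s4 : ∀ l, ∫⁻ x, ‖W l 0 x * W l 1 x * W l 2 x‖ₑ ∂μ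
      ≤ kap μ * (ENNReal.ofReal (B l 0) * ENNReal.ofReal (B l 1) * ENNReal.ofReal (B l 2)) :=
    fun l => (holder3' (hW l 0) (hW l 1) (hW l 2) (hb l) (fun ht => hb' (by
      rw [hμ, Measure.restrict_apply_univ] at ht
      exact ht) l)).trans
      (mul_le_mul_right (mul_le_mul' (mul_le_mul' (hWB l 0) (hWB l 1)) (hWB l 2)) _)
  have s6 : ENNReal.ofReal (∫ x in Ω, F x)
      ≤ kap μ * ∑ l, ENNReal.ofReal (B l 0) * ENNReal.ofReal (B l 1) * ENNReal.ofReal (B l 2) := by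
    rw [s2] at s1
    rw [Finset.mul_sum]
    exact s1.trans (Finset.sum_le_sum fun l _ => s4 l)
  have t2 : ∀ l ∈ (Finset.univ : Finset ι),
      ENNReal.ofReal (B l 0) * ENNReal.ofReal (B l 1) * ENNReal.ofReal (B l 2) ≠ ⊤ := fun l _ =>
    (ENNReal.mul_lt_top (ENNReal.mul_lt_top ENNReal.ofReal_lt_top ENNReal.ofReal_lt_top)
      ENNReal.ofReal_lt_top).ne
  have t3 : ∑ l, ENNReal.ofReal (B l 0) * ENNReal.ofReal (B l 1) * ENNReal.ofReal (B l 2) < ⊤ :=
    ENNReal.sum_lt_top.2 fun l hl => lt_top_iff_ne_top.2 (t2 l hl)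
  have t4 : kap μ * ∑ l, ENNReal.ofReal (B l 0) * ENNReal.ofReal (B l 1) * ENNReal.ofReal (B l 2)
      < ⊤ := ENNReal.mul_lt_top (lt_top_iff_ne_top.2 (kap_ne_top μ)) t3
  have s7 := ENNReal.toReal_mono t4.ne s6
  rw [ENNReal.toReal_mul (a := kap μ), ENNReal.toReal_sum t2] at s7
  simp only [ENNReal.toReal_mul, ENNReal.toReal_ofReal'] at s7
  refine (le_max_left _ 0).trans (s7.trans ?_)
  refine mul_le_mul_of_nonneg_left (Finset.sum_le_sum fun l _ => ?_) ENNReal.toReal_nonneg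
  have u : ∀ y : ℝ, max y 0 ≤ |y| := fun y => max_le (le_abs_self _) (abs_nonneg _)
  have w : ∀ y : ℝ, 0 ≤ max y 0 := fun y => le_max_right _ _
  exact mul_le_mul (mul_le_mul (u _) (u _) (w _) (abs_nonneg _)) (u _) (w _)
    (mul_nonneg (abs_nonneg _) (abs_nonneg _))

variable {T : ℝ}

/-- **Products of functions at two times in mixed classes.** -/
theorem pair_gen {ι : Type} [Fintype ι] {a b : ι → Fin 3 → ℝ≥0∞}
    (ha : ∀ l, 1 / a l 0 + 1 / a l 1 + 1 / a l 2 ≤ 1)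
    (hb : ∀ l, 1 / b l 0 + 1 / b l 1 + 1 / b l 2 ≤ 1)
    (hb' : volume Ω = ⊤ → ∀ l, 1 / b l 0 + 1 / b l 1 + 1 / b l 2 = 1)
    {V : ι → Fin 3 → ℝ → E3 → ℝ} {B : ι → Fin 3 → ℝ → ℝ} (κ : ι → Fin 3 → Bool)
    (hB : ∀ l m, MemLp (B l m) (a l m) (volume.restrict (Ioo 0 T)))
    (hV : ∀ l m, ∀ᵐ t ∂(volume.restrict (Ioo 0 T)),
      AEStronglyMeasurable (V l m t) (volume.restrict Ω) ∧
      eLpNorm (V l m t) (b l m) (volume.restrict Ω) ≤ ENNReal.ofReal (B l m t)) :
    ∃ ψ : ℝ → ℝ, (∀ t, 0 ≤ ψ t) ∧ IntegrableOn ψ (Ioo 0 T) ∧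
      ∀ᵐ t ∂(volume.restrict (Ioo 0 T)), ∀ᵐ s ∂(volume.restrict (Ioo 0 T)), ∀ F : E3 → ℝ,
        (∀ᵐ x ∂(volume.restrict Ω), F x ≤ ∑ l, V l 0 (if κ l 0 then s else t) x
            * V l 1 (if κ l 1 then s else t) x * V l 2 (if κ l 2 then s else t) x) →
        ∫ x in Ω, F x ≤ ψ s + ψ t := by
  have hane : ∀ l m, a l m ≠ 0 := by
    intro l m
    obtain ⟨h0, h1, h2, -⟩ := time_exp (ha l)
    fin_cases m
    · exact h0
    · exact h1
    · exact h2
  have hmaj : ∀ l m, ∃ C : ℝ, 0 ≤ C ∧ ∃ A : ℝ → ℝ, (∀ t, 0 ≤ A t) ∧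
      Integrable A (volume.restrict (Ioo 0 T)) ∧
      ∀ᵐ t ∂(volume.restrict (Ioo 0 T)), |B l m t| ≤ C * A t ^ (1 / a l m).toReal :=
    fun l m => exists_major (hane l m) (hB l m)
  choose C hC0 A hA0 hAi hAB using hmaj
  set S : ℝ → ℝ := fun t => ∑ l, ∑ m, A l m t with hS
  have hS0 : ∀ t, 0 ≤ S t := fun t =>
    Finset.sum_nonneg fun l _ => Finset.sum_nonneg fun m _ => hA0 l m t
  have hSi : Integrable S (volume.restrict (Ioo 0 T)) :=
    integrable_finsetSum _ fun l _ => integrable_finsetSum _ fun m _ => hAi l m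
  have hAS : ∀ l m t, A l m t ≤ S t := fun l m t => by
    refine le_trans ?_ (Finset.single_le_sum (f := fun l => ∑ m, A l m t)
      (fun l _ => Finset.sum_nonneg fun m _ => hA0 l m t) (Finset.mem_univ l))
    exact Finset.single_le_sum (f := fun m => A l m t) (fun m _ => hA0 l m t) (Finset.mem_univ m)
  set D : ℝ → ℝ := fun t => 1 + S t with hD
  have hD1 : ∀ t, 1 ≤ D t := fun t => by
    have h1 := hS0 t
    simp only [hD]
    linarith
  have hD0 : ∀ t, 0 ≤ D t := fun t => zero_le_one.trans (hD1 t)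
  have hDi : Integrable D (volume.restrict (Ioo 0 T)) := (integrable_const (1 : ℝ)).add hSi
  set q : ℝ := (kap ((volume : Measure E3).restrict Ω)).toReal with hq
  have hq0 : 0 ≤ q := ENNReal.toReal_nonneg
  set Q : ℝ := q * ∑ l, C l 0 * C l 1 * C l 2 with hQ
  have hQ0 : 0 ≤ Q := mul_nonneg hq0 (Finset.sum_nonneg fun l _ =>
    mul_nonneg (mul_nonneg (hC0 l 0) (hC0 l 1)) (hC0 l 2))
  have hVa : ∀ᵐ t ∂(volume.restrict (Ioo 0 T)), ∀ l m,
      AEStronglyMeasurable (V l m t) (volume.restrict Ω) ∧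
      eLpNorm (V l m t) (b l m) (volume.restrict Ω) ≤ ENNReal.ofReal (B l m t) :=
    ae_all_iff.2 fun l => ae_all_iff.2 fun m => hV l m
  have hABa : ∀ᵐ t ∂(volume.restrict (Ioo 0 T)), ∀ l m,
      |B l m t| ≤ C l m * A l m t ^ (1 / a l m).toReal :=
    ae_all_iff.2 fun l => ae_all_iff.2 fun m => hAB l m
  refine ⟨fun t => Q * D t, fun t => mul_nonneg hQ0 (hD0 t), hDi.const_mul Q, ?_⟩
  filter_upwards [hVa, hABa] with t hvt hAt
  filter_upwards [hVa, hABa] with s hvs hAs F hF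
  have hv : ∀ l m, AEStronglyMeasurable (V l m (if κ l m then s else t)) (volume.restrict Ω) ∧
      eLpNorm (V l m (if κ l m then s else t)) (b l m) (volume.restrict Ω)
        ≤ ENNReal.ofReal (B l m (if κ l m then s else t)) := by
    intro l m
    by_cases hk : κ l m = true
    · simp only [hk, if_true]; exact hvs l m
    · simp only [hk]; exact hvt l m
  set Z : ℝ := max (D s) (D t) with hZ
  have hZ1 : 1 ≤ Z := (hD1 s).trans (le_max_left _ _)
  have hZ0 : 0 ≤ Z := zero_le_one.trans hZ1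
  have hB' : ∀ l m, |B l m (if κ l m then s else t)| ≤ C l m * Z ^ (1 / a l m).toReal := by
    intro l m
    have aux : ∀ r, D r ≤ Z → |B l m r| ≤ C l m * A l m r ^ (1 / a l m).toReal →
        |B l m r| ≤ C l m * Z ^ (1 / a l m).toReal := by
      intro r hr h1
      refine h1.trans (mul_le_mul_of_nonneg_left ?_ (hC0 l m))
      refine Real.rpow_le_rpow (hA0 l m r) ?_ ENNReal.toReal_nonneg
      have h3 := hAS l m r
      refine le_trans ?_ hr
      simp only [hD]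
      linarith
    by_cases hk : κ l m = true
    · simp only [hk, if_true]; exact aux s (le_max_left _ _) (hAs l m)
    · simp only [hk]; exact aux t (le_max_right _ _) (hAt l m)
  have k3 := int_gen (Ω := Ω) F hb hb' (W := fun l m => V l m (if κ l m then s else t))
    (B := fun l m => B l m (if κ l m then s else t)) (fun l m => (hv l m).1)
    (fun l m => (hv l m).2) hF
  refine k3.trans ?_
  have k4 : (kap ((volume : Measure E3).restrict Ω)).toReal
      * ∑ l, |B l 0 (if κ l 0 then s else t)| * |B l 1 (if κ l 1 then s else t)|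
        * |B l 2 (if κ l 2 then s else t)| ≤ Q * Z := by
    rw [hQ, mul_assoc, Finset.sum_mul]
    refine mul_le_mul_of_nonneg_left (Finset.sum_le_sum fun l _ => ?_) hq0
    obtain ⟨-, -, -, hsum⟩ := time_exp (ha l)
    have c0 := hC0 l 0
    have c1 := hC0 l 1
    have c2 := hC0 l 2
    have x0 : 0 ≤ Z ^ (1 / a l 0).toReal := Real.rpow_nonneg hZ0 _
    have x1 : 0 ≤ Z ^ (1 / a l 1).toReal := Real.rpow_nonneg hZ0 _
    have x2 : 0 ≤ Z ^ (1 / a l 2).toReal := Real.rpow_nonneg hZ0 _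
    have y1 : Z ^ (1 / a l 0).toReal * Z ^ (1 / a l 1).toReal * Z ^ (1 / a l 2).toReal ≤ Z := by
      rw [← Real.rpow_add (by linarith), ← Real.rpow_add (by linarith)]
      calc Z ^ ((1 / a l 0).toReal + (1 / a l 1).toReal + (1 / a l 2).toReal) ≤ Z ^ (1 : ℝ) :=
            Real.rpow_le_rpow_of_exponent_le hZ1 hsum
        _ = Z := Real.rpow_one Z
    calc |B l 0 (if κ l 0 then s else t)| * |B l 1 (if κ l 1 then s else t)|
          * |B l 2 (if κ l 2 then s else t)|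
        ≤ (C l 0 * Z ^ (1 / a l 0).toReal) * (C l 1 * Z ^ (1 / a l 1).toReal)
          * (C l 2 * Z ^ (1 / a l 2).toReal) := by
          refine mul_le_mul (mul_le_mul (hB' l 0) (hB' l 1) (abs_nonneg _) (by positivity))
            (hB' l 2) (abs_nonneg _) (by positivity)
      _ = C l 0 * C l 1 * C l 2 * (Z ^ (1 / a l 0).toReal * Z ^ (1 / a l 1).toReal
          * Z ^ (1 / a l 2).toReal) := by ring
      _ ≤ _ := mul_le_mul_of_nonneg_left y1 (by positivity)
  refine k4.trans ?_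
  have k5 : Z ≤ D s + D t := max_le (by linarith [hD0 t]) (by linarith [hD0 s])
  calc Q * Z ≤ Q * (D s + D t) := mul_le_mul_of_nonneg_left k5 hQ0
    _ = Q * D s + Q * D t := by ring

end Pool.Agent.P8H70.TF
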