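import Pool.Agent.P8H70.TF.Law

/-!
One-sided criteria in terms of the increments, for abstract weak solutions.
-/

set_option autoImplicit false
set_option linter.unusedSectionVars false

open MeasureTheory Set Filter Topology
open scoped InnerProductSpace ENNReal NNReal

namespace Pool.Agent.P8H70.TF

open H772R2.NS

variable {H : Type} [NormedAddCommGroup H] [InnerProductSpace ℝ H] [CompleteSpace H]
variable {K : Type} [NormedAddCommGroup K] [InnerProductSpace ℝ K] [CompleteSpace K]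
variable {W : Submodule ℝ (H × K)} {T M ν : ℝ} {u : ℝ → H} {G m : ℝ → K} {f : ℝ → H}

/-- the symmetric averages converge almost everywhere -/
theorem ae_avg {E : Type} [NormedAddCommGroup E] [NormedSpace ℝ E] [CompleteSpace E] {A : ℝ → E}
    (hA : Integrable A) {δ : ℝ} (hδ : 0 < δ) :
    ∀ᵐ τ, Tendsto (fun n => (1 / st δ n) • ∫ r in (τ - st δ n)..(τ + st δ n), A r) atTop
      (𝓝 ((2 : ℝ) • A τ)) := by
  have hi : ∀ a b, IntervalIntegrable A volume a b := fun a b => hA.intervalIntegrable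
  filter_upwards [LocallyIntegrable.ae_hasDerivAt_integral hA.locallyIntegrable] with τ hτ
  have h := hasDerivAt_iff_tendsto_slope.mp (hτ 0)
  have l1 := h.comp (sub_st_lim hδ τ)
  have hp : Tendsto (fun n => τ + st δ n) atTop (𝓝[≠] τ) := by
    refine tendsto_nhdsWithin_iff.2 ⟨?_, Eventually.of_forall fun n => ?_⟩
    · have := (st_lim δ).const_add τ
      rwa [add_zero] at this
    · have := st_pos hδ n
      simp only [mem_compl_iff, mem_singleton_iff]
      intro h
      linarith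
  have l2 := h.comp hp
  have l3 := l1.add l2
  rw [← two_smul ℝ (A τ)] at l3
  refine l3.congr fun n => ?_
  have h0 := (st_pos hδ n).ne'
  simp only [Function.comp, slope, vsub_eq_sub]
  rw [show τ - st δ n - τ = -(st δ n) by ring, show τ + st δ n - τ = st δ n by ring,
    ← intervalIntegral.integral_interval_sub_left (hi 0 (τ + st δ n)) (hi 0 (τ - st δ n)),
    inv_neg, neg_smul, ← smul_neg, neg_sub, ← smul_add, one_div]
  congr 1
  abel

theorem st_lim' {δ : ℝ} (hδ : 0 < δ) : Tendsto (st δ) atTop (𝓝[>] 0) :=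
  tendsto_nhdsWithin_iff.2 ⟨st_lim δ, Eventually.of_forall fun n => st_pos hδ n⟩

/-- the increments of primitives are small -/
theorem small_int {ψ : ℝ → ℝ} (hψ : Integrable ψ) {δ : ℝ} (τ : ℝ) :
    Tendsto (fun n => ∫ r in (τ - st δ n)..(τ + st δ n), ψ r) atTop (𝓝 0) := by
  have hi : ∀ a b, IntervalIntegrable ψ volume a b := fun a b => hψ.intervalIntegrable
  have c1 : Continuous (fun y => ∫ r in (0 : ℝ)..y, ψ r) :=
    intervalIntegral.continuous_primitive (fun a b => hi a b) 0
  have l1 : Tendsto (fun n => τ + st δ n) atTop (𝓝 τ) := by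
    have := (st_lim δ).const_add τ
    rwa [add_zero] at this
  have l2 : Tendsto (fun n => τ - st δ n) atTop (𝓝 τ) := by
    have := (st_lim δ).const_sub τ
    rwa [sub_zero] at this
  have l3 := ((c1.tendsto τ).comp l1).sub ((c1.tendsto τ).comp l2)
  rw [sub_self] at l3
  refine l3.congr fun n => ?_
  simp only [Function.comp]
  rw [intervalIntegral.integral_interval_sub_left (hi _ _) (hi _ _)]

theorem int4 {a b c d : ℝ → ℝ} (ha : Integrable a) (hb : Integrable b) (hc : Integrable c)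
    (hd : Integrable d) : ∫ x, (a x + b x + c x + d x)
      = (∫ x, a x) + (∫ x, b x) + (∫ x, c x) + ∫ x, d x := by
  have h1 : Integrable (fun x => a x + b x) := ha.add hb
  have h2 : Integrable (fun x => a x + b x + c x) := h1.add hc
  rw [integral_add h2 hd, integral_add h1 hc, integral_add ha hb]

/-- **One-sided bound of the increments**, tested. -/
theorem inc_test (S : Sol W T M ν u G m f) (T0 : 0 < T) {ψ : ℝ → ℝ} {σ : ℝ}
    (hψ : IntegrableOn ψ (Ioc 0 T)) (hψ0 : ∀ t, 0 ≤ ψ t)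
    (hb : ∀ᵐ τ ∂(volume.restrict (Ioc 0 T)), ∀ᵐ r ∂(volume.restrict (Ioc 0 T)),
      -(ψ r + ψ τ + |r - τ| * (ψ r * ψ τ)) ≤ σ * (⟪m r, G τ⟫_ℝ + ⟪m τ, G r⟫_ℝ))
    {θ : ℝ → ℝ} {C : ℝ≥0} (hθ : LipschitzWith C θ) (hs : tsupport θ ⊆ Ioo 0 T)
    (hθ0 : ∀ x, 0 ≤ θ x) :
    0 ≤ σ * ∫ τ in (0 : ℝ)..T, deriv θ τ * defect ν u G f τ := by
  have hc := compact_of hs
  have hθc := hθ.continuous
  have hms : MeasurableSet (Ioo (0 : ℝ) T) := measurableSet_Ioo
  have eT := restrict_Ioc_eq T
  set mI := (Ioo 0 T).indicator m with hmI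
  set GI := (Ioo 0 T).indicator G with hGI
  set ψI := (Ioo 0 T).indicator ψ with hψI
  have mint : Integrable mI := by
    rw [hmI, integrable_indicator_iff hms, IntegrableOn, ← eT]; exact S.mint
  have Gint : Integrable GI := by
    rw [hGI, integrable_indicator_iff hms, IntegrableOn, ← eT]; exact S.Gint
  have ψint : Integrable ψI := by
    rw [hψI, integrable_indicator_iff hms, IntegrableOn, ← eT]; exact hψ
  have ψI0 : ∀ t, 0 ≤ ψI t := fun t => indicator_nonneg (fun x _ => hψ0 x) t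
  obtain ⟨δ, hδ, hd⟩ := exists_dist hs
  have hδ2 : 0 < δ / 2 := by positivity
  -- the symmetrised form
  set c : ℝ → ℝ → ℝ := fun r τ => ⟪mI r, GI τ⟫_ℝ + ⟪mI τ, GI r⟫_ℝ with hcdef
  have ci : ∀ τ a b, IntervalIntegrable (fun r => c r τ) volume a b := fun τ a b =>
    ((mint.inner_const (GI τ)).add (Gint.const_inner (mI τ))).intervalIntegrable
  have ψi : ∀ a b, IntervalIntegrable ψI volume a b := fun a b => ψint.intervalIntegrable
  -- the law
  have law' : Tendsto (fun n => (1 / st (δ / 2) n) * ∫ τ, θ τ * ∫ r in (τ - st (δ / 2) n)..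
      (τ + st (δ / 2) n), c r τ) atTop
      (𝓝 (4 * ∫ τ in (0 : ℝ)..T, deriv θ τ * defect ν u G f τ)) := by
    have l1 := (law S T0 hθ hs).comp (st_lim' hδ2)
    refine l1.congr' ?_
    filter_upwards [(st_lim' hδ2).eventually (glob T0 hs
      (Φ := fun r τ => ⟪m r, G τ⟫_ℝ + ⟪m τ, G r⟫_ℝ)
      (Φ' := c) (fun r hr τ hτ => by
        simp only [hcdef, hmI, hGI, indicator_of_mem hr, indicator_of_mem hτ]))] with n hn
    simp only [Function.comp]
    rw [hn]
  have avg' : Tendsto (fun n => (1 / st (δ / 2) n) * ∫ τ, θ τ * ∫ r in (τ - st (δ / 2) n)..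
      (τ + st (δ / 2) n), ψI r) atTop (𝓝 (2 * ∫ τ, θ τ * ψI τ)) := by
    have l1 := ((Pool.Agent.P8H16.TF.avg ℝ θ hθc hc).2 ψI (fun _ => (1 : ℝ)) 1 ψint
      aestronglyMeasurable_const (fun _ => by simp)).comp (st_lim' hδ2)
    have e : ∀ x : ℝ, ⟪x, (1 : ℝ)⟫_ℝ = x := fun x => by simp
    simp only [e] at l1
    exact l1
  -- integrability
  have I1 : ∀ h, Integrable (fun τ => θ τ * ∫ r in (τ - h)..(τ + h), c r τ) := by
    intro h
    have i1 := int_pair mint (mul_int hθc hc Gint.norm) Gint.aestronglyMeasurable hθc rfl h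
    have i2 := int_pair Gint (mul_int hθc hc mint.norm) mint.aestronglyMeasurable hθc rfl h
    refine (i1.add i2).congr (Eventually.of_forall fun τ => ?_)
    have j1 : IntervalIntegrable (fun r => ⟪mI r, GI τ⟫_ℝ) volume (τ - h) (τ + h) :=
      (mint.inner_const (GI τ)).intervalIntegrable
    have j2 : IntervalIntegrable (fun r => ⟪mI τ, GI r⟫_ℝ) volume (τ - h) (τ + h) :=
      (Gint.const_inner (mI τ)).intervalIntegrable
    have e3 : ∫ r in (τ - h)..(τ + h), ⟪GI r, mI τ⟫_ℝ
        = ∫ r in (τ - h)..(τ + h), ⟪mI τ, GI r⟫_ℝ := by simp_rw [real_inner_comm]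
    simp only [Pi.add_apply, hcdef]
    rw [intervalIntegral.integral_add j1 j2, mul_add, e3]
  have contΨ : ∀ h, Continuous (fun τ => ∫ r in (τ - h)..(τ + h), ψI r) := by
    intro h
    have c1 : Continuous (fun y => ∫ r in (0 : ℝ)..y, ψI r) :=
      intervalIntegral.continuous_primitive (fun a b => ψi a b) 0
    have e : (fun τ => ∫ r in (τ - h)..(τ + h), ψI r)
        = fun τ => (∫ r in (0 : ℝ)..(τ + h), ψI r) - ∫ r in (0 : ℝ)..(τ - h), ψI r := by
      funext τ
      rw [intervalIntegral.integral_interval_sub_left (ψi _ _) (ψi _ _)]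
    rw [e]
    exact (c1.comp (by fun_prop)).sub (c1.comp (by fun_prop))
  have bΨ : ∀ h τ, ‖∫ r in (τ - h)..(τ + h), ψI r‖ ≤ ∫ r, ‖ψI r‖ := fun h τ =>
    (intervalIntegral.norm_integral_le_integral_norm_uIoc).trans
      (setIntegral_le_integral ψint.norm (Eventually.of_forall fun _ => norm_nonneg _))
  have I2 : ∀ h, Integrable (fun τ => θ τ * ∫ r in (τ - h)..(τ + h), ψI r) := by
    intro h
    have hθi : Integrable θ := hθc.integrable_of_hasCompactSupport hc
    exact hθi.mul_bdd (contΨ h).aestronglyMeasurable (Eventually.of_forall (bΨ h))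
  have I3 : Integrable (fun τ => θ τ * ψI τ) := mul_int hθc hc ψint
  have I4 : ∀ h, Integrable (fun τ => (θ τ * ψI τ) * ∫ r in (τ - h)..(τ + h), ψI r) := fun h =>
    I3.mul_bdd (contΨ h).aestronglyMeasurable (Eventually.of_forall (bΨ h))
  have small : Tendsto (fun n => ∫ τ, (θ τ * ψI τ) * ∫ r in (τ - st (δ / 2) n)..
      (τ + st (δ / 2) n), ψI r) atTop (𝓝 0) := by
    have := tendsto_integral_of_dominated_convergence (μ := volume)
      (F := fun n τ => (θ τ * ψI τ) * ∫ r in (τ - st (δ / 2) n)..(τ + st (δ / 2) n), ψI r)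
      (f := fun τ => (θ τ * ψI τ) * 0) (fun τ => ‖θ τ * ψI τ‖ * ∫ r, ‖ψI r‖)
      (fun n => (I4 _).aestronglyMeasurable) (I3.norm.mul_const _)
      (fun n => Eventually.of_forall fun τ => by
        rw [norm_mul]
        exact mul_le_mul_of_nonneg_left (bΨ _ τ) (norm_nonneg _))
      (Eventually.of_forall fun τ => (small_int ψint τ).const_mul _)
    simpa using this
  -- Fatou
  set F : ℕ → ℝ → ℝ := fun n τ => σ * ((1 / st (δ / 2) n) * (θ τ * ∫ r in (τ - st (δ / 2) n)..
      (τ + st (δ / 2) n), c r τ)) + (1 / st (δ / 2) n) * (θ τ * ∫ r in (τ - st (δ / 2) n)..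
      (τ + st (δ / 2) n), ψI r) + 2 * (θ τ * ψI τ)
      + (θ τ * ψI τ) * ∫ r in (τ - st (δ / 2) n)..(τ + st (δ / 2) n), ψI r with hF
  have hFi : ∀ n, Integrable (F n) := fun n =>
    (((((I1 _).const_mul _).const_mul σ).add ((I2 _).const_mul _)).add (I3.const_mul 2)).add (I4 _)
  have hFint : ∀ n, ∫ τ, F n τ = σ * ((1 / st (δ / 2) n) * ∫ τ, θ τ * ∫ r in (τ - st (δ / 2) n)..
      (τ + st (δ / 2) n), c r τ) + (1 / st (δ / 2) n) * (∫ τ, θ τ * ∫ r in (τ - st (δ / 2) n)..
      (τ + st (δ / 2) n), ψI r) + 2 * (∫ τ, θ τ * ψI τ)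
      + ∫ τ, (θ τ * ψI τ) * ∫ r in (τ - st (δ / 2) n)..(τ + st (δ / 2) n), ψI r := by
    intro n
    have k1 := ((I1 (st (δ / 2) n)).const_mul (1 / st (δ / 2) n)).const_mul σ
    have k2 := (I2 (st (δ / 2) n)).const_mul (1 / st (δ / 2) n)
    have k3 := I3.const_mul 2
    have k4 := int4 k1 k2 k3 (I4 (st (δ / 2) n))
    simp only [hF]
    rw [k4, integral_const_mul, integral_const_mul, integral_const_mul, integral_const_mul]
  have key := Pool.Agent.P8H16.TF.fat ℝ volume F (fun τ => 4 * (θ τ * ψI τ))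
    (fun n => ∫ τ, F n τ)
    (σ * (4 * ∫ τ in (0 : ℝ)..T, deriv θ τ * defect ν u G f τ) + 2 * (∫ τ, θ τ * ψI τ)
      + 2 * (∫ τ, θ τ * ψI τ) + 0) hFi ?_ (I3.const_mul 4) ?_
      (Eventually.of_forall fun n => le_rfl) ?_
  · rw [integral_const_mul] at key
    linarith
  · intro n
    have hb' := hb
    rw [eT, ae_restrict_iff' hms] at hb'
    filter_upwards [hb'] with τ hτ
    by_cases h1 : θ τ = 0
    · simp only [hF, h1]
      simp
    have hτI := hd τ h1 τ (by simpa using hδ)
    have h0 := st_pos hδ2 n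
    have h2 := st_le hδ2 n
    have hr1 := hτ hτI
    rw [ae_restrict_iff' hms] at hr1
    have lower : -(∫ r in (τ - st (δ / 2) n)..(τ + st (δ / 2) n),
        (ψI r + ψI τ + st (δ / 2) n * ψI τ * ψI r))
        ≤ σ * ∫ r in (τ - st (δ / 2) n)..(τ + st (δ / 2) n), c r τ := by
      rw [← intervalIntegral.integral_neg, ← intervalIntegral.integral_const_mul]
      refine intervalIntegral.integral_mono_ae_restrict (by linarith)
        ((((ψi _ _).add intervalIntegrable_const).add ((ψi _ _).const_mul _)).neg)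
        ((ci τ _ _).const_mul σ) ?_
      rw [← restrict_Ioc_eq_restrict_Icc, Filter.EventuallyLE, ae_restrict_iff' measurableSet_Ioc]
      filter_upwards [hr1] with r hr hrI
      have hrI' := hd τ h1 r (by rw [abs_lt]; constructor <;> linarith [hrI.1, hrI.2])
      have h3 := hr hrI'
      have h4 : |r - τ| ≤ st (δ / 2) n := by
        rw [abs_le]; constructor <;> linarith [hrI.1, hrI.2]
      have h5 : |r - τ| * (ψ r * ψ τ) ≤ st (δ / 2) n * (ψ r * ψ τ) :=
        mul_le_mul_of_nonneg_right h4 (mul_nonneg (hψ0 r) (hψ0 τ))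
      simp only [hcdef, hmI, hGI, hψI, indicator_of_mem hrI', indicator_of_mem hτI]
      linarith
    have e1 : ∫ r in (τ - st (δ / 2) n)..(τ + st (δ / 2) n),
        (ψI r + ψI τ + st (δ / 2) n * ψI τ * ψI r)
        = (∫ r in (τ - st (δ / 2) n)..(τ + st (δ / 2) n), ψI r) + 2 * st (δ / 2) n * ψI τ
          + st (δ / 2) n * ψI τ * ∫ r in (τ - st (δ / 2) n)..(τ + st (δ / 2) n), ψI r := by
      rw [intervalIntegral.integral_add ((ψi _ _).add intervalIntegrable_const)
        ((ψi _ _).const_mul _), intervalIntegral.integral_add (ψi _ _) intervalIntegrable_const,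
        intervalIntegral.integral_const, intervalIntegral.integral_const_mul, smul_eq_mul]
      ring
    rw [e1] at lower
    have h6 := mul_le_mul_of_nonneg_left lower (mul_nonneg (one_div_pos.2 h0).le (hθ0 τ))
    simp only [hF]
    have e2 : (1 / st (δ / 2) n) * (2 * st (δ / 2) n * ψI τ) = 2 * ψI τ := by
      field_simp
    have e3 : ∀ Y : ℝ, (1 / st (δ / 2) n) * (st (δ / 2) n * ψI τ * Y) = ψI τ * Y := by
      intro Y
      field_simp
    have e4 : 1 / st (δ / 2) n * θ τ
        * -((∫ r in (τ - st (δ / 2) n)..(τ + st (δ / 2) n), ψI r) + 2 * st (δ / 2) n * ψI τ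
          + st (δ / 2) n * ψI τ * ∫ r in (τ - st (δ / 2) n)..(τ + st (δ / 2) n), ψI r)
        = -(1 / st (δ / 2) n * (θ τ * ∫ r in (τ - st (δ / 2) n)..(τ + st (δ / 2) n), ψI r)
          + θ τ * ((1 / st (δ / 2) n) * (2 * st (δ / 2) n * ψI τ))
          + θ τ * ((1 / st (δ / 2) n) * (st (δ / 2) n * ψI τ
            * ∫ r in (τ - st (δ / 2) n)..(τ + st (δ / 2) n), ψI r))) := by ring
    rw [e4, e2, e3] at h6
    linarith
  · have ho := S.ortho
    rw [eT, ae_restrict_iff' hms] at ho
    filter_upwards [ae_avg mint hδ2, ae_avg Gint hδ2, ae_avg ψint hδ2, ho] with τ h1 h2 h3 h4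
    have z : ⟪mI τ, GI τ⟫_ℝ = 0 := by
      by_cases hτ : τ ∈ Ioo 0 T
      · simp only [hmI, hGI, indicator_of_mem hτ]; exact h4 hτ
      · simp only [hmI, indicator_of_notMem hτ, inner_zero_left]
    have l1 : Tendsto (fun n => (1 / st (δ / 2) n) * ∫ r in (τ - st (δ / 2) n)..
        (τ + st (δ / 2) n), c r τ) atTop (𝓝 0) := by
      have k1 := (Filter.Tendsto.inner (𝕜 := ℝ) h1 (tendsto_const_nhds (x := GI τ))).add
        (Filter.Tendsto.inner (𝕜 := ℝ) (tendsto_const_nhds (x := mI τ)) h2)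
      rw [real_inner_smul_left, real_inner_smul_right, z, mul_zero, add_zero] at k1
      refine k1.congr fun n => ?_
      have j1 : IntervalIntegrable (fun r => ⟪mI r, GI τ⟫_ℝ) volume (τ - st (δ / 2) n)
          (τ + st (δ / 2) n) := (mint.inner_const (GI τ)).intervalIntegrable
      have j2 : IntervalIntegrable (fun r => ⟪mI τ, GI r⟫_ℝ) volume (τ - st (δ / 2) n)
          (τ + st (δ / 2) n) := (Gint.const_inner (mI τ)).intervalIntegrable
      have a1 : ∫ r in (τ - st (δ / 2) n)..(τ + st (δ / 2) n), ⟪mI r, GI τ⟫_ℝ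
          = ⟪∫ r in (τ - st (δ / 2) n)..(τ + st (δ / 2) n), mI r, GI τ⟫_ℝ := by
        have := (innerSL ℝ (GI τ)).intervalIntegral_comp_comm
          (mint.intervalIntegrable (a := τ - st (δ / 2) n) (b := τ + st (δ / 2) n))
        simp only [innerSL_apply_apply] at this
        rw [real_inner_comm, ← this]
        simp_rw [real_inner_comm]
      have a2 : ∫ r in (τ - st (δ / 2) n)..(τ + st (δ / 2) n), ⟪mI τ, GI r⟫_ℝ
          = ⟪mI τ, ∫ r in (τ - st (δ / 2) n)..(τ + st (δ / 2) n), GI r⟫_ℝ := by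
        have := (innerSL ℝ (mI τ)).intervalIntegral_comp_comm
          (Gint.intervalIntegrable (a := τ - st (δ / 2) n) (b := τ + st (δ / 2) n))
        simp only [innerSL_apply_apply] at this
        exact this
      simp only [hcdef]
      rw [intervalIntegral.integral_add j1 j2, a1, a2, real_inner_smul_left,
        real_inner_smul_right]
      ring
    have l2 := (l1.const_mul (θ τ)).const_mul σ
    have l3 := h3.const_mul (θ τ)
    have l4 := (small_int (δ := δ / 2) ψint τ).const_mul (θ τ * ψI τ)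
    have l5 := ((l2.add l3).add_const (2 * (θ τ * ψI τ))).add l4
    simp only [smul_eq_mul] at l5
    have e : σ * (θ τ * 0) + θ τ * (2 * ψI τ) + 2 * (θ τ * ψI τ) + θ τ * ψI τ * 0
        = 4 * (θ τ * ψI τ) := by ring
    rw [e] at l5
    refine l5.congr fun n => ?_
    simp only [hF]
    ring
  · have l1 := (((law'.const_mul σ).add avg').add_const (2 * ∫ τ, θ τ * ψI τ)).add small
    refine l1.congr fun n => ?_
    rw [hFint]

end Pool.Agent.P8H70.TF
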