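import Pool.Agent.P8H70.TF.Two
import Pool.Agent.P8H16.TF.Fat
import Pool.Agent.P8H16.TF.Shift
import Pool.Agent.P8H16.TF.Swap
import Pool.Agent.P8H16.TF.Avg

/-!
The exact law for the energy defect, for abstract weak solutions.
-/

set_option autoImplicit false
set_option linter.unusedSectionVars false

open MeasureTheory Set Filter Topology
open scoped InnerProductSpace ENNReal NNReal

namespace Pool.Agent.P8H70.TF

open H772R2.NS

variable {H : Type} [NormedAddCommGroup H] [InnerProductSpace ℝ H] [CompleteSpace H]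
variable {K : Type} [NormedAddCommGroup K] [InnerProductSpace ℝ K] [CompleteSpace K]

theorem compact_of {T : ℝ} {θ : ℝ → ℝ} (hs : tsupport θ ⊆ Ioo 0 T) : HasCompactSupport θ :=
  isCompact_Icc.of_isClosed_subset (isClosed_tsupport θ) (hs.trans Ioo_subset_Icc_self)

/-- the support keeps a distance from the boundary -/
theorem exists_dist {T : ℝ} {θ : ℝ → ℝ} (hs : tsupport θ ⊆ Ioo 0 T) :
    ∃ δ > 0, ∀ τ, θ τ ≠ 0 → ∀ r, |r - τ| < δ → r ∈ Ioo 0 T := by
  obtain ⟨δ, hδ, h⟩ := (compact_of hs).isCompact.exists_thickening_subset_open isOpen_Ioo hs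
  refine ⟨δ, hδ, fun τ hτ r hr => h ?_⟩
  rw [Metric.mem_thickening_iff]
  exact ⟨τ, subset_tsupport _ hτ, by rwa [Real.dist_eq]⟩

/-- local and global integrals -/
theorem glob {T : ℝ} {θ : ℝ → ℝ} (T0 : 0 < T) (hs : tsupport θ ⊆ Ioo 0 T) {Φ Φ' : ℝ → ℝ → ℝ}
    (hΦ : ∀ r ∈ Ioo 0 T, ∀ τ ∈ Ioo 0 T, Φ r τ = Φ' r τ) :
    ∀ᶠ h : ℝ in 𝓝[>] 0, ∫ τ in (0 : ℝ)..T, θ τ * ∫ r in (τ - h)..(τ + h), Φ r τ
      = ∫ τ, θ τ * ∫ r in (τ - h)..(τ + h), Φ' r τ := by
  obtain ⟨δ, hδ, hd⟩ := exists_dist hs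
  filter_upwards [Ioo_mem_nhdsGT hδ] with h hh
  have e : ∀ τ, θ τ * ∫ r in (τ - h)..(τ + h), Φ r τ = θ τ * ∫ r in (τ - h)..(τ + h), Φ' r τ := by
    intro τ
    by_cases hτ : θ τ = 0
    · rw [hτ, zero_mul, zero_mul]
    · congr 1
      have hτI := hd τ hτ τ (by simpa using hδ)
      refine intervalIntegral.integral_congr_ae (Eventually.of_forall fun r hr => ?_)
      rw [uIoc_of_le (by linarith [hh.1])] at hr
      refine hΦ r (hd τ hτ r ?_) τ hτI
      rw [abs_lt]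
      constructor <;> linarith [hr.1, hr.2, hh.2]
  rw [intervalIntegral.integral_of_le T0.le, setIntegral_eq_integral_of_forall_compl_eq_zero]
  · exact integral_congr_ae (Eventually.of_forall e)
  · intro τ hτ
    by_cases h0 : θ τ = 0
    · rw [h0, zero_mul]
    · exact absurd (Ioo_subset_Ioc_self (hd τ h0 τ (by simpa using hδ))) hτ

/-- integrability of the averages -/
theorem int_pair {A : ℝ → K} {B : ℝ → K} {θ : ℝ → ℝ} {c : ℝ} (hA : Integrable A)
    (hB : Integrable (fun τ => θ τ * ‖B τ‖)) (hBm : AEStronglyMeasurable B volume)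
    (hθ : Continuous θ) (hc : c = ∫ τ, ‖A τ‖) (h : ℝ) :
    Integrable (fun τ => θ τ * ∫ r in (τ - h)..(τ + h), ⟪A r, B τ⟫_ℝ) := by
  have hi : ∀ a b, IntervalIntegrable A volume a b := fun a b => hA.intervalIntegrable
  have cont : Continuous (fun τ => ∫ r in (τ - h)..(τ + h), A r) := by
    have c1 : Continuous (fun y => ∫ r in (0 : ℝ)..y, A r) :=
      intervalIntegral.continuous_primitive (fun a b => hi a b) 0
    have e : (fun τ => ∫ r in (τ - h)..(τ + h), A r)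
        = fun τ => (∫ r in (0 : ℝ)..(τ + h), A r) - ∫ r in (0 : ℝ)..(τ - h), A r := by
      funext τ
      rw [intervalIntegral.integral_interval_sub_left (hi _ _) (hi _ _)]
    rw [e]
    exact (c1.comp (by fun_prop)).sub (c1.comp (by fun_prop))
  have e1 : ∀ τ, ∫ r in (τ - h)..(τ + h), ⟪A r, B τ⟫_ℝ = ⟪∫ r in (τ - h)..(τ + h), A r, B τ⟫_ℝ := by
    intro τ
    have := (innerSL ℝ (B τ)).intervalIntegral_comp_comm (hi (τ - h) (τ + h))
    simp only [innerSL_apply_apply] at this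
    rw [real_inner_comm, ← this]
    simp_rw [real_inner_comm]
  simp_rw [e1]
  refine Integrable.mono' (g := fun τ => c * ‖θ τ * ‖B τ‖‖) (hB.norm.const_mul c)
    (hθ.aestronglyMeasurable.mul (cont.aestronglyMeasurable.inner hBm))
    (Eventually.of_forall fun τ => ?_)
  have h1 : ‖∫ r in (τ - h)..(τ + h), A r‖ ≤ c := by
    rw [hc]
    refine (intervalIntegral.norm_integral_le_integral_norm_uIoc).trans ?_
    exact setIntegral_le_integral hA.norm (Eventually.of_forall fun _ => norm_nonneg _)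
  have h2 : |⟪∫ r in (τ - h)..(τ + h), A r, B τ⟫_ℝ| ≤ c * ‖B τ‖ :=
    (abs_real_inner_le_norm _ _).trans (mul_le_mul_of_nonneg_right h1 (norm_nonneg _))
  rw [norm_mul, norm_mul, norm_norm, Real.norm_eq_abs (⟪∫ r in (τ - h)..(τ + h), A r, B τ⟫_ℝ)]
  calc ‖θ τ‖ * |⟪∫ r in (τ - h)..(τ + h), A r, B τ⟫_ℝ| ≤ ‖θ τ‖ * (c * ‖B τ‖) :=
        mul_le_mul_of_nonneg_left h2 (norm_nonneg _)
    _ = c * (‖θ τ‖ * ‖B τ‖) := by ring

variable {W : Submodule ℝ (H × K)} {T M ν : ℝ} {u : ℝ → H} {G m : ℝ → K} {f : ℝ → H}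

theorem theta_bdd {θ : ℝ → ℝ} (hθ : Continuous θ) (hc : HasCompactSupport θ) :
    ∃ c, ∀ x, ‖θ x‖ ≤ c := hθ.bounded_above_of_compact_support hc

theorem mul_int {θ F : ℝ → ℝ} (hθ : Continuous θ) (hc : HasCompactSupport θ) (hF : Integrable F) :
    Integrable (fun τ => θ τ * F τ) := by
  obtain ⟨c, hb⟩ := theta_bdd hθ hc
  exact hF.bdd_mul hθ.aestronglyMeasurable (Eventually.of_forall hb)

theorem parts (S : Sol W T M ν u G m f) (T0 : 0 < T) {θ : ℝ → ℝ} {C : ℝ≥0}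
    (hθ : LipschitzWith C θ) (hs : tsupport θ ⊆ Ioo 0 T) :
    2 * ∫ τ in (0 : ℝ)..T, deriv θ τ * defect ν u G f τ
      = -(∫ τ in (0 : ℝ)..T, deriv θ τ * ‖u τ‖ ^ 2)
        - 2 * ∫ τ in (0 : ℝ)..T, θ τ * pow ν u G f τ := by
  have hI : uIcc 0 T = Icc 0 T := uIcc_of_le T0.le
  have hp : IntervalIntegrable (pow ν u G f) volume 0 T := by
    rw [intervalIntegrable_iff_integrableOn_Ioc_of_le S.T0]
    exact S.pow_int
  set P : ℝ → ℝ := fun x => ∫ τ in (0 : ℝ)..x, pow ν u G f τ with hP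
  have Pac : AbsolutelyContinuousOnInterval P 0 T :=
    hp.absolutelyContinuousOnInterval_intervalIntegral (by rw [hI]; exact ⟨le_rfl, S.T0⟩)
  have θac : AbsolutelyContinuousOnInterval θ 0 T :=
    (hθ.lipschitzOnWith (s := uIcc 0 T)).absolutelyContinuousOnInterval
  have θ0 : θ 0 = 0 := by
    by_contra h
    exact lt_irrefl _ (hs (subset_tsupport _ h)).1
  have θT : θ T = 0 := by
    by_contra h
    exact lt_irrefl _ (hs (subset_tsupport _ h)).2
  have ibp := θac.integral_mul_deriv_eq_deriv_mul Pac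
  rw [θ0, θT, zero_mul, zero_mul, sub_zero, zero_sub] at ibp
  have e1 : ∫ x in (0 : ℝ)..T, θ x * deriv P x = ∫ x in (0 : ℝ)..T, θ x * pow ν u G f x := by
    refine intervalIntegral.integral_congr_ae ?_
    filter_upwards [hp.ae_hasDerivAt_integral] with x hx hxI
    rw [(hx (uIoc_subset_uIcc hxI) 0 left_mem_uIcc).deriv]
  have e2 : ∫ x in (0 : ℝ)..T, deriv θ x = 0 := by
    rw [θac.integral_deriv_eq_sub, θ0, θT, sub_zero]
  have di : IntervalIntegrable (deriv θ) volume 0 T := θac.intervalIntegrable_deriv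
  have ki : IntervalIntegrable (fun τ => deriv θ τ * ‖u τ‖ ^ 2) volume 0 T := by
    rw [intervalIntegrable_iff_integrableOn_Ioc_of_le T0.le] at di ⊢
    refine Integrable.mono' (g := fun τ => ‖deriv θ τ‖ * M ^ 2) (di.norm.mul_const _)
      (di.aestronglyMeasurable.mul ((S.umeas.norm.aemeasurable.pow_const 2).aestronglyMeasurable))
      ?_
    filter_upwards [ae_restrict_mem measurableSet_Ioc] with τ hτ
    have h1 := S.bdd τ (Ioc_subset_Icc_self hτ)
    rw [norm_mul]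
    refine mul_le_mul_of_nonneg_left ?_ (norm_nonneg _)
    rw [Real.norm_eq_abs, abs_of_nonneg (by positivity)]
    gcongr
  have Pi : IntervalIntegrable (fun τ => deriv θ τ * P τ) volume 0 T :=
    di.mul_continuousOn Pac.continuousOn
  have e3 : ∫ τ in (0 : ℝ)..T, deriv θ τ * defect ν u G f τ
      = ‖u 0‖ ^ 2 / 2 * (∫ x in (0 : ℝ)..T, deriv θ x) + (∫ τ in (0 : ℝ)..T, deriv θ τ * P τ)
        - (∫ τ in (0 : ℝ)..T, deriv θ τ * ‖u τ‖ ^ 2) / 2 := by
    rw [← intervalIntegral.integral_const_mul, ← intervalIntegral.integral_add (di.const_mul _) Pi,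
      ← intervalIntegral.integral_div, ← intervalIntegral.integral_sub ((di.const_mul _).add Pi)
      (ki.div_const 2)]
    refine intervalIntegral.integral_congr fun τ _ => ?_
    simp only [defect, hP]
    ring
  rw [e3, e2, ← e1, ibp]
  ring

/-- the law with the trilinear form -/
theorem law_tri (S : Sol W T M ν u G m f) (T0 : 0 < T) {θ : ℝ → ℝ} {C : ℝ≥0}
    (hθ : LipschitzWith C θ) (hs : tsupport θ ⊆ Ioo 0 T) :
    Tendsto (fun h : ℝ => (1 / h) * ∫ τ, θ τ * ∫ r in (τ - h)..(τ + h),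
        ⟪(Ioo 0 T).indicator m r, (Ioo 0 T).indicator G τ⟫_ℝ)
      (𝓝[>] 0) (𝓝 (2 * ∫ τ in (0 : ℝ)..T, deriv θ τ * defect ν u G f τ)) := by
  have hc := compact_of hs
  have hθc := hθ.continuous
  have hms : MeasurableSet (Ioo (0 : ℝ) T) := measurableSet_Ioo
  have eT := restrict_Ioc_eq T
  -- the extensions
  set mI := (Ioo 0 T).indicator m with hmI
  set GI := (Ioo 0 T).indicator G with hGI
  set fI := (Ioo 0 T).indicator f with hfI
  set uI := (Ioo 0 T).indicator u with huI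
  have mint : Integrable mI := by
    rw [hmI, integrable_indicator_iff hms, IntegrableOn, ← eT]; exact S.mint
  have Gint : Integrable GI := by
    rw [hGI, integrable_indicator_iff hms, IntegrableOn, ← eT]; exact S.Gint
  have fint : Integrable fI := by
    rw [hfI, integrable_indicator_iff hms, IntegrableOn, ← eT]; exact S.fint
  have umeas : AEStronglyMeasurable uI volume := by
    rw [huI, aestronglyMeasurable_indicator_iff hms, ← eT]; exact S.umeas
  have ubd : ∀ t, ‖uI t‖ ≤ M := fun t => by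
    by_cases ht : t ∈ Ioo 0 T
    · rw [huI, indicator_of_mem ht]; exact S.bdd t (Ioo_subset_Icc_self ht)
    · rw [huI, indicator_of_notMem ht, norm_zero]; exact S.M0
  have GL2 : MemLp GI 2 volume := by
    rw [hGI, memLp_indicator_iff_restrict hms, ← eT, memLp_two_iff_integrable_sq_norm S.Gmeas]
    exact S.G2
  have l1 := Pool.Agent.P8H16.TF.shift H T M u θ C T0 (by rw [← eT]; exact S.umeas) S.bdd S.wcont
    hθ hs
  have l2 := (Pool.Agent.P8H16.TF.avg K θ hθc hc).1 GI GL2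
  have l3 := (Pool.Agent.P8H16.TF.avg H θ hθc hc).2 fI uI M fint umeas ubd
  have l4 := (l1.add (l2.const_mul ν)).sub l3
  have e2 : ∫ τ, θ τ * ‖GI τ‖ ^ 2 = ∫ τ in (0 : ℝ)..T, θ τ * ‖G τ‖ ^ 2 := by
    rw [intervalIntegral.integral_of_le T0.le, eT, ← integral_indicator hms]
    refine integral_congr_ae (Eventually.of_forall fun τ => ?_)
    by_cases ht : τ ∈ Ioo 0 T
    · simp only [hGI, indicator_of_mem ht]
    · simp only [hGI, indicator_of_notMem ht, norm_zero]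
      ring
  have e3 : ∫ τ, θ τ * ⟪fI τ, uI τ⟫_ℝ = ∫ τ in (0 : ℝ)..T, θ τ * ⟪f τ, u τ⟫_ℝ := by
    rw [intervalIntegral.integral_of_le T0.le, eT, ← integral_indicator hms]
    refine integral_congr_ae (Eventually.of_forall fun τ => ?_)
    by_cases ht : τ ∈ Ioo 0 T
    · simp only [hfI, huI, indicator_of_mem ht]
    · simp only [hfI, huI, indicator_of_notMem ht, inner_zero_right, mul_zero]
  have ip1 : IntervalIntegrable (fun τ => θ τ * ⟪f τ, u τ⟫_ℝ) volume 0 T := by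
    rw [intervalIntegrable_iff_integrableOn_Ioc_of_le T0.le]
    obtain ⟨c, hb⟩ := theta_bdd hθc hc
    exact Integrable.bdd_mul S.fu_int hθc.aestronglyMeasurable (Eventually.of_forall hb)
  have ip2 : IntervalIntegrable (fun τ => θ τ * ‖G τ‖ ^ 2) volume 0 T := by
    rw [intervalIntegrable_iff_integrableOn_Ioc_of_le T0.le]
    obtain ⟨c, hb⟩ := theta_bdd hθc hc
    exact Integrable.bdd_mul S.G2 hθc.aestronglyMeasurable (Eventually.of_forall hb)
  have e4 : ∫ τ in (0 : ℝ)..T, θ τ * pow ν u G f τ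
      = (∫ τ in (0 : ℝ)..T, θ τ * ⟪f τ, u τ⟫_ℝ) - ν * ∫ τ in (0 : ℝ)..T, θ τ * ‖G τ‖ ^ 2 := by
    rw [← intervalIntegral.integral_const_mul, ← intervalIntegral.integral_sub ip1
      (ip2.const_mul ν)]
    refine intervalIntegral.integral_congr fun τ _ => ?_
    simp only [pow]
    ring
  rw [parts S T0 hθ hs, e4]
  rw [e2, e3] at l4
  have e5 : -(∫ τ in (0 : ℝ)..T, deriv θ τ * ‖u τ‖ ^ 2)
      + ν * (2 * ∫ τ in (0 : ℝ)..T, θ τ * ‖G τ‖ ^ 2)
      - 2 * ∫ τ in (0 : ℝ)..T, θ τ * ⟪f τ, u τ⟫_ℝ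
      = -(∫ τ in (0 : ℝ)..T, deriv θ τ * ‖u τ‖ ^ 2)
        - 2 * ((∫ τ in (0 : ℝ)..T, θ τ * ⟪f τ, u τ⟫_ℝ)
          - ν * ∫ τ in (0 : ℝ)..T, θ τ * ‖G τ‖ ^ 2) := by ring
  rw [e5] at l4
  refine l4.congr' ?_
  obtain ⟨δ, hδ, hd⟩ := exists_dist hs
  have hW := S.memW
  rw [eT, ae_restrict_iff' hms] at hW
  filter_upwards [Ioo_mem_nhdsGT hδ] with h hh
  have h0 : 0 < h := hh.1
  -- the integrals
  have i1 := int_pair mint (mul_int hθc hc Gint.norm) Gint.aestronglyMeasurable hθc rfl h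
  have i2 := int_pair Gint (mul_int hθc hc Gint.norm) Gint.aestronglyMeasurable hθc rfl h
  have i3 : Integrable (fun τ => θ τ * ∫ r in (τ - h)..(τ + h), ⟪fI r, uI τ⟫_ℝ) := by
    refine int_pair fint ?_ umeas hθc rfl h
    have hθi : Integrable θ := hθc.integrable_of_hasCompactSupport hc
    have := hθi.mul_bdd (c := M) umeas.norm (Eventually.of_forall fun t => by
      rw [norm_norm]; exact ubd t)
    exact this
  have e6 : ∫ τ in (0 : ℝ)..T, θ τ * ⟪u (τ + h) - u (τ - h), u τ⟫_ℝ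
      = ∫ τ, (θ τ * (∫ r in (τ - h)..(τ + h), ⟪mI r, GI τ⟫_ℝ)
        - ν * (θ τ * ∫ r in (τ - h)..(τ + h), ⟪GI r, GI τ⟫_ℝ)
        + θ τ * ∫ r in (τ - h)..(τ + h), ⟪fI r, uI τ⟫_ℝ) := by
    rw [intervalIntegral.integral_of_le T0.le, setIntegral_eq_integral_of_forall_compl_eq_zero]
    · refine integral_congr_ae ?_
      filter_upwards [hW] with τ hτ
      by_cases h1 : θ τ = 0
      · rw [h1]; ring
      have hτI := hd τ h1 τ (by simpa using hδ)
      have hw := S.weak _ (hτ hτI) (τ - h) (τ + h)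
        (hd τ h1 (τ - h) (by rw [abs_lt]; constructor <;> linarith [hh.2])).1.le (by linarith)
        (hd τ h1 (τ + h) (by rw [abs_lt]; constructor <;> linarith [hh.2])).2.le
      have hin : ∀ r ∈ Ioc (τ - h) (τ + h), r ∈ Ioo 0 T := fun r hr => hd τ h1 r (by
        rw [abs_lt]; constructor <;> linarith [hr.1, hr.2, hh.2])
      have j1 : IntervalIntegrable (fun r => ⟪mI r, GI τ⟫_ℝ) volume (τ - h) (τ + h) :=
        (mint.inner_const (GI τ)).intervalIntegrable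
      have j2 : IntervalIntegrable (fun r => ν * ⟪GI r, GI τ⟫_ℝ) volume (τ - h) (τ + h) :=
        ((Gint.inner_const (GI τ)).const_mul ν).intervalIntegrable
      have j3 : IntervalIntegrable (fun r => ⟪fI r, uI τ⟫_ℝ) volume (τ - h) (τ + h) :=
        (fint.inner_const (uI τ)).intervalIntegrable
      have e7 : ∫ r in (τ - h)..(τ + h), (⟪m r, G τ⟫_ℝ - ν * ⟪G r, G τ⟫_ℝ + ⟪f r, u τ⟫_ℝ)
          = ∫ r in (τ - h)..(τ + h), (⟪mI r, GI τ⟫_ℝ - ν * ⟪GI r, GI τ⟫_ℝ + ⟪fI r, uI τ⟫_ℝ) := by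
        refine intervalIntegral.integral_congr_ae (Eventually.of_forall fun r hr => ?_)
        rw [uIoc_of_le (by linarith)] at hr
        have hr' := hin r hr
        simp only [hmI, hGI, hfI, huI, indicator_of_mem hr', indicator_of_mem hτI]
      simp only at hw
      rw [e7, intervalIntegral.integral_add (j1.sub j2) j3, intervalIntegral.integral_sub j1 j2,
        intervalIntegral.integral_const_mul] at hw
      rw [inner_sub_left, hw]
      ring
    · intro τ hτ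
      by_cases h1 : θ τ = 0
      · rw [h1, zero_mul]
      · exact absurd (Ioo_subset_Ioc_self (hd τ h1 τ (by simpa using hδ))) hτ
  have e8 : ∫ τ, (θ τ * (∫ r in (τ - h)..(τ + h), ⟪mI r, GI τ⟫_ℝ)
        - ν * (θ τ * ∫ r in (τ - h)..(τ + h), ⟪GI r, GI τ⟫_ℝ)
        + θ τ * ∫ r in (τ - h)..(τ + h), ⟪fI r, uI τ⟫_ℝ)
      = (∫ τ, θ τ * (∫ r in (τ - h)..(τ + h), ⟪mI r, GI τ⟫_ℝ))
        - ν * (∫ τ, θ τ * ∫ r in (τ - h)..(τ + h), ⟪GI r, GI τ⟫_ℝ)
        + ∫ τ, θ τ * ∫ r in (τ - h)..(τ + h), ⟪fI r, uI τ⟫_ℝ := by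
    have k1 := integral_add (i1.sub (i2.const_mul ν)) i3
    have k2 := integral_sub i1 (i2.const_mul ν)
    simp only [Pi.sub_apply] at k1
    rw [k1]
    rw [integral_const_mul] at k2
    rw [← k2]
  rw [e6, e8]
  ring

/-- **The exact law**. -/
theorem law (S : Sol W T M ν u G m f) (T0 : 0 < T) {θ : ℝ → ℝ} {C : ℝ≥0}
    (hθ : LipschitzWith C θ) (hs : tsupport θ ⊆ Ioo 0 T) :
    Tendsto (fun h : ℝ => (1 / h) * ∫ τ in (0 : ℝ)..T, θ τ * ∫ r in (τ - h)..(τ + h),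
        (⟪m r, G τ⟫_ℝ + ⟪m τ, G r⟫_ℝ))
      (𝓝[>] 0) (𝓝 (4 * ∫ τ in (0 : ℝ)..T, deriv θ τ * defect ν u G f τ)) := by
  have hc := compact_of hs
  have hθc := hθ.continuous
  have hms : MeasurableSet (Ioo (0 : ℝ) T) := measurableSet_Ioo
  have eT := restrict_Ioc_eq T
  set mI := (Ioo 0 T).indicator m with hmI
  set GI := (Ioo 0 T).indicator G with hGI
  have mint : Integrable mI := by
    rw [hmI, integrable_indicator_iff hms, IntegrableOn, ← eT]; exact S.mint
  have Gint : Integrable GI := by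
    rw [hGI, integrable_indicator_iff hms, IntegrableOn, ← eT]; exact S.Gint
  have l1 := law_tri S T0 hθ hs
  have l2 := Pool.Agent.P8H16.TF.swap K mI GI θ C mint Gint hθ hc
  have l3 := (l1.add l2).add l1
  have e1 : 2 * (∫ τ in (0 : ℝ)..T, deriv θ τ * defect ν u G f τ) + 0
      + 2 * (∫ τ in (0 : ℝ)..T, deriv θ τ * defect ν u G f τ)
      = 4 * ∫ τ in (0 : ℝ)..T, deriv θ τ * defect ν u G f τ := by ring
  rw [e1] at l3
  refine l3.congr' ?_
  filter_upwards [glob T0 hs (Φ := fun r τ => ⟪m r, G τ⟫_ℝ + ⟪m τ, G r⟫_ℝ)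
    (Φ' := fun r τ => ⟪mI r, GI τ⟫_ℝ + ⟪mI τ, GI r⟫_ℝ) (fun r hr τ hτ => by
      simp only [hmI, hGI, indicator_of_mem hr, indicator_of_mem hτ])] with h hh
  rw [hh]
  have i1 := int_pair mint (mul_int hθc hc Gint.norm) Gint.aestronglyMeasurable hθc rfl h
  have i2 := int_pair Gint (mul_int hθc hc mint.norm) mint.aestronglyMeasurable hθc rfl h
  have e2 : ∀ τ, θ τ * ∫ r in (τ - h)..(τ + h), (⟪mI r, GI τ⟫_ℝ + ⟪mI τ, GI r⟫_ℝ)
      = θ τ * (∫ r in (τ - h)..(τ + h), ⟪mI r, GI τ⟫_ℝ)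
        + θ τ * ∫ r in (τ - h)..(τ + h), ⟪GI r, mI τ⟫_ℝ := by
    intro τ
    have j1 : IntervalIntegrable (fun r => ⟪mI r, GI τ⟫_ℝ) volume (τ - h) (τ + h) :=
      (mint.inner_const (GI τ)).intervalIntegrable
    have j2 : IntervalIntegrable (fun r => ⟪mI τ, GI r⟫_ℝ) volume (τ - h) (τ + h) :=
      (Gint.const_inner (mI τ)).intervalIntegrable
    rw [intervalIntegral.integral_add j1 j2, mul_add]
    simp_rw [real_inner_comm]
  have e3 : ∀ τ, ∫ r in (τ - h)..(τ + h), ⟪mI τ, GI r⟫_ℝ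
      = ∫ r in (τ - h)..(τ + h), ⟪GI r, mI τ⟫_ℝ := fun τ => by simp_rw [real_inner_comm]
  simp_rw [e2, e3]
  rw [integral_add i1 i2]
  ring

end Pool.Agent.P8H70.TF
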