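import Pool.Agent.P8H70.TF.Core

/-!
A one-sided bound of the time correlations gives the energy inequality between all times.
-/

set_option autoImplicit false
set_option linter.unusedSectionVars false

open MeasureTheory Set Filter Topology
open scoped InnerProductSpace ENNReal NNReal

namespace Pool.Agent.P8H70.TF

variable {H : Type} [NormedAddCommGroup H] [InnerProductSpace ℝ H] [CompleteSpace H]

theorem ii {g : ℝ → ℝ} {T x y : ℝ} (hg : IntegrableOn g (Ioc 0 T)) (hx : 0 ≤ x) (hxy : x ≤ y)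
    (hy : y ≤ T) : IntervalIntegrable g volume x y := by
  rw [intervalIntegrable_iff_integrableOn_Ioc_of_le hxy]
  exact hg.mono_set (Ioc_subset_Ioc hx hy)

/-- the data -/
structure Corr (T M : ℝ) (u : ℝ → H) (g p : ℝ → ℝ) : Prop where
  T0 : 0 < T
  meas : AEStronglyMeasurable u (volume.restrict (Ioc 0 T))
  bdd : ∀ t ∈ Icc 0 T, ‖u t‖ ≤ M
  wcont : ∀ v : H, ContinuousOn (fun t => ⟪u t, v⟫_ℝ) (Icc 0 T)
  gi : IntegrableOn g (Ioc 0 T)
  pi : IntegrableOn p (Ioc 0 T)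
  der : ∀ᵐ τ ∂(volume.restrict (Ioc 0 T)), HasDerivAt (fun x => ⟪u x, u τ⟫_ℝ) (p τ) τ
  bound : ∀ᵐ τ ∂(volume.restrict (Ioc 0 T)), ∀ x ∈ Icc 0 τ,
    ⟪u τ - u x, u τ⟫_ℝ ≤ (∫ r in x..τ, g r) + (τ - x) * g τ

/-- the good times -/
def GT (T : ℝ) (u : ℝ → H) : Set ℝ :=
  {t | t ∈ Ioc 0 T ∧ HasDerivAt (fun x => ∫ r in (0 : ℝ)..x, ‖(Ioc 0 T).indicator u r‖ ^ 2 / 2)
    (‖u t‖ ^ 2 / 2) t}

variable {T M : ℝ} {u : ℝ → H} {g p : ℝ → ℝ}

theorem Corr.M0 (h : Corr T M u g p) : 0 ≤ M := (norm_nonneg _).trans (h.bdd 0 ⟨le_rfl, h.T0.le⟩)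

theorem Corr.gt (h : Corr T M u g p) : ∀ᵐ t, t ∈ Ioc 0 T → t ∈ GT T u := by
  have m : AEStronglyMeasurable ((Ioc 0 T).indicator u) volume :=
    (aestronglyMeasurable_indicator_iff measurableSet_Ioc).2 h.meas
  have b : ∀ x, ‖(Ioc 0 T).indicator u x‖ ≤ M := fun x => by
    by_cases hx : x ∈ Ioc 0 T
    · rw [indicator_of_mem hx]; exact h.bdd x (Ioc_subset_Icc_self hx)
    · rw [indicator_of_notMem hx, norm_zero]; exact h.M0
  have kM : AEStronglyMeasurable (fun r => ‖(Ioc 0 T).indicator u r‖ ^ 2 / 2) volume :=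
    ((m.norm.aemeasurable.pow_const 2).div_const 2).aestronglyMeasurable
  have kb : ∀ r, ‖‖(Ioc 0 T).indicator u r‖ ^ 2 / 2‖ ≤ M ^ 2 / 2 := fun r => by
    have h1 := b r
    rw [Real.norm_eq_abs, abs_of_nonneg (by positivity)]
    have : ‖(Ioc 0 T).indicator u r‖ ^ 2 ≤ M ^ 2 := by gcongr
    linarith
  have ki : LocallyIntegrable (fun r => ‖(Ioc 0 T).indicator u r‖ ^ 2 / 2) volume := by
    rw [locallyIntegrable_iff]
    intro K hK
    exact Measure.integrableOn_of_bounded (M := M ^ 2 / 2) hK.measure_lt_top.ne kM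
      (Eventually.of_forall kb)
  filter_upwards [LocallyIntegrable.ae_hasDerivAt_integral ki] with t ht hI
  refine ⟨hI, ?_⟩
  have := ht 0
  rwa [indicator_of_mem hI] at this

theorem Corr.good (fat : S_FAT) (h : Corr T M u g p) {s t : ℝ} (hs : s ∈ GT T u) (ht : t ∈ GT T u)
    (hst : s ≤ t) : ‖u t‖ ^ 2 / 2 - ‖u s‖ ^ 2 / 2 ≤ ∫ τ in s..t, p τ := by
  have hs0 : 0 < s := hs.1.1
  have htT : t ≤ T := ht.1.2
  have m : AEStronglyMeasurable ((Ioc 0 T).indicator u) volume :=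
    (aestronglyMeasurable_indicator_iff measurableSet_Ioc).2 h.meas
  have b : ∀ x, ‖(Ioc 0 T).indicator u x‖ ≤ M := fun x => by
    by_cases hx : x ∈ Ioc 0 T
    · rw [indicator_of_mem hx]; exact h.bdd x (Ioc_subset_Icc_self hx)
    · rw [indicator_of_notMem hx, norm_zero]; exact h.M0
  have gI : Integrable ((Ioc 0 T).indicator g) volume :=
    (integrable_indicator_iff measurableSet_Ioc).2 h.gi
  have key := core_good fat (u := (Ioc 0 T).indicator u) (g := (Ioc 0 T).indicator g) (p := p)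
    (M := M) (s := s) (t := t) m b gI (h.pi.mono_set (Ioc_subset_Ioc hs0.le htT)) hs0 hst ?_ ?_ ?_ ?_
  · rwa [indicator_of_mem ht.1, indicator_of_mem hs.1] at key
  · have h1 := h.der
    rw [ae_restrict_iff' measurableSet_Ioc] at h1
    filter_upwards [h1] with τ hτ hI
    have hIT : τ ∈ Ioc 0 T := ⟨hs0.trans hI.1, hI.2.trans htT⟩
    refine (quot_lim hs0 (hτ hIT)).congr fun n => ?_
    have h0 := st_pos hs0 n
    have h1 := st_le hs0 n
    have hx : τ - st s n ∈ Ioc 0 T := ⟨by linarith [hI.1], by linarith [hIT.2]⟩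
    rw [indicator_of_mem hIT, indicator_of_mem hx, inner_sub_left]
  · have h1 := h.bound
    rw [ae_restrict_iff' measurableSet_Ioc] at h1
    filter_upwards [h1] with τ hτ hI x hx
    have hIT : τ ∈ Ioc 0 T := ⟨hs0.trans hI.1, hI.2.trans htT⟩
    have hxT : x ∈ Ioc 0 T := ⟨hx.1, hx.2.le.trans hIT.2⟩
    have e1 : ∫ r in x..τ, (Ioc 0 T).indicator g r = ∫ r in x..τ, g r := by
      refine intervalIntegral.integral_congr_ae (Eventually.of_forall fun r hr => ?_)
      rw [uIoc_of_le hx.2.le] at hr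
      rw [indicator_of_mem (show r ∈ Ioc 0 T from ⟨hx.1.trans hr.1, hr.2.trans hIT.2⟩)]
    rw [e1, indicator_of_mem hIT, indicator_of_mem hxT, indicator_of_mem hIT]
    exact hτ hIT x ⟨hx.1.le, hx.2.le⟩
  · rw [indicator_of_mem hs.1]; exact hs.2
  · rw [indicator_of_mem ht.1]; exact ht.2

/-- a set of full measure meets every interval -/
theorem exists_mem_of_ae {P : ℝ → Prop} (hP : ∀ᵐ x, P x) {a b : ℝ} (hab : a < b) :
    ∃ x ∈ Ioo a b, P x := by
  by_contra hne
  push Not at hne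
  have h0 : volume {x | ¬ P x} = 0 := ae_iff.1 hP
  have h1 : Ioo a b ⊆ {x | ¬ P x} := fun x hx => hne x hx
  have h2 := measure_mono_null h1 h0
  rw [Real.volume_Ioo, ENNReal.ofReal_eq_zero] at h2
  linarith

theorem Corr.left (fat : S_FAT) (h : Corr T M u g p) {s t : ℝ} (hs : s ∈ GT T u)
    (hst : s ≤ t) (htT : t ≤ T) : ‖u t‖ ^ 2 / 2 - ‖u s‖ ^ 2 / 2 ≤ ∫ τ in s..t, p τ := by
  rcases hst.eq_or_lt with rfl | hlt
  · simp
  have hs0 : 0 < s := hs.1.1
  have ex : ∀ n : ℕ, ∃ x ∈ Ioo (t - st (t - s) n) t, x ∈ GT T u := fun n => by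
    obtain ⟨x, hx, hx2⟩ := exists_mem_of_ae h.gt (a := t - st (t - s) n) (b := t)
      (by have := st_pos (sub_pos.2 hlt) n; linarith)
    have h1 := st_le (sub_pos.2 hlt) n
    exact ⟨x, hx, hx2 ⟨by linarith [hx.1], hx.2.le.trans htT⟩⟩
  choose x hx hxG using ex
  have hx1 : ∀ n, s ≤ x n := fun n => by
    have h1 := st_le (sub_pos.2 hlt) n
    linarith [(hx n).1]
  have hxt : Tendsto x atTop (𝓝 t) := by
    have l1 : Tendsto (fun n => t - st (t - s) n) atTop (𝓝 t) := by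
      have := (st_lim (t - s)).const_sub t
      rwa [sub_zero] at this
    exact tendsto_of_tendsto_of_tendsto_of_le_of_le l1 tendsto_const_nhds
      (fun n => (hx n).1.le) (fun n => (hx n).2.le)
  have htI : t ∈ Icc 0 T := ⟨hs0.le.trans hst, htT⟩
  have hxI : ∀ n, x n ∈ Icc 0 T := fun n => ⟨hs0.le.trans (hx1 n), (hx n).2.le.trans htT⟩
  have w : Tendsto (fun n => ⟪u (x n), u t⟫_ℝ) atTop (𝓝 ⟪u t, u t⟫_ℝ) :=
    ((h.wcont (u t)) t htI).tendsto.comp
      (tendsto_nhdsWithin_iff.2 ⟨hxt, Eventually.of_forall hxI⟩)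
  have c : ContinuousOn (fun y => ∫ τ in s..y, p τ) (Icc s t) :=
    intervalIntegral.continuousOn_primitive_interval'
      (ii h.pi hs0.le hst htT) (by rw [uIcc_of_le hst]; exact ⟨le_rfl, hst⟩) |>.mono (by
        rw [uIcc_of_le hst])
  have c2 : Tendsto (fun n => ∫ τ in s..(x n), p τ) atTop (𝓝 (∫ τ in s..t, p τ)) :=
    (c t ⟨hst, le_rfl⟩).tendsto.comp (tendsto_nhdsWithin_iff.2 ⟨hxt, Eventually.of_forall fun n =>
      ⟨hx1 n, (hx n).2.le⟩⟩)
  have fin := le_of_tendsto_of_tendsto (w.sub_const (‖u t‖ ^ 2 / 2))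
    (c2.const_add (‖u s‖ ^ 2 / 2)) (Eventually.of_forall fun n => ?_)
  · rw [real_inner_self_eq_norm_sq] at fin
    linarith
  · have a1 := h.good fat hs (hxG n) (hx1 n)
    have a2 := norm_sub_sq_real (u (x n)) (u t)
    have a3 : 0 ≤ ‖u (x n) - u t‖ ^ 2 := by positivity
    simp only
    linarith

/-- **The energy inequality between all times.** -/
theorem Corr.all (fat : S_FAT) (h : Corr T M u g p) {s t : ℝ} (hs : 0 ≤ s)
    (hst : s ≤ t) (htT : t ≤ T) : ‖u t‖ ^ 2 / 2 - ‖u s‖ ^ 2 / 2 ≤ ∫ τ in s..t, p τ := by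
  rcases hst.eq_or_lt with rfl | hlt
  · simp
  by_contra hcon
  push Not at hcon
  set X : ℝ := ‖u t‖ ^ 2 / 2 - ‖u s‖ ^ 2 / 2 - ∫ τ in s..t, p τ with hX
  have hX0 : 0 < X := by rw [hX]; linarith
  -- the estimate
  have h1 := h.bound
  rw [ae_restrict_iff' measurableSet_Ioc] at h1
  have est : ∀ᵐ τ, τ ∈ Ioo s t → X ≤ ((∫ r in s..τ, g r) - ∫ r in s..τ, p r) + (τ - s) * g τ := by
    filter_upwards [h1, h.gt] with τ k1 k2 hI
    have hIT : τ ∈ Ioc 0 T := ⟨hs.trans_lt hI.1, hI.2.le.trans htT⟩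
    have e1 := k1 hIT s ⟨hs, hI.1.le⟩
    have e2 := h.left fat (k2 hIT) hI.2.le htT
    have e3 : (∫ r in s..τ, p r) + ∫ r in τ..t, p r = ∫ r in s..t, p r :=
      intervalIntegral.integral_add_adjacent_intervals (ii h.pi hs hI.1.le hIT.2)
        (ii h.pi hIT.1.le hI.2.le htT)
    have a1 := norm_sub_sq_real (u τ) (u s)
    have a2 : ⟪u τ - u s, u τ⟫_ℝ = ‖u τ‖ ^ 2 - ⟪u τ, u s⟫_ℝ := by
      rw [inner_sub_left, real_inner_self_eq_norm_sq, real_inner_comm]
    have a3 : 0 ≤ ‖u τ - u s‖ ^ 2 := by positivity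
    rw [a2] at e1
    rw [hX]
    linarith
  -- continuity
  have cg : ContinuousOn (fun y => ∫ τ in s..y, g τ) (Icc s t) :=
    intervalIntegral.continuousOn_primitive_interval'
      (ii h.gi hs hst htT) (by rw [uIcc_of_le hst]; exact ⟨le_rfl, hst⟩) |>.mono (by
        rw [uIcc_of_le hst])
  have cp : ContinuousOn (fun y => ∫ τ in s..y, p τ) (Icc s t) :=
    intervalIntegral.continuousOn_primitive_interval'
      (ii h.pi hs hst htT) (by rw [uIcc_of_le hst]; exact ⟨le_rfl, hst⟩) |>.mono (by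
        rw [uIcc_of_le hst])
  have c := (cg.sub cp) s ⟨le_rfl, hst⟩
  have c' : ∀ᶠ y in 𝓝[Icc s t] s, (∫ r in s..y, g r) - (∫ r in s..y, p r) < X / 2 := by
    have hlt2 : (fun y => (∫ τ in s..y, g τ) - ∫ τ in s..y, p τ) s < X / 2 := by
      simp only [intervalIntegral.integral_same]
      linarith
    exact c.eventually (gt_mem_nhds hlt2)
  rw [eventually_nhdsWithin_iff, Metric.eventually_nhds_iff] at c'
  obtain ⟨δ, hδ, hc⟩ := c'
  set b : ℝ := s + min (δ / 2) ((t - s) / 2) with hb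
  have hm0 : 0 < min (δ / 2) ((t - s) / 2) := lt_min (by linarith) (by linarith)
  have hm1 := min_le_left (δ / 2) ((t - s) / 2)
  have hm2 := min_le_right (δ / 2) ((t - s) / 2)
  have hsb : s < b := by rw [hb]; linarith
  have hbt : b < t := by rw [hb]; linarith
  -- the inverse is integrable
  have hint : IntervalIntegrable (fun x => (x - s)⁻¹) volume s b := by
    rw [intervalIntegrable_iff_integrableOn_Ioc_of_le hsb.le]
    refine Integrable.mono' (g := fun τ => 2 / X * g τ) ?_ ?_ ?_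
    · exact (h.gi.mono_set (Ioc_subset_Ioc hs (hbt.le.trans htT))).const_mul _
    · exact (by fun_prop : Measurable fun x : ℝ => (x - s)⁻¹).aestronglyMeasurable
    · rw [ae_restrict_iff' measurableSet_Ioc]
      filter_upwards [est] with τ hτ hI
      have hts : 0 < τ - s := by linarith [hI.1]
      have k1 := hτ ⟨hI.1, hI.2.trans_lt hbt⟩
      have k2 := hc (y := τ) (by
        rw [Real.dist_eq, abs_of_pos hts]
        have := hI.2
        rw [hb] at this
        linarith) ⟨hI.1.le, hI.2.trans hbt.le⟩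
      have k3 : X / 2 ≤ (τ - s) * g τ := by linarith
      rw [Real.norm_eq_abs, abs_of_pos (inv_pos.2 hts), inv_eq_one_div, div_le_iff₀ hts]
      have : 2 / X * (X / 2) ≤ 2 / X * ((τ - s) * g τ) :=
        mul_le_mul_of_nonneg_left k3 (by positivity)
      have e : 2 / X * (X / 2) = 1 := by field_simp
      rw [e] at this
      linarith [this, show 2 / X * ((τ - s) * g τ) = 2 / X * g τ * (τ - s) by ring]
  rw [intervalIntegrable_sub_inv_iff] at hint
  rcases hint with h2 | h2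
  · exact hsb.ne h2
  · exact h2 left_mem_uIcc

end Pool.Agent.P8H70.TF
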