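import Pool.Agent.P8H70.TF.Fin
import Pool.Agent.P8H70.EC.One

/-!
The law and the criteria in terms of the public definitions.
-/

set_option autoImplicit false
set_option linter.unusedSectionVars false

open MeasureTheory Set Filter Topology
open scoped InnerProductSpace ENNReal ContDiff NNReal

namespace Pool.Agent.P8H70.TF

open H772R2.NS.Pub Pool.Agent.TH301.EQ Pool.Agent.P8H70.EC

/-- The matrix `a ⊗ a`, with the entries `a_i a_j`. -/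
noncomputable def tensor (a : R3) : Mat :=
  WithLp.toLp 2 fun p : Fin 3 × Fin 3 => ⟪e p.1, a⟫_ℝ * ⟪e p.2, a⟫_ℝ

theorem tensor_eq (a : H772R2.NS.E3) : (tensor a : H772R2.NS.M3) = H772R2.NS.tens a := by
  have h : ∀ p : Fin 3 × Fin 3, ⟪(e p.1 : H772R2.NS.E3), a⟫_ℝ * ⟪(e p.2 : H772R2.NS.E3), a⟫_ℝ
      = a p.1 * a p.2 := by
    intro p
    rw [inner_e, inner_e]
  show WithLp.toLp 2 (fun p : Fin 3 × Fin 3 =>
    ⟪(e p.1 : H772R2.NS.E3), a⟫_ℝ * ⟪(e p.2 : H772R2.NS.E3), a⟫_ℝ) = _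
  rw [funext h]
  rfl

/-- `∫_Ω v·(z v)`: the integral of `∑ v_i v_j z_ij`. -/
noncomputable def flux {Ω : Set R3} (v : R3 → R3) (z : L2 Ω Mat) : ℝ :=
  ∫ x in Ω, ⟪tensor (v x), z.fn x⟫_ℝ

theorem flux_eq {Ω : Set R3} (v : R3 → R3) (z : L2 Ω Mat) :
    flux v z = ∫ x in Ω, ⟪H772R2.NS.tens (v x), z.fn x⟫_ℝ := by
  unfold flux
  refine integral_congr_ae (Eventually.of_forall fun x => ?_)
  have := tensor_eq (v x)
  exact congrArg (fun y : H772R2.NS.M3 => ⟪y, z.fn x⟫_ℝ) this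

/-- The triple product `ω·(a × b)` of the axial vector `ω` of the matrix `z` (if `z` is the Jacobian
matrix of a field then `ω` is its curl) and `a`, `b`. -/
noncomputable def turn (z : Mat) (a b : R3) : ℝ := -⟪z, wedge a b⟫_ℝ

variable {Ω : Set R3} {ν T : ℝ} {u : ℝ → L2 Ω R3} {G : ℝ → L2 Ω Mat} {f : ℝ → L2 Ω R3}

theorem pub_law (hΩ : IsOpen Ω) (hν : 0 ≤ ν) (hT : 0 < T) (hu : IsWeakSolution Ω ν T u G f)
    {θ : ℝ → ℝ} {C : ℝ≥0} (hθ : LipschitzWith C θ) (hs : tsupport θ ⊆ Ioo 0 T) :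
    Tendsto (fun η : ℝ => ∫ τ in (0 : ℝ)..T, θ τ * ((1 / (2 * η)) * ∫ r in (τ - η)..(τ + η),
        flux (fun x => (u r).fn x - (u τ).fn x) (G τ)))
      (𝓝[>] 0) (𝓝 (2 * ∫ τ in (0 : ℝ)..T, deriv θ τ * energyDefect ν u G f τ)) := by
  simp only [flux_eq]
  exact ns_law (Ω := (Ω : Set H772R2.NS.E3)) hΩ hν hT (toNS hu) hθ hs

theorem pub_inc (hΩ : IsOpen Ω) (hν : 0 ≤ ν) (hT : 0 < T) (hu : IsWeakSolution Ω ν T u G f)
    {ψ : ℝ → ℝ} (hψ0 : ∀ t, 0 ≤ ψ t) (hψ : IntegrableOn ψ (Ioo 0 T)) :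
    ((∀ᵐ τ ∂(volume.restrict (Ioo 0 T)), ∀ᵐ r ∂(volume.restrict (Ioo 0 T)),
        flux (fun x => (u r).fn x - (u τ).fn x) (G τ) ≤ ψ r + ψ τ + |r - τ| * (ψ r * ψ τ)) →
      ∀ᵐ s ∂(volume.restrict (Ioo 0 T)), ∀ t ∈ Icc s T,
        energyDefect ν u G f s ≤ energyDefect ν u G f t) ∧
    ((∀ᵐ τ ∂(volume.restrict (Ioo 0 T)), ∀ᵐ r ∂(volume.restrict (Ioo 0 T)),
        -(ψ r + ψ τ + |r - τ| * (ψ r * ψ τ)) ≤ flux (fun x => (u r).fn x - (u τ).fn x) (G τ)) →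
      (∀ s ∈ Ico 0 T, ∀ᵐ t ∂(volume.restrict (Ioo s T)),
        energyDefect ν u G f t ≤ energyDefect ν u G f s) ∧
      ((∀ᵐ t ∂(volume.restrict (Ioo 0 T)), 0 ≤ energyDefect ν u G f t) →
        ∀ᵐ t ∂(volume.restrict (Ioo 0 T)), energyDefect ν u G f t = 0)) := by
  simp only [flux_eq]
  exact ns_inc (Ω := (Ω : Set H772R2.NS.E3)) hΩ hν hT (toNS hu) hψ0 hψ

theorem flux_one (hΩ : IsOpen Ω) (hu : IsWeakSolution Ω ν T u G f) :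
    ∀ᵐ r ∂(volume.restrict (Ioo 0 T)), ∀ z : L2 Ω Mat,
      flux ((u r).fn) z = ⟪H772R2.NS.tensL (Ω := (Ω : Set H772R2.NS.E3)) (u r), z⟫_ℝ := by
  have hu' := toNS hu
  filter_upwards [hu'.grad] with r hr z
  rw [flux_eq]
  exact quad_one (Ω := (Ω : Set H772R2.NS.E3))
    (IsOpen.measurableSet (α := H772R2.NS.E3) hΩ) (p := (u r, G r)) (q := (u r, z))
    (H772R2.NS.mem_graphW.mpr hr)

theorem pub_back (hΩ : IsOpen Ω) (hν : 0 ≤ ν) (hT : 0 < T) (hu : IsWeakSolution Ω ν T u G f)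
    {ψ : ℝ → ℝ} (hψ0 : ∀ t, 0 ≤ ψ t) (hψ : IntegrableOn ψ (Ioo 0 T))
    (hb : ∀ᵐ τ ∂(volume.restrict (Ioo 0 T)), ∀ᵐ r ∂(volume.restrict (Ioo 0 T)), r < τ →
      flux (u r).fn (G τ) ≤ ψ r + ψ τ + |r - τ| * (ψ r * ψ τ)) :
    ∀ s t, 0 ≤ s → s ≤ t → t ≤ T → energyDefect ν u G f s ≤ energyDefect ν u G f t := by
  refine ns_back (Ω := (Ω : Set H772R2.NS.E3)) hΩ hν hT (toNS hu) hψ0 hψ ?_
  filter_upwards [hb] with τ h1
  filter_upwards [h1, flux_one hΩ hu] with r h2 h3 hlt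
  exact le_trans (le_of_eq (h3 (G τ)).symm) (h2 hlt)

theorem pub_forw (hΩ : IsOpen Ω) (hν : 0 ≤ ν) (hT : 0 < T) (hu : IsWeakSolution Ω ν T u G f)
    {ψ : ℝ → ℝ} (hψ0 : ∀ t, 0 ≤ ψ t) (hψ : IntegrableOn ψ (Ioo 0 T))
    (hb : ∀ᵐ τ ∂(volume.restrict (Ioo 0 T)), ∀ᵐ r ∂(volume.restrict (Ioo 0 T)), τ < r →
      -(ψ r + ψ τ + |r - τ| * (ψ r * ψ τ)) ≤ flux (u r).fn (G τ)) :
    (∀ s t, 0 ≤ s → s ≤ t → t ≤ T → energyDefect ν u G f t ≤ energyDefect ν u G f s) ∧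
    (0 ≤ energyDefect ν u G f T → ∀ t ∈ Icc 0 T, energyDefect ν u G f t = 0) := by
  refine ns_forw (Ω := (Ω : Set H772R2.NS.E3)) hΩ hν hT (toNS hu) hψ0 hψ ?_
  filter_upwards [hb] with τ h1
  filter_upwards [h1, flux_one hΩ hu] with r h2 h3 hlt
  exact le_trans (h2 hlt) (le_of_eq (h3 (G τ)))

/-- the admissible size of the negative part of the triple product -/
noncomputable def rate {n : ℕ} (K p : ℝ) (u : ℝ → L2 Ω R3) (G : ℝ → L2 Ω Mat)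
    (V : Fin n → Fin 3 → ℝ → R3 → ℝ) (s t : ℝ) (x : R3) : ℝ :=
  K * modulus p u s t * (‖(G s).fn x‖ * ‖(u s).fn x‖ * ‖(u t).fn x‖)
    + ∑ l, V l 0 s x * V l 1 s x * V l 2 t x

theorem pub_pair (hΩ : IsOpen Ω) (hT : 0 < T)
    (hu : IsWeakSolution Ω ν T u G f)
    {K p : ℝ} (hK : 0 ≤ K) (hp : 8 / 3 ≤ p) (hp4 : p ≤ 4)
    (h4 : p ≠ 8 / 3 → ∫⁻ t in Ioo 0 T, norm4 (u t) ^ p ≠ ⊤)
    {n : ℕ} {a b : Fin n → Fin 3 → ℝ≥0∞}
    (hab : ∀ l, Admissible Ω (a l 0) (b l 0) (a l 1) (b l 1) (a l 2) (b l 2))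
    {V : Fin n → Fin 3 → ℝ → R3 → ℝ} (hV : ∀ l m, Mixed Ω T (a l m) (b l m) (V l m)) :
    ∃ ψ : ℝ → ℝ, (∀ t, 0 ≤ ψ t) ∧ IntegrableOn ψ (Ioo 0 T) ∧
      ∀ᵐ t ∂(volume.restrict (Ioo 0 T)), ∀ᵐ s ∂(volume.restrict (Ioo 0 T)), ∀ σ : ℝ,
        (∀ᵐ x ∂(volume.restrict Ω),
          -(rate K p u G V s t x) ≤ σ * turn ((G s).fn x) ((u s).fn x) ((u t).fn x)) →
        -(ψ s + ψ t + |s - t| * (ψ s * ψ t)) ≤ σ * flux (u s).fn (G t) * (-1) := by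
  have hu' := toNS hu
  choose B hB hVB using hV
  have h4' : IntegrableOn (fun t => H772R2.NS.n4 (Ω := (Ω : Set H772R2.NS.E3)) (u t) ^ p)
      (Ioo 0 T) := by
    rcases eq_or_ne p (8 / 3) with h | h
    · rw [h]
      exact n4_auto (Ω := (Ω : Set H772R2.NS.E3)) hΩ hu'
    · exact n4_int (Ω := (Ω : Set H772R2.NS.E3)) hΩ hu' (h4 h)
  obtain ⟨ψ, h1, h2, h3⟩ := pair_bound (Ω := (Ω : Set H772R2.NS.E3)) hΩ hT hu' hK hp hp4 h4'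
    (a := a) (b := b) (fun l => (hab l).1) (fun l => (hab l).2.1) (fun h l => (hab l).2.2 h)
    (V := V) (B := B) hB hVB
  refine ⟨ψ, h1, h2, ?_⟩
  filter_upwards [h3] with t ht
  filter_upwards [ht, flux_one hΩ hu] with s hs hf σ hx
  have k := hs σ (by
    filter_upwards [hx] with x hxx
    have g2 := wedge_eq ((u s).fn x) ((u t).fn x)
    have g3 : ⟪alt ((u s).fn x) ((u t).fn x), (G s).fn x⟫_ℝ
        = ⟪(G s).fn x, wedge ((u s).fn x) ((u t).fn x)⟫_ℝ := by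
      rw [← g2]
      exact real_inner_comm _ _
    have g4 : σ * ⟪(G s).fn x, wedge ((u s).fn x) ((u t).fn x)⟫_ℝ
        ≤ ‖(G s).fn x‖ * (K * modulus p u s t * (‖(u s).fn x‖ * ‖(u t).fn x‖))
          + ∑ l, V l 0 s x * V l 1 s x * V l 2 t x := by
      have hxx' : -(rate K p u G V s t x)
          ≤ σ * turn ((G s).fn x) ((u s).fn x) ((u t).fn x) := hxx
      simp only [rate, turn] at hxx'
      have e : ‖(G s).fn x‖ * (K * modulus p u s t * (‖(u s).fn x‖ * ‖(u t).fn x‖))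
          = K * modulus p u s t * (‖(G s).fn x‖ * ‖(u s).fn x‖ * ‖(u t).fn x‖) := by ring
      rw [e]
      linarith
    exact (le_of_eq (congrArg (fun y => σ * y) g3)).trans g4)
  rw [hf (G t)]
  have k' : σ * ⟪H772R2.NS.tensL (Ω := (Ω : Set H772R2.NS.E3)) (u s), G t⟫_ℝ
      ≤ ψ s + ψ t + |s - t| * (ψ s * ψ t) := k
  linarith

/-- **The velocity turns in the positive sense about the vorticity of the earlier time.** -/
theorem pub_turn_back (hΩ : IsOpen Ω) (hν : 0 ≤ ν) (hT : 0 < T)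
    (hu : IsWeakSolution Ω ν T u G f)
    {K p : ℝ} (hK : 0 ≤ K) (hp : 8 / 3 ≤ p) (hp4 : p ≤ 4)
    (h4 : p ≠ 8 / 3 → ∫⁻ t in Ioo 0 T, norm4 (u t) ^ p ≠ ⊤)
    {n : ℕ} {a b : Fin n → Fin 3 → ℝ≥0∞}
    (hab : ∀ l, Admissible Ω (a l 0) (b l 0) (a l 1) (b l 1) (a l 2) (b l 2))
    {V : Fin n → Fin 3 → ℝ → R3 → ℝ} (hV : ∀ l m, Mixed Ω T (a l m) (b l m) (V l m))
    (hyp : ∀ᵐ t ∂(volume.restrict (Ioo 0 T)), ∀ᵐ s ∂(volume.restrict (Ioo 0 T)), s < t →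
      ∀ᵐ x ∂(volume.restrict Ω),
        -(rate K p u G V s t x) ≤ turn ((G s).fn x) ((u s).fn x) ((u t).fn x)) :
    ∀ s t, 0 ≤ s → s ≤ t → t ≤ T → energyDefect ν u G f s ≤ energyDefect ν u G f t := by
  obtain ⟨ψ, h1, h2, h3⟩ := pub_pair hΩ hT hu hK hp hp4 h4 hab hV
  refine pub_back hΩ hν hT hu h1 h2 ?_
  filter_upwards [h3, hyp] with t k1 k2
  filter_upwards [k1, k2] with s k3 k4 hlt
  have := k3 1 (by
    filter_upwards [k4 hlt] with x hx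
    rw [one_mul]
    exact hx)
  linarith

theorem turn_swap (z : Mat) (a b : R3) : turn z a b = -turn z b a := by
  unfold turn
  have hA : ∀ a b : H772R2.NS.E3, alt a b = -alt b a := fun a b => by
    ext i
    simp only [alt_apply, PiLp.neg_apply]
    ring
  have h : (wedge a b : H772R2.NS.M3) = -(wedge b a : H772R2.NS.M3) :=
    (wedge_eq a b).trans ((hA a b).trans
      (congrArg (fun y : H772R2.NS.M3 => -y) (wedge_eq b a).symm))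
  have h2 : ⟪z, wedge a b⟫_ℝ = ⟪z, -(wedge b a : H772R2.NS.M3)⟫_ℝ := congrArg (fun y => ⟪z, y⟫_ℝ) h
  rw [h2]
  have h3 : ⟪(z : H772R2.NS.M3), -(wedge b a : H772R2.NS.M3)⟫_ℝ
      = -⟪(z : H772R2.NS.M3), (wedge b a : H772R2.NS.M3)⟫_ℝ := inner_neg_right _ _
  rw [neg_neg]
  have h4 : ⟪z, -(wedge b a : H772R2.NS.M3)⟫_ℝ = -⟪z, wedge b a⟫_ℝ := h3
  rw [h4, neg_neg]

/-- **The velocity turns in the positive sense about the vorticity of the later time.** -/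
theorem pub_turn_forw (hΩ : IsOpen Ω) (hν : 0 ≤ ν) (hT : 0 < T)
    (hu : IsWeakSolution Ω ν T u G f)
    {K p : ℝ} (hK : 0 ≤ K) (hp : 8 / 3 ≤ p) (hp4 : p ≤ 4)
    (h4 : p ≠ 8 / 3 → ∫⁻ t in Ioo 0 T, norm4 (u t) ^ p ≠ ⊤)
    {n : ℕ} {a b : Fin n → Fin 3 → ℝ≥0∞}
    (hab : ∀ l, Admissible Ω (a l 0) (b l 0) (a l 1) (b l 1) (a l 2) (b l 2))
    {V : Fin n → Fin 3 → ℝ → R3 → ℝ} (hV : ∀ l m, Mixed Ω T (a l m) (b l m) (V l m))
    (hyp : ∀ᵐ t ∂(volume.restrict (Ioo 0 T)), ∀ᵐ s ∂(volume.restrict (Ioo 0 T)), t < s →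
      ∀ᵐ x ∂(volume.restrict Ω),
        -(rate K p u G V s t x) ≤ turn ((G s).fn x) ((u t).fn x) ((u s).fn x)) :
    (∀ s t, 0 ≤ s → s ≤ t → t ≤ T → energyDefect ν u G f t ≤ energyDefect ν u G f s) ∧
    (0 ≤ energyDefect ν u G f T → ∀ t ∈ Icc 0 T, energyDefect ν u G f t = 0) := by
  obtain ⟨ψ, h1, h2, h3⟩ := pub_pair hΩ hT hu hK hp hp4 h4 hab hV
  refine pub_forw hΩ hν hT hu h1 h2 ?_
  filter_upwards [h3, hyp] with t k1 k2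
  filter_upwards [k1, k2] with s k3 k4 hlt
  have := k3 (-1) (by
    filter_upwards [k4 hlt] with x hx
    rw [turn_swap] at hx
    linarith)
  linarith

end Pool.Agent.P8H70.TF
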