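import Pool.Agent.P8H70.TF.Mono
import Pool.Agent.TH301.EQ.PubCor

/-!
Time reversal, and the one-sided criteria for abstract weak solutions.
-/

set_option autoImplicit false
set_option linter.unusedSectionVars false

open MeasureTheory Set Filter Topology
open scoped InnerProductSpace ENNReal NNReal

namespace Pool.Agent.P8H70.TF

open H772R2.NS

variable {H : Type} [NormedAddCommGroup H] [InnerProductSpace ℝ H] [CompleteSpace H]
variable {T M : ℝ} {u : ℝ → H} {g p : ℝ → ℝ}

theorem refl_mp (T : ℝ) : MeasurePreserving (fun x : ℝ => T - x) (volume.restrict (Ioc 0 T))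
    (volume.restrict (Ioc 0 T)) := by
  rw [restrict_Ioc_eq]
  have h := (Measure.measurePreserving_sub_left (volume : Measure ℝ) T).restrict_preimage
    (s := Ioo 0 T) measurableSet_Ioo
  have e : (fun x : ℝ => T - x) ⁻¹' Ioo 0 T = Ioo 0 T := by
    ext x
    simp only [mem_preimage, mem_Ioo]
    constructor <;> rintro ⟨h1, h2⟩ <;> constructor <;> linarith
  rwa [e] at h

/-- the energy is nowhere lost -/
theorem rev_all (fat : S_FAT) (T0 : 0 < T) (meas : AEStronglyMeasurable u (volume.restrict (Ioc 0 T)))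
    (bdd : ∀ t ∈ Icc 0 T, ‖u t‖ ≤ M)
    (wcont : ∀ v : H, ContinuousOn (fun t => ⟪u t, v⟫_ℝ) (Icc 0 T))
    (gi : IntegrableOn g (Ioc 0 T)) (pi : IntegrableOn p (Ioc 0 T))
    (der : ∀ᵐ τ ∂(volume.restrict (Ioc 0 T)), HasDerivAt (fun x => ⟪u x, u τ⟫_ℝ) (p τ) τ)
    (bound : ∀ᵐ τ ∂(volume.restrict (Ioc 0 T)), ∀ x ∈ Icc τ T,
      -((∫ r in τ..x, g r) + (x - τ) * g τ) ≤ ⟪u x - u τ, u τ⟫_ℝ)
    {s t : ℝ} (hs : 0 ≤ s) (hst : s ≤ t) (htT : t ≤ T) :
    ∫ τ in s..t, p τ ≤ ‖u t‖ ^ 2 / 2 - ‖u s‖ ^ 2 / 2 := by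
  have ρ := refl_mp T
  have hmap : MapsTo (fun x : ℝ => T - x) (Icc 0 T) (Icc 0 T) := fun x hx =>
    ⟨by linarith [hx.2], by linarith [hx.1]⟩
  have C : Corr T M (fun x => u (T - x)) (fun x => g (T - x)) (fun x => -p (T - x)) :=
    { T0 := T0
      meas := meas.comp_measurePreserving ρ
      bdd := fun t ht => bdd _ (hmap ht)
      wcont := fun v => (wcont v).comp (by fun_prop) hmap
      gi := (ρ.integrable_comp gi.aestronglyMeasurable).2 gi
      pi := ((ρ.integrable_comp pi.aestronglyMeasurable).2 pi).neg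
      der := by
        filter_upwards [ρ.quasiMeasurePreserving.ae der] with τ hτ
        exact hτ.comp_const_sub T τ
      bound := by
        filter_upwards [ρ.quasiMeasurePreserving.ae bound] with τ hτ x hx
        have h1 := hτ (T - x) ⟨by linarith [hx.2], by linarith [hx.1]⟩
        rw [intervalIntegral.integral_comp_sub_left (fun r => g r) T]
        have e1 : ⟪u (T - τ) - u (T - x), u (T - τ)⟫_ℝ = -⟪u (T - x) - u (T - τ), u (T - τ)⟫_ℝ := by
          rw [← inner_neg_left]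
          congr 1
          abel
        rw [e1]
        have e2 : T - x - (T - τ) = τ - x := by ring
        rw [e2] at h1
        linarith }
  have key := C.all fat (s := T - t) (t := T - s) (by linarith) (by linarith) (by linarith)
  rw [sub_sub_cancel, sub_sub_cancel, intervalIntegral.integral_neg,
    intervalIntegral.integral_comp_sub_left (fun r => p r) T, sub_sub_cancel, sub_sub_cancel] at key
  linarith

variable {K : Type} [NormedAddCommGroup K] [InnerProductSpace ℝ K] [CompleteSpace K]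
variable {W : Submodule ℝ (H × K)} {ν : ℝ} {G m : ℝ → K} {f : ℝ → H}

theorem sub_defect (S : Sol W T M ν u G m f) {s t : ℝ} (hs : 0 ≤ s) (hst : s ≤ t) (htT : t ≤ T) :
    defect ν u G f t - defect ν u G f s
      = (∫ τ in s..t, pow ν u G f τ) - (‖u t‖ ^ 2 / 2 - ‖u s‖ ^ 2 / 2) := by
  rw [S.defect_sub hs hst htT]
  ring

/-- the derivative of the correlation -/
theorem sol_der (S : Sol W T M ν u G m f) (T0 : 0 < T) :
    ∀ᵐ τ ∂(volume.restrict (Ioc 0 T)),
      HasDerivAt (fun x => ⟪u x, u τ⟫_ℝ) (pow ν u G f τ) τ := by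
  have mi : IntervalIntegrable m volume 0 T := by
    rw [intervalIntegrable_iff_integrableOn_Ioc_of_le T0.le]; exact S.mint
  have Gi : IntervalIntegrable G volume 0 T := by
    rw [intervalIntegrable_iff_integrableOn_Ioc_of_le T0.le]; exact S.Gint
  have fi : IntervalIntegrable f volume 0 T := by
    rw [intervalIntegrable_iff_integrableOn_Ioc_of_le T0.le]; exact S.fint
  have hI : uIcc 0 T = Icc 0 T := uIcc_of_le T0.le
  have hmW := S.memW
  have hor := S.ortho
  rw [ae_restrict_iff' measurableSet_Ioc] at hmW hor ⊢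
  have hTne : ∀ᵐ x : ℝ, x ≠ T := by simp [ae_iff, measure_singleton]
  filter_upwards [mi.ae_hasDerivAt_integral, Gi.ae_hasDerivAt_integral,
    fi.ae_hasDerivAt_integral, hmW, hor, hTne] with τ h1 h2 h3 h4 h5 h6 hτ
  have hτI : τ ∈ uIcc 0 T := by rw [hI]; exact Ioc_subset_Icc_self hτ
  have h0 : (0 : ℝ) ∈ uIcc 0 T := left_mem_uIcc
  have d1 := (h1 hτI 0 h0).inner ℝ (hasDerivAt_const τ (G τ))
  have d2 := (h2 hτI 0 h0).inner ℝ (hasDerivAt_const τ (G τ))
  have d3 := (h3 hτI 0 h0).inner ℝ (hasDerivAt_const τ (u τ))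
  simp only [inner_zero_right, zero_add] at d1 d2 d3
  have d4 := ((d1.sub (d2.const_mul ν)).add d3).const_add ⟪u 0, u τ⟫_ℝ
  rw [h5 hτ, real_inner_self_eq_norm_sq] at d4
  have e : 0 - ν * ‖G τ‖ ^ 2 + ⟪f τ, u τ⟫_ℝ = pow ν u G f τ := by
    unfold pow; ring
  rw [e] at d4
  refine d4.congr_of_eventuallyEq ?_
  have hlt : τ < T := lt_of_le_of_ne hτ.2 h6
  filter_upwards [Ioo_mem_nhds hτ.1 hlt] with x hx
  have hw := S.weak _ (h4 hτ) 0 x le_rfl hx.1.le hx.2.le
  have hsub : Ioc 0 x ⊆ Ioc 0 T := Ioc_subset_Ioc_right hx.2.le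
  have i1 : IntegrableOn m (Ioc 0 x) := S.mint.mono_measure (Measure.restrict_mono_set volume hsub)
  have i2 : IntegrableOn G (Ioc 0 x) := S.Gint.mono_measure (Measure.restrict_mono_set volume hsub)
  have i3 : IntegrableOn f (Ioc 0 x) := S.fint.mono_measure (Measure.restrict_mono_set volume hsub)
  have e1 : ⟪∫ r in (0 : ℝ)..x, m r, G τ⟫_ℝ = ∫ r in (0 : ℝ)..x, ⟪m r, G τ⟫_ℝ := by
    rw [intervalIntegral.integral_of_le hx.1.le, intervalIntegral.integral_of_le hx.1.le,
      real_inner_comm, ← integral_inner i1]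
    simp_rw [real_inner_comm]
  have e2 : ⟪∫ r in (0 : ℝ)..x, G r, G τ⟫_ℝ = ∫ r in (0 : ℝ)..x, ⟪G r, G τ⟫_ℝ := by
    rw [intervalIntegral.integral_of_le hx.1.le, intervalIntegral.integral_of_le hx.1.le,
      real_inner_comm, ← integral_inner i2]
    simp_rw [real_inner_comm]
  have e3 : ⟪∫ r in (0 : ℝ)..x, f r, u τ⟫_ℝ = ∫ r in (0 : ℝ)..x, ⟪f r, u τ⟫_ℝ := by
    rw [intervalIntegral.integral_of_le hx.1.le, intervalIntegral.integral_of_le hx.1.le,
      real_inner_comm, ← integral_inner i3]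
    simp_rw [real_inner_comm]
  simp only [Pi.add_apply, Pi.sub_apply]
  simp only at hw
  have j1 : IntervalIntegrable (fun r => ⟪m r, G τ⟫_ℝ) volume 0 x := by
    rw [intervalIntegrable_iff_integrableOn_Ioc_of_le hx.1.le]
    exact i1.inner_const (G τ)
  have j2 : IntervalIntegrable (fun r => ν * ⟪G r, G τ⟫_ℝ) volume 0 x := by
    rw [intervalIntegrable_iff_integrableOn_Ioc_of_le hx.1.le]
    exact (i2.inner_const (G τ)).const_mul ν
  have j3 : IntervalIntegrable (fun r => ⟪f r, u τ⟫_ℝ) volume 0 x := by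
    rw [intervalIntegrable_iff_integrableOn_Ioc_of_le hx.1.le]
    exact i3.inner_const (u τ)
  rw [intervalIntegral.integral_add (j1.sub j2) j3, intervalIntegral.integral_sub j1 j2,
    intervalIntegral.integral_const_mul] at hw
  rw [e1, e2, e3]
  linarith

/-- **Backward criterion** for the correlations. -/
theorem sol_back (fat : S_FAT) (S : Sol W T M ν u G m f) (T0 : 0 < T)
    (gi : IntegrableOn g (Ioc 0 T))
    (bound : ∀ᵐ τ ∂(volume.restrict (Ioc 0 T)), ∀ x ∈ Icc 0 τ,
      ⟪u τ - u x, u τ⟫_ℝ ≤ (∫ r in x..τ, g r) + (τ - x) * g τ)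
    {s t : ℝ} (hs : 0 ≤ s) (hst : s ≤ t) (htT : t ≤ T) :
    defect ν u G f s ≤ defect ν u G f t := by
  have C : Corr T M u g (pow ν u G f) :=
    { T0 := T0, meas := S.umeas, bdd := S.bdd, wcont := S.wcont, gi := gi, pi := S.pow_int
      der := sol_der S T0, bound := bound }
  have h1 := C.all fat hs hst htT
  have h2 := sub_defect S hs hst htT
  linarith

/-- **Forward criterion** for the correlations. -/
theorem sol_forw (fat : S_FAT) (S : Sol W T M ν u G m f) (T0 : 0 < T)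
    (gi : IntegrableOn g (Ioc 0 T))
    (bound : ∀ᵐ τ ∂(volume.restrict (Ioc 0 T)), ∀ x ∈ Icc τ T,
      -((∫ r in τ..x, g r) + (x - τ) * g τ) ≤ ⟪u x - u τ, u τ⟫_ℝ)
    {s t : ℝ} (hs : 0 ≤ s) (hst : s ≤ t) (htT : t ≤ T) :
    defect ν u G f t ≤ defect ν u G f s := by
  have h1 := rev_all fat T0 S.umeas S.bdd S.wcont gi S.pow_int (sol_der S T0) bound hs hst htT
  have h2 := sub_defect S hs hst htT
  linarith

end Pool.Agent.P8H70.TF
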