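import Mathlib

/-!
# Project TF (MP_a38b17_an): the energy defect from the increments of the velocity in time

Four independent packages, Mathlib only. `H`, `K` are real Hilbert spaces.

* SHIFT (40-60 lines). For `h` small the support of `θ` is in `[h, T - h]`, and the substitution
  `τ ↦ τ + h` gives
  `(1/h) ∫ θ(τ) ⟪u(τ+h) - u(τ-h), u(τ)⟫ dτ = - ∫ ((θ(τ+h) - θ(τ))/h) ⟪u(τ+h), u(τ)⟫ dτ`
  (integrals over the line, the integrands vanish outside of `(0,T)`).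
  Dominated convergence: `(θ(τ+h) - θ(τ))/h → θ'(τ)` a.e. (Rademacher,
  `LipschitzWith.ae_differentiableAt` or `LipschitzWith.ae_lineDifferentiableAt`), bounded by `C`;
  `⟪u(τ+h), u(τ)⟫ → ‖u(τ)‖²` for EVERY `τ ∈ (0,T)` by the weak continuity, bounded by `M²`.
  Measurability of `τ ↦ u(τ+h)`: `AEStronglyMeasurable.comp_measurePreserving`-type lemma.
* SWAP (60-100 lines). `Φ_h(r,τ) = ⟪m r, G τ⟫ 1_{|r-τ| < h}` is integrable on the plane,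
  since `‖m r‖ ‖G τ‖` is (`Integrable.mul_prod` or `Integrable.prod_mul`). By Fubini the two integrals
  are `∫∫ θ(r) Φ_h` and `∫∫ θ(τ) Φ_h`, the difference is at most
  `∫∫ |θ(r) - θ(τ)| |Φ_h| ≤ C h ∫∫_{|r-τ| < h} ‖m r‖ ‖G τ‖`, and this last integral tends to zero
  by dominated convergence, since the diagonal of the plane is a null set.
* AVG (80-120 lines). For `A ∈ L²`, averages. Let `A_h(τ) = (1/h) ∫_{τ-h}^{τ+h} A`. Then
  `A_h → 2 A` in `L²` (in `L¹` for part two): for continuous functions with compact support by uniform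
  continuity, the general case by density and `‖A_h‖_p ≤ 2 ‖A‖_p`. Alternatively: `A_h(τ) → 2 A(τ)`
  for a.e. `τ` (`IntervalIntegrable.ae_hasDerivAt_integral`) and Fatou's lemma for
  `avg (‖A‖²) + 2 ‖A τ‖² ± 2 ⟪A_h(τ), A τ⟫ ≥ 0` (a generalised dominated convergence, since
  `∫ (1/h) ∫_{τ-h}^{τ+h} ‖A‖² = 2 ∫ ‖A‖²`).
* FAT (30-50 lines). Fatou's lemma for real functions: `∫ ofReal(F) ≤ liminf ∫ ofReal(F_n)`.
-/

set_option autoImplicit false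

open MeasureTheory Set Filter Topology
open scoped InnerProductSpace ENNReal NNReal

namespace Pool.Agent.P8H70.TF

/-- SHIFT -/
def S_SHIFT : Prop :=
  ∀ (H : Type) [NormedAddCommGroup H] [InnerProductSpace ℝ H] [CompleteSpace H] (T M : ℝ)
    (u : ℝ → H) (θ : ℝ → ℝ) (C : ℝ≥0), 0 < T →
    AEStronglyMeasurable u (volume.restrict (Ioo 0 T)) → (∀ t ∈ Icc 0 T, ‖u t‖ ≤ M) →
    (∀ v : H, ContinuousOn (fun t => ⟪u t, v⟫_ℝ) (Icc 0 T)) →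
    LipschitzWith C θ → tsupport θ ⊆ Ioo 0 T →
    Tendsto (fun h : ℝ => (1 / h) * ∫ τ in (0 : ℝ)..T, θ τ * ⟪u (τ + h) - u (τ - h), u τ⟫_ℝ)
      (𝓝[>] 0) (𝓝 (-∫ τ in (0 : ℝ)..T, deriv θ τ * ‖u τ‖ ^ 2))

/-- SWAP -/
def S_SWAP : Prop :=
  ∀ (K : Type) [NormedAddCommGroup K] [InnerProductSpace ℝ K] [CompleteSpace K]
    (m G : ℝ → K) (θ : ℝ → ℝ) (C : ℝ≥0), Integrable m → Integrable G →
    LipschitzWith C θ → HasCompactSupport θ →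
    Tendsto (fun h : ℝ => (1 / h) * (∫ τ, θ τ * ∫ r in (τ - h)..(τ + h), ⟪m τ, G r⟫_ℝ)
      - (1 / h) * ∫ τ, θ τ * ∫ r in (τ - h)..(τ + h), ⟪m r, G τ⟫_ℝ) (𝓝[>] 0) (𝓝 0)

/-- AVG (two parts) -/
def S_AVG : Prop :=
  ∀ (K : Type) [NormedAddCommGroup K] [InnerProductSpace ℝ K] [CompleteSpace K]
    (θ : ℝ → ℝ), Continuous θ → HasCompactSupport θ →
    (∀ A : ℝ → K, MemLp A 2 →
      Tendsto (fun h : ℝ => (1 / h) * ∫ τ, θ τ * ∫ r in (τ - h)..(τ + h), ⟪A r, A τ⟫_ℝ)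
        (𝓝[>] 0) (𝓝 (2 * ∫ τ, θ τ * ‖A τ‖ ^ 2))) ∧
    (∀ (A B : ℝ → K) (M : ℝ), Integrable A → AEStronglyMeasurable B volume →
      (∀ t, ‖B t‖ ≤ M) →
      Tendsto (fun h : ℝ => (1 / h) * ∫ τ, θ τ * ∫ r in (τ - h)..(τ + h), ⟪A r, B τ⟫_ℝ)
        (𝓝[>] 0) (𝓝 (2 * ∫ τ, θ τ * ⟪A τ, B τ⟫_ℝ)))

/-- FAT -/
def S_FAT : Prop :=
  ∀ (α : Type) [MeasurableSpace α] (μ : Measure α) (F : ℕ → α → ℝ) (F' : α → ℝ) (C : ℕ → ℝ)
    (c : ℝ), (∀ n, Integrable (F n) μ) → (∀ n, ∀ᵐ x ∂μ, 0 ≤ F n x) → Integrable F' μ →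
    (∀ᵐ x ∂μ, Tendsto (fun n => F n x) atTop (𝓝 (F' x))) → (∀ᶠ n in atTop, ∫ x, F n x ∂μ ≤ C n) →
    Tendsto C atTop (𝓝 c) → ∫ x, F' x ∂μ ≤ c

end Pool.Agent.P8H70.TF
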