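import Pool.Agent.P8H70.TF.Gen

/-!
The strain along the increments of the velocity in time.
-/

set_option autoImplicit false
set_option linter.unusedSectionVars false

open MeasureTheory Set Filter Topology
open scoped InnerProductSpace ENNReal ContDiff NNReal

namespace Pool.Agent.P8H70.TF

open H772R2.NS.Pub Pool.Agent.TH301.EQ Pool.Agent.P8H70.EC

/-- the dual exponent -/
noncomputable def dual (a : ℝ≥0∞) : ℝ≥0∞ := ((1 - 1 / a) / 2)⁻¹

theorem one_div_dual (a : ℝ≥0∞) : 1 / dual a = (1 - 1 / a) / 2 := by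
  unfold dual
  rw [one_div, inv_inv]

theorem dual_sum {a : ℝ≥0∞} (ha : 1 / a ≤ 1) : 1 / a + 1 / dual a + 1 / dual a = 1 := by
  rw [one_div_dual, add_assoc, ENNReal.add_halves, add_tsub_cancel_of_le ha]

theorem dual_ne_zero (a : ℝ≥0∞) : dual a ≠ 0 := by
  unfold dual
  rw [Ne, ENNReal.inv_eq_zero]
  exact (ENNReal.div_lt_top (lt_of_le_of_lt tsub_le_self ENNReal.one_lt_top).ne
    (by norm_num)).ne

theorem dual_real {a : ℝ≥0∞} (ha : 1 / a ≤ 1) :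
    (1 / dual a).toReal = (1 - (1 / a).toReal) / 2 := by
  rw [one_div_dual, ENNReal.toReal_div, ENNReal.toReal_sub_of_le ha ENNReal.one_ne_top]
  simp

theorem crit_exp {a b : ℝ≥0∞} (hab : 2 / a + 3 / b = 2) :
    1 / a ≤ 1 ∧ 1 / b ≤ 1 ∧ 2 * (1 / a).toReal + 3 * (1 / b).toReal = 2 := by
  have h1 : 2 / a ≤ 2 := (le_self_add (a := 2 / a) (b := 3 / b)).trans_eq hab
  have h2 : 3 / b ≤ 2 := (le_add_self (a := 3 / b) (b := 2 / a)).trans_eq hab
  have n1 : 2 / a ≠ ⊤ := ne_top_of_le_ne_top (by norm_num) h1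
  have n2 : 3 / b ≠ ⊤ := ne_top_of_le_ne_top (by norm_num) h2
  have e1 : 2 / a = 2 * (1 / a) := by rw [mul_one_div]
  have e2 : 3 / b = 3 * (1 / b) := by rw [mul_one_div]
  have h3 : (2 / a).toReal + (3 / b).toReal = 2 := by
    rw [← ENNReal.toReal_add n1 n2, hab]; simp
  rw [e1, e2, ENNReal.toReal_mul, ENNReal.toReal_mul] at h3
  simp only [ENNReal.toReal_ofNat] at h3
  have p1 : 0 ≤ (1 / a).toReal := ENNReal.toReal_nonneg
  have p2 : 0 ≤ (1 / b).toReal := ENNReal.toReal_nonneg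
  have m1 : 1 / a ≠ ⊤ := by
    intro h
    rw [e1, h] at n1
    exact n1 (by simp)
  have m2 : 1 / b ≠ ⊤ := by
    intro h
    rw [e2, h] at n2
    exact n2 (by simp)
  refine ⟨?_, ?_, h3⟩
  · exact (ENNReal.toReal_le_toReal m1 ENNReal.one_ne_top).1 (by
      rw [ENNReal.toReal_one]; linarith)
  · exact (ENNReal.toReal_le_toReal m2 ENNReal.one_ne_top).1 (by
      rw [ENNReal.toReal_one]; linarith)

variable {Ω : Set R3} {ν T : ℝ} {u : ℝ → L2 Ω R3} {G : ℝ → L2 Ω Mat} {f : ℝ → L2 Ω R3}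

/-- the dual class of a critical class of the strain -/
theorem mixed_u (hΩ : IsOpen Ω) (hu : IsWeakSolution Ω ν T u G f) {a b : ℝ≥0∞}
    (hab : 2 / a + 3 / b = 2) : Mixed Ω T (dual a) (dual b) (fun t x => ‖(u t).fn x‖) := by
  obtain ⟨h1, h2, h3⟩ := crit_exp hab
  have p1 : 0 ≤ (1 / a).toReal := ENNReal.toReal_nonneg
  have p2 : 0 ≤ (1 / b).toReal := ENNReal.toReal_nonneg
  obtain ⟨B, hB, hv⟩ := energy (Ω := (Ω : Set H772R2.NS.E3)) hΩ (toNS hu) (c := dual a)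
    (d := dual b) (dual_ne_zero a) (by rw [dual_real h2]; linarith)
    (by rw [dual_real h2]; linarith) (by rw [dual_real h1, dual_real h2]; linarith)
  exact Mixed.norm (E := R3) ⟨B, hB, hv⟩

theorem norm_tensor (a : R3) : ‖tensor a‖ = ‖a‖ ^ 2 := by
  have h : (tensor a : H772R2.NS.M3) = H772R2.NS.tens a := tensor_eq a
  calc ‖tensor a‖ = ‖(H772R2.NS.tens a : H772R2.NS.M3)‖ := congrArg (fun y : H772R2.NS.M3 => ‖y‖) h
    _ = _ := H772R2.NS.norm_tens a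

/-- the products for the strain -/
theorem strain_pair (hΩ : IsOpen Ω) (hu : IsWeakSolution Ω ν T u G f) {a b : ℝ≥0∞}
    (hab : 2 / a + 3 / b = 2) {g : ℝ → R3 → ℝ} (hg : Mixed Ω T a b g) :
    ∃ ψ : ℝ → ℝ, (∀ t, 0 ≤ ψ t) ∧ IntegrableOn ψ (Ioo 0 T) ∧
      ∀ᵐ t ∂(volume.restrict (Ioo 0 T)), ∀ᵐ s ∂(volume.restrict (Ioo 0 T)), ∀ F : R3 → ℝ,
        (∀ᵐ x ∂(volume.restrict Ω),
          F x ≤ (g s x + g t x) * ‖(u s).fn x - (u t).fn x‖ ^ 2) →
        ∫ x in Ω, F x ≤ ψ s + ψ t := by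
  obtain ⟨c1, c2, -⟩ := crit_exp hab
  have hm : ∀ (l : Bool × Bool) (m : Fin 3),
      Mixed Ω T (![a, dual a, dual a] m) (![b, dual b, dual b] m)
        ((![fun t x => 2 * |g t x|, fun t x => ‖(u t).fn x‖, fun t x => ‖(u t).fn x‖] :
          Fin 3 → ℝ → R3 → ℝ) m) := by
    intro l m
    fin_cases m
    · exact hg.abs.two_mul
    · exact mixed_u hΩ hu hab
    · exact mixed_u hΩ hu hab
  choose B hB hVB using hm
  obtain ⟨ψ, h1, h2, h3⟩ := pair_gen (Ω := (Ω : Set H772R2.NS.E3)) (T := T) (ι := Bool × Bool)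
    (a := fun _ => ![a, dual a, dual a]) (b := fun _ => ![b, dual b, dual b])
    (fun _ => (dual_sum c1).le) (fun _ => (dual_sum c2).le) (fun _ _ => dual_sum c2)
    (V := fun _ => ![fun t x => 2 * |g t x|, fun t x => ‖(u t).fn x‖,
      fun t x => ‖(u t).fn x‖]) (B := B)
    (fun l m => if m = 0 then l.1 else l.2) hB hVB
  refine ⟨ψ, h1, h2, ?_⟩
  filter_upwards [h3] with t ht
  filter_upwards [ht] with s hs F hF
  refine hs F ?_
  filter_upwards [hF] with x hx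
  have hx' : F x ≤ (g s x + g t x) * ‖(u s).fn x - (u t).fn x‖ ^ 2 := hx
  refine hx'.trans ?_
  have k1 : ‖(u s).fn x - (u t).fn x‖ ^ 2 ≤ 2 * (‖(u s).fn x‖ ^ 2 + ‖(u t).fn x‖ ^ 2) := by
    have h4 := norm_sub_le ((u s).fn x) ((u t).fn x)
    have h5 := norm_nonneg ((u s).fn x - (u t).fn x)
    have h6 : ‖(u s).fn x - (u t).fn x‖ ^ 2 ≤ (‖(u s).fn x‖ + ‖(u t).fn x‖) ^ 2 := by gcongr
    nlinarith [sq_nonneg (‖(u s).fn x‖ - ‖(u t).fn x‖)]
  have k2 : g s x + g t x ≤ |g s x| + |g t x| := add_le_add (le_abs_self _) (le_abs_self _)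
  have k3 : 0 ≤ |g s x| + |g t x| := by positivity
  calc (g s x + g t x) * ‖(u s).fn x - (u t).fn x‖ ^ 2
      ≤ (|g s x| + |g t x|) * ‖(u s).fn x - (u t).fn x‖ ^ 2 :=
        mul_le_mul_of_nonneg_right k2 (by positivity)
    _ ≤ (|g s x| + |g t x|) * (2 * (‖(u s).fn x‖ ^ 2 + ‖(u t).fn x‖ ^ 2)) :=
        mul_le_mul_of_nonneg_left k1 k3
    _ = 2 * |g s x| * ‖(u s).fn x‖ * ‖(u s).fn x‖ + 2 * |g s x| * ‖(u t).fn x‖ * ‖(u t).fn x‖
        + (2 * |g t x| * ‖(u s).fn x‖ * ‖(u s).fn x‖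
          + 2 * |g t x| * ‖(u t).fn x‖ * ‖(u t).fn x‖) := by ring
    _ = _ := by
        rw [Fintype.sum_prod_type, Fintype.sum_bool, Fintype.sum_bool, Fintype.sum_bool]
        rfl

/-- **The strain along the increments.** -/
theorem pub_strain (hΩ : IsOpen Ω) (hν : 0 ≤ ν) (hT : 0 < T)
    (hu : IsWeakSolution Ω ν T u G f) {a b : ℝ≥0∞}
    (hab : 2 / a + 3 / b = 2) {g : ℝ → R3 → ℝ} (hg : Mixed Ω T a b g) :
    ((∀ᵐ t ∂(volume.restrict (Ioo 0 T)), ∀ᵐ s ∂(volume.restrict (Ioo 0 T)),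
        ∀ᵐ x ∂(volume.restrict Ω), ⟪tensor ((u s).fn x - (u t).fn x), (G t).fn x⟫_ℝ
          ≤ (g s x + g t x) * ‖(u s).fn x - (u t).fn x‖ ^ 2) →
      ∀ᵐ s ∂(volume.restrict (Ioo 0 T)), ∀ t ∈ Icc s T,
        energyDefect ν u G f s ≤ energyDefect ν u G f t) ∧
    ((∀ᵐ t ∂(volume.restrict (Ioo 0 T)), ∀ᵐ s ∂(volume.restrict (Ioo 0 T)),
        ∀ᵐ x ∂(volume.restrict Ω), -((g s x + g t x) * ‖(u s).fn x - (u t).fn x‖ ^ 2)
          ≤ ⟪tensor ((u s).fn x - (u t).fn x), (G t).fn x⟫_ℝ) →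
      (∀ s ∈ Ico 0 T, ∀ᵐ t ∂(volume.restrict (Ioo s T)),
        energyDefect ν u G f t ≤ energyDefect ν u G f s) ∧
      ((∀ᵐ t ∂(volume.restrict (Ioo 0 T)), 0 ≤ energyDefect ν u G f t) →
        ∀ᵐ t ∂(volume.restrict (Ioo 0 T)), energyDefect ν u G f t = 0)) := by
  obtain ⟨ψ, h1, h2, h3⟩ := strain_pair hΩ hu hab hg
  have hb : ∀ s t : ℝ, ψ s + ψ t ≤ ψ s + ψ t + |s - t| * (ψ s * ψ t) := fun s t => by
    have := mul_nonneg (abs_nonneg (s - t)) (mul_nonneg (h1 s) (h1 t))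
    linarith
  constructor
  · intro h
    refine (pub_inc hΩ hν hT hu h1 h2).1 ?_
    filter_upwards [h, h3] with t k1 k2
    filter_upwards [k1, k2] with s k3 k4
    exact (k4 _ k3).trans (hb s t)
  · intro h
    refine (pub_inc hΩ hν hT hu h1 h2).2 ?_
    filter_upwards [h, h3] with t k1 k2
    filter_upwards [k1, k2] with s k3 k4
    have k5 := k4 (fun x => -⟪tensor ((u s).fn x - (u t).fn x), (G t).fn x⟫_ℝ) (by
      filter_upwards [k3] with x hx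
      have hx' : -((g s x + g t x) * ‖(u s).fn x - (u t).fn x‖ ^ 2)
          ≤ ⟪tensor ((u s).fn x - (u t).fn x), (G t).fn x⟫_ℝ := hx
      show -⟪tensor ((u s).fn x - (u t).fn x), (G t).fn x⟫_ℝ
        ≤ (g s x + g t x) * ‖(u s).fn x - (u t).fn x‖ ^ 2
      linarith)
    have k6 : ∫ x in Ω, -⟪tensor ((u s).fn x - (u t).fn x), (G t).fn x⟫_ℝ
        = -flux (fun x => (u s).fn x - (u t).fn x) (G t) := by
      rw [integral_neg]
      rfl
    rw [k6] at k5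
    have k7 := hb s t
    linarith

/-- the classes for the triple product -/
theorem turn_classes (hΩ : IsOpen Ω) (hu : IsWeakSolution Ω ν T u G f) {a b : ℝ≥0∞}
    (hab : 2 / a + 3 / b = 2) {g : ℝ → R3 → ℝ} (hg : Mixed Ω T a b g) :
    (∀ _ : Fin 1, Admissible Ω a b (dual a) (dual b) (dual a) (dual b)) ∧
    ∀ (l : Fin 1) (m : Fin 3),
      Mixed Ω T (![a, dual a, dual a] m) (![b, dual b, dual b] m)
        ((![g, fun t x => ‖(u t).fn x‖, fun t x => ‖(u t).fn x‖] :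
          Fin 3 → ℝ → R3 → ℝ) m) := by
  obtain ⟨c1, c2, -⟩ := crit_exp hab
  refine ⟨fun _ => ⟨(dual_sum c1).le, (dual_sum c2).le, fun _ => dual_sum c2⟩, ?_⟩
  intro l m
  fin_cases m
  · exact hg
  · exact mixed_u hΩ hu hab
  · exact mixed_u hΩ hu hab

/-- **Rotation, vorticity of the earlier time.** -/
theorem pub_rot_back (hΩ : IsOpen Ω) (hν : 0 ≤ ν) (hT : 0 < T)
    (hu : IsWeakSolution Ω ν T u G f) {a b : ℝ≥0∞}
    (hab : 2 / a + 3 / b = 2) {g : ℝ → R3 → ℝ} (hg : Mixed Ω T a b g)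
    {K p : ℝ} (hK : 0 ≤ K) (hp : 8 / 3 ≤ p) (hp4 : p ≤ 4)
    (h4 : p ≠ 8 / 3 → ∫⁻ t in Ioo 0 T, norm4 (u t) ^ p ≠ ⊤)
    (hyp : ∀ᵐ t ∂(volume.restrict (Ioo 0 T)), ∀ᵐ s ∂(volume.restrict (Ioo 0 T)), s < t →
      ∀ᵐ x ∂(volume.restrict Ω),
        -((K * modulus p u s t * ‖(G s).fn x‖ + g s x) * (‖(u s).fn x‖ * ‖(u t).fn x‖))
          ≤ turn ((G s).fn x) ((u s).fn x) ((u t).fn x)) :
    ∀ s t, 0 ≤ s → s ≤ t → t ≤ T → energyDefect ν u G f s ≤ energyDefect ν u G f t := by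
  obtain ⟨q1, q2⟩ := turn_classes hΩ hu hab hg
  refine pub_turn_back hΩ hν hT hu hK hp hp4 h4 (n := 1) (a := fun _ => ![a, dual a, dual a])
    (b := fun _ => ![b, dual b, dual b]) q1
    (V := fun _ => ![g, fun t x => ‖(u t).fn x‖, fun t x => ‖(u t).fn x‖]) q2 ?_
  filter_upwards [hyp] with t k1
  filter_upwards [k1] with s k2 hlt
  filter_upwards [k2 hlt] with x hx
  refine le_trans (le_of_eq ?_) hx
  have e : rate K p u G (fun _ : Fin 1 => ![g, fun t x => ‖(u t).fn x‖, fun t x => ‖(u t).fn x‖])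
      s t x = K * modulus p u s t * (‖(G s).fn x‖ * ‖(u s).fn x‖ * ‖(u t).fn x‖)
        + g s x * ‖(u s).fn x‖ * ‖(u t).fn x‖ := by
    unfold rate
    rw [Fin.sum_univ_one]
    rfl
  rw [e]
  ring

/-- **Rotation, vorticity of the later time.** -/
theorem pub_rot_forw (hΩ : IsOpen Ω) (hν : 0 ≤ ν) (hT : 0 < T)
    (hu : IsWeakSolution Ω ν T u G f) {a b : ℝ≥0∞}
    (hab : 2 / a + 3 / b = 2) {g : ℝ → R3 → ℝ} (hg : Mixed Ω T a b g)
    {K p : ℝ} (hK : 0 ≤ K) (hp : 8 / 3 ≤ p) (hp4 : p ≤ 4)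
    (h4 : p ≠ 8 / 3 → ∫⁻ t in Ioo 0 T, norm4 (u t) ^ p ≠ ⊤)
    (hyp : ∀ᵐ t ∂(volume.restrict (Ioo 0 T)), ∀ᵐ s ∂(volume.restrict (Ioo 0 T)), t < s →
      ∀ᵐ x ∂(volume.restrict Ω),
        -((K * modulus p u s t * ‖(G s).fn x‖ + g s x) * (‖(u s).fn x‖ * ‖(u t).fn x‖))
          ≤ turn ((G s).fn x) ((u t).fn x) ((u s).fn x)) :
    (∀ s t, 0 ≤ s → s ≤ t → t ≤ T → energyDefect ν u G f t ≤ energyDefect ν u G f s) ∧
    (0 ≤ energyDefect ν u G f T → ∀ t ∈ Icc 0 T, energyDefect ν u G f t = 0) := by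
  obtain ⟨q1, q2⟩ := turn_classes hΩ hu hab hg
  refine pub_turn_forw hΩ hν hT hu hK hp hp4 h4 (n := 1) (a := fun _ => ![a, dual a, dual a])
    (b := fun _ => ![b, dual b, dual b]) q1
    (V := fun _ => ![g, fun t x => ‖(u t).fn x‖, fun t x => ‖(u t).fn x‖]) q2 ?_
  filter_upwards [hyp] with t k1
  filter_upwards [k1] with s k2 hlt
  filter_upwards [k2 hlt] with x hx
  refine le_trans (le_of_eq ?_) hx
  have e : rate K p u G (fun _ : Fin 1 => ![g, fun t x => ‖(u t).fn x‖, fun t x => ‖(u t).fn x‖])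
      s t x = K * modulus p u s t * (‖(G s).fn x‖ * ‖(u s).fn x‖ * ‖(u t).fn x‖)
        + g s x * ‖(u s).fn x‖ * ‖(u t).fn x‖ := by
    unfold rate
    rw [Fin.sum_univ_one]
    rfl
  rw [e]
  ring

end Pool.Agent.P8H70.TF
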