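import Pool.Agent.P8H70.EC.Energy

/-!
The trilinear form from a one-sided pointwise bound of the triple product.
-/

set_option autoImplicit false
set_option linter.unusedSectionVars false

open MeasureTheory Set Filter Topology
open scoped InnerProductSpace ENNReal ContDiff NNReal

namespace Pool.Agent.P8H70.TF

open H772R2.NS Pool.Agent.TH301.EQ Pool.Agent.P8H70.EC

variable {Ω : Set E3}

/-- the integral is at most the integral of the positive part -/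
theorem ofReal_int_le {α : Type*} {mα : MeasurableSpace α} {μ : Measure α} (F : α → ℝ) :
    ENNReal.ofReal (∫ x, F x ∂μ) ≤ ∫⁻ x, ENNReal.ofReal (F x) ∂μ := by
  by_cases hF : Integrable F μ
  · have h1 : ∫ x, F x ∂μ ≤ ∫ x, max (F x) 0 ∂μ :=
      integral_mono hF (hF.pos_part) fun x => le_max_left _ _
    refine (ENNReal.ofReal_le_ofReal h1).trans ?_
    rw [ofReal_integral_eq_lintegral_ofReal hF.pos_part
      (Eventually.of_forall fun x => le_max_right _ _)]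
    refine lintegral_mono fun x => ?_
    rcases le_total (F x) 0 with h | h
    · rw [max_eq_right h]; simp
    · rw [max_eq_left h]
  · rw [integral_undef hF]; simp

/-- the trilinear form from a one-sided pointwise bound of the triple product -/
theorem tri_bound1 (hΩ : MeasurableSet Ω) {p q : L2V Ω × L2M Ω} (hp : p ∈ graphW Ω)
    (hq : q ∈ graphW Ω) {ι : Type} [Fintype ι] {b : ι → Fin 3 → ℝ≥0∞}
    (hb : ∀ l, 1 / b l 0 + 1 / b l 1 + 1 / b l 2 ≤ 1)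
    (hb' : volume Ω = ⊤ → ∀ l, 1 / b l 0 + 1 / b l 1 + 1 / b l 2 = 1) {W : ι → Fin 3 → E3 → ℝ}
    {B : ι → Fin 3 → ℝ} {k σ : ℝ} (hk : 0 ≤ k)
    (hW : ∀ l m, AEStronglyMeasurable (W l m) (volume.restrict Ω))
    (hWB : ∀ l m, eLpNorm (W l m) (b l m) (volume.restrict Ω) ≤ ENNReal.ofReal (B l m))
    (h : ∀ᵐ x ∂(volume.restrict Ω), σ * ⟪alt (p.1 x) (q.1 x), p.2 x⟫_ℝ
      ≤ ‖p.2 x‖ * (k * (‖p.1 x‖ * ‖q.1 x‖)) + ∑ l, W l 0 x * W l 1 x * W l 2 x) :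
    σ * ⟪tensL p.1, q.2⟫_ℝ
      ≤ ‖p.2‖ * (k * (n4 p.1 * n4 q.1))
        + (kap (volume.restrict Ω)).toReal * ∑ l, |B l 0| * |B l 1| * |B l 2| := by
  set μ : Measure E3 := volume.restrict Ω with hμ
  have mf : AEStronglyMeasurable (p.1 : E3 → E3) μ := Lp.aestronglyMeasurable p.1
  have mg : AEStronglyMeasurable (q.1 : E3 → E3) μ := Lp.aestronglyMeasurable q.1
  have mz : AEStronglyMeasurable (p.2 : E3 → M3) μ := Lp.aestronglyMeasurable p.2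
  set F1 : E3 → ℝ := fun x => k * (‖p.1 x‖ * ‖q.1 x‖) with hF1
  have m1 : AEStronglyMeasurable F1 μ := (mf.norm.mul mg.norm).const_mul k
  have g4 : ⟪tensL p.1, q.2⟫_ℝ = ∫ x in Ω, ⟪alt (p.1 x) (q.1 x), p.2 x⟫_ℝ := by
    rw [identity hΩ hp hq, L2.inner_def]
    apply integral_congr_ae
    filter_upwards [altL_coe hΩ hp hq] with x hx
    rw [hx]
  have g5 : σ * ⟪tensL p.1, q.2⟫_ℝ = ∫ x in Ω, σ * ⟪alt (p.1 x) (q.1 x), p.2 x⟫_ℝ := by
    rw [g4, integral_const_mul]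
  have s1 : ENNReal.ofReal (σ * ⟪tensL p.1, q.2⟫_ℝ)
      ≤ ∫⁻ x, (‖‖p.2 x‖ * F1 x‖ₑ + ∑ l, ‖W l 0 x * W l 1 x * W l 2 x‖ₑ) ∂μ := by
    rw [g5]
    refine (ofReal_int_le _).trans (lintegral_mono_ae ?_)
    filter_upwards [h] with x hx
    have a1 : ENNReal.ofReal (σ * ⟪alt (p.1 x) (q.1 x), p.2 x⟫_ℝ)
        ≤ ENNReal.ofReal (‖p.2 x‖ * F1 x + ∑ l, |W l 0 x * W l 1 x * W l 2 x|) := by
      refine ENNReal.ofReal_le_ofReal (hx.trans ?_)
      have : ∑ l, W l 0 x * W l 1 x * W l 2 x ≤ ∑ l, |W l 0 x * W l 1 x * W l 2 x| :=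
        Finset.sum_le_sum fun l _ => le_abs_self _
      simp only [hF1]
      linarith
    refine a1.trans ?_
    have a2 : 0 ≤ ‖p.2 x‖ * F1 x := by
      simp only [hF1]
      positivity
    rw [ENNReal.ofReal_add a2 (Finset.sum_nonneg fun l _ => abs_nonneg _),
      ENNReal.ofReal_sum_of_nonneg fun l _ => abs_nonneg _]
    refine add_le_add (le_of_eq ?_) (Finset.sum_le_sum fun l _ => le_of_eq ?_)
    · rw [Real.enorm_eq_ofReal a2]
    · rw [← ofReal_norm, Real.norm_eq_abs]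
  have s2 : ∫⁻ x, (‖‖p.2 x‖ * F1 x‖ₑ + ∑ l, ‖W l 0 x * W l 1 x * W l 2 x‖ₑ) ∂μ
      = ∫⁻ x, ‖‖p.2 x‖ * F1 x‖ₑ ∂μ + ∑ l, ∫⁻ x, ‖W l 0 x * W l 1 x * W l 2 x‖ₑ ∂μ := by
    have a1 : AEMeasurable (fun x => ‖‖p.2 x‖ * F1 x‖ₑ) μ := (mz.norm.mul m1).enorm
    rw [lintegral_add_left' a1, lintegral_finsetSum']
    intro l _
    exact (((hW l 0).mul (hW l 1)).mul (hW l 2)).enorm
  have s3 : ∫⁻ x, ‖‖p.2 x‖ * F1 x‖ₑ ∂μ
      ≤ ‖p.2‖ₑ * (ENNReal.ofReal k * (eLpNorm p.1 4 μ * eLpNorm q.1 4 μ)) := by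
    have a2 := eLpNorm_le_eLpNorm_mul_eLpNorm'_of_norm (p := 2) (q := 2) (r := 1) mz.norm m1
      (fun a b => a * b) 1 (Eventually.of_forall (fun x => by
        rw [norm_mul]; simp)) (μ := μ)
    rw [ENNReal.coe_one, one_mul, eLpNorm_norm, eLpNorm_one_eq_lintegral_enorm] at a2
    have e1 : eLpNorm F1 2 μ = ENNReal.ofReal k * eLpNorm (fun x => ‖p.1 x‖ * ‖q.1 x‖) 2 μ := by
      have := eLpNorm_const_smul k (fun x => ‖p.1 x‖ * ‖q.1 x‖) 2 μ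
      rw [Real.enorm_eq_ofReal hk] at this
      exact this
    have g3 : eLpNorm p.2 2 μ = ‖p.2‖ₑ := (Lp.enorm_def _).symm
    rw [g3, e1] at a2
    exact a2.trans (mul_le_mul_right (mul_le_mul_right (eLpNorm_mul_le mf mg) _) _)
  have s4 : ∀ l, ∫⁻ x, ‖W l 0 x * W l 1 x * W l 2 x‖ₑ ∂μ
      ≤ kap μ * (ENNReal.ofReal (B l 0) * ENNReal.ofReal (B l 1) * ENNReal.ofReal (B l 2)) :=
    fun l => (holder3' (hW l 0) (hW l 1) (hW l 2) (hb l) (fun ht => hb' (by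
      rw [hμ, Measure.restrict_apply_univ] at ht
      exact ht) l)).trans
      (mul_le_mul_right (mul_le_mul' (mul_le_mul' (hWB l 0) (hWB l 1)) (hWB l 2)) _)
  have s6 : ENNReal.ofReal (σ * ⟪tensL p.1, q.2⟫_ℝ)
      ≤ ‖p.2‖ₑ * (ENNReal.ofReal k * (eLpNorm p.1 4 μ * eLpNorm q.1 4 μ))
        + kap μ * ∑ l, ENNReal.ofReal (B l 0) * ENNReal.ofReal (B l 1) * ENNReal.ofReal (B l 2) := by
    rw [s2] at s1
    rw [Finset.mul_sum]
    exact s1.trans (add_le_add s3 (Finset.sum_le_sum fun l _ => s4 l))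
  have t1 : ‖p.2‖ₑ * (ENNReal.ofReal k * (eLpNorm p.1 4 μ * eLpNorm q.1 4 μ)) < ⊤ :=
    ENNReal.mul_lt_top enorm_lt_top (ENNReal.mul_lt_top ENNReal.ofReal_lt_top
      (ENNReal.mul_lt_top (four_lt_top hΩ hp) (four_lt_top hΩ hq)))
  have t2 : ∀ l ∈ (Finset.univ : Finset ι),
      ENNReal.ofReal (B l 0) * ENNReal.ofReal (B l 1) * ENNReal.ofReal (B l 2) ≠ ⊤ := fun l _ =>
    (ENNReal.mul_lt_top (ENNReal.mul_lt_top ENNReal.ofReal_lt_top ENNReal.ofReal_lt_top)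
      ENNReal.ofReal_lt_top).ne
  have t3 : ∑ l, ENNReal.ofReal (B l 0) * ENNReal.ofReal (B l 1) * ENNReal.ofReal (B l 2) < ⊤ :=
    ENNReal.sum_lt_top.2 fun l hl => lt_top_iff_ne_top.2 (t2 l hl)
  have t4 : kap μ * ∑ l, ENNReal.ofReal (B l 0) * ENNReal.ofReal (B l 1) * ENNReal.ofReal (B l 2)
      < ⊤ := ENNReal.mul_lt_top (lt_top_iff_ne_top.2 (kap_ne_top μ)) t3
  have s7 := ENNReal.toReal_mono (ENNReal.add_lt_top.2 ⟨t1, t4⟩).ne s6
  rw [ENNReal.toReal_add t1.ne t4.ne, ENNReal.toReal_mul (a := kap μ), ENNReal.toReal_sum t2] at s7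
  simp only [ENNReal.toReal_mul, ENNReal.toReal_ofReal hk, ENNReal.toReal_ofReal',
    toReal_enorm] at s7
  refine (le_max_left _ 0).trans (s7.trans ?_)
  refine (add_le_add (le_of_eq ?_) (mul_le_mul_of_nonneg_left
    (Finset.sum_le_sum fun l _ => ?_) ENNReal.toReal_nonneg))
  · rfl
  · have u : ∀ y : ℝ, max y 0 ≤ |y| := fun y => max_le (le_abs_self _) (abs_nonneg _)
    have w : ∀ y : ℝ, 0 ≤ max y 0 := fun y => le_max_right _ _
    exact mul_le_mul (mul_le_mul (u _) (u _) (w _) (abs_nonneg _)) (u _) (w _)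
      (mul_nonneg (abs_nonneg _) (abs_nonneg _))

end Pool.Agent.P8H70.TF
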