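import Pool.Agent.P8H70.TF.Rev

/-!
One-sided two-time criteria in terms of the trilinear form, for abstract weak solutions.
-/

set_option autoImplicit false
set_option linter.unusedSectionVars false

open MeasureTheory Set Filter Topology
open scoped InnerProductSpace ENNReal NNReal

namespace Pool.Agent.P8H70.TF

open H772R2.NS

variable {H : Type} [NormedAddCommGroup H] [InnerProductSpace ℝ H] [CompleteSpace H]
variable {K : Type} [NormedAddCommGroup K] [InnerProductSpace ℝ K] [CompleteSpace K]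
variable {W : Submodule ℝ (H × K)} {T M ν : ℝ} {u : ℝ → H} {G m : ℝ → K} {f : ℝ → H}

/-- the majorant -/
noncomputable def maj (T M ν : ℝ) (G : ℝ → K) (f : ℝ → H) (ψ : ℝ → ℝ) (t : ℝ) : ℝ :=
  (1 + ∫ r in (0 : ℝ)..T, ψ r) * ψ t + ν / 2 * ‖G t‖ ^ 2 + M * ‖f t‖

theorem maj_int (S : Sol W T M ν u G m f) {ψ : ℝ → ℝ} (hψ : IntegrableOn ψ (Ioc 0 T)) :
    IntegrableOn (maj T M ν G f ψ) (Ioc 0 T) :=
  ((hψ.const_mul _).add (S.G2.const_mul _)).add (S.fint.norm.const_mul _)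

theorem two_est (S : Sol W T M ν u G m f) {ψ : ℝ → ℝ} (hψ : IntegrableOn ψ (Ioc 0 T))
    (hψ0 : ∀ t, 0 ≤ ψ t) {σ : ℝ} (hσ : |σ| = 1) {τ x y : ℝ} (hτI : τ ∈ Icc 0 T)
    (hτ : (u τ, G τ) ∈ W)
    (hx : 0 ≤ x) (hxy : x ≤ y) (hy : y ≤ T)
    (hb : ∀ᵐ r : ℝ, r ∈ Ioc x y → σ * ⟪m r, G τ⟫_ℝ ≤ ψ r + ψ τ + (y - x) * (ψ r * ψ τ)) :
    σ * (⟪u y, u τ⟫_ℝ - ⟪u x, u τ⟫_ℝ)
      ≤ (∫ r in x..y, maj T M ν G f ψ r) + (y - x) * maj T M ν G f ψ τ := by
  have hT := S.T0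
  have ν0 := S.ν0
  have M0 := S.M0
  set J : ℝ := ∫ r in (0 : ℝ)..T, ψ r with hJ
  have hJ0 : 0 ≤ J := intervalIntegral.integral_nonneg hT fun r _ => hψ0 r
  have hsub : Ioc x y ⊆ Ioc 0 T := Ioc_subset_Ioc hx hy
  have mono : ∀ {X : Type} [NormedAddCommGroup X] {F : ℝ → X},
      Integrable F (volume.restrict (Ioc 0 T)) → IntegrableOn F (Ioc x y) := fun hF =>
    hF.mono_measure (Measure.restrict_mono_set volume hsub)
  have ψi : IntervalIntegrable ψ volume x y := by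
    rw [intervalIntegrable_iff_integrableOn_Ioc_of_le hxy]; exact mono hψ
  have G2i : IntervalIntegrable (fun r => ‖G r‖ ^ 2) volume x y := by
    rw [intervalIntegrable_iff_integrableOn_Ioc_of_le hxy]; exact mono S.G2
  have fi : IntervalIntegrable (fun r => ‖f r‖) volume x y := by
    rw [intervalIntegrable_iff_integrableOn_Ioc_of_le hxy]; exact (mono S.fint).norm
  have w := S.weak _ hτ x y hx hxy hy
  simp only at w
  have ri : IntervalIntegrable (fun r => ⟪m r, G τ⟫_ℝ - ν * ⟪G r, G τ⟫_ℝ + ⟪f r, u τ⟫_ℝ)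
      volume x y := by
    rw [intervalIntegrable_iff_integrableOn_Ioc_of_le hxy]
    exact ((((mono S.mint).inner_const (G τ))).sub (((mono S.Gint).inner_const (G τ)).const_mul ν)).add
      ((mono S.fint).inner_const (u τ))
  have e0 : σ * (⟪u y, u τ⟫_ℝ - ⟪u x, u τ⟫_ℝ)
      = ∫ r in x..y, σ * (⟪m r, G τ⟫_ℝ - ν * ⟪G r, G τ⟫_ℝ + ⟪f r, u τ⟫_ℝ) := by
    rw [w, intervalIntegral.integral_const_mul]
  set c : ℝ := ψ τ + ν / 2 * ‖G τ‖ ^ 2 with hc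
  have bnd : ∫ r in x..y, σ * (⟪m r, G τ⟫_ℝ - ν * ⟪G r, G τ⟫_ℝ + ⟪f r, u τ⟫_ℝ)
      ≤ ∫ r in x..y, (ψ r + (ν / 2 * ‖G r‖ ^ 2 + M * ‖f r‖) + c + (y - x) * ψ τ * ψ r) := by
    refine intervalIntegral.integral_mono_ae_restrict hxy (ri.const_mul σ)
      (((ψi.add ((G2i.const_mul _).add (fi.const_mul _))).add intervalIntegrable_const).add
        (ψi.const_mul _)) ?_
    rw [← restrict_Ioc_eq_restrict_Icc, Filter.EventuallyLE, ae_restrict_iff' measurableSet_Ioc]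
    filter_upwards [hb] with r hr hI
    have k1 := hr hI
    have k2 : σ * (-(ν * ⟪G r, G τ⟫_ℝ)) ≤ ν / 2 * (‖G r‖ ^ 2 + ‖G τ‖ ^ 2) := by
      have k3 := abs_real_inner_le_norm (G r) (G τ)
      have k4 : ‖G r‖ * ‖G τ‖ ≤ (‖G r‖ ^ 2 + ‖G τ‖ ^ 2) / 2 := by
        nlinarith [sq_nonneg (‖G r‖ - ‖G τ‖)]
      calc σ * (-(ν * ⟪G r, G τ⟫_ℝ)) ≤ |σ * (-(ν * ⟪G r, G τ⟫_ℝ))| := le_abs_self _
        _ = ν * |⟪G r, G τ⟫_ℝ| := by rw [abs_mul, hσ, one_mul, abs_neg, abs_mul, abs_of_nonneg ν0]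
        _ ≤ ν * ((‖G r‖ ^ 2 + ‖G τ‖ ^ 2) / 2) := mul_le_mul_of_nonneg_left (k3.trans k4) ν0
        _ = _ := by ring
    have k5 : σ * ⟪f r, u τ⟫_ℝ ≤ M * ‖f r‖ := by
      calc σ * ⟪f r, u τ⟫_ℝ ≤ |σ * ⟪f r, u τ⟫_ℝ| := le_abs_self _
        _ = |⟪f r, u τ⟫_ℝ| := by rw [abs_mul, hσ, one_mul]
        _ ≤ ‖f r‖ * ‖u τ‖ := abs_real_inner_le_norm _ _
        _ ≤ ‖f r‖ * M := by
          have := S.bdd τ hτI
          gcongr
        _ = _ := mul_comm _ _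
    simp only [hc]
    have e1 : σ * (⟪m r, G τ⟫_ℝ - ν * ⟪G r, G τ⟫_ℝ + ⟪f r, u τ⟫_ℝ)
        = σ * ⟪m r, G τ⟫_ℝ + σ * (-(ν * ⟪G r, G τ⟫_ℝ)) + σ * ⟪f r, u τ⟫_ℝ := by ring
    rw [e1]
    have e2 : (y - x) * (ψ r * ψ τ) = (y - x) * ψ τ * ψ r := by ring
    linarith
  have e3 : ∫ r in x..y, (ψ r + (ν / 2 * ‖G r‖ ^ 2 + M * ‖f r‖) + c + (y - x) * ψ τ * ψ r)
      = (∫ r in x..y, (ψ r + (ν / 2 * ‖G r‖ ^ 2 + M * ‖f r‖))) + (y - x) * c
        + (y - x) * ψ τ * ∫ r in x..y, ψ r := by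
    rw [intervalIntegral.integral_add
      ((ψi.add ((G2i.const_mul _).add (fi.const_mul _))).add intervalIntegrable_const)
      (ψi.const_mul _), intervalIntegral.integral_add
      (ψi.add ((G2i.const_mul _).add (fi.const_mul _))) intervalIntegrable_const,
      intervalIntegral.integral_const, smul_eq_mul, intervalIntegral.integral_const_mul]
  have h2 : ∫ r in x..y, ψ r ≤ J := by
    rw [hJ, intervalIntegral.integral_of_le hxy, intervalIntegral.integral_of_le hT]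
    exact setIntegral_mono_set hψ (Eventually.of_forall hψ0) (Eventually.of_forall hsub)
  have hyx : 0 ≤ y - x := by linarith
  have h3 : (y - x) * ψ τ * (∫ r in x..y, ψ r) ≤ (y - x) * ψ τ * J :=
    mul_le_mul_of_nonneg_left h2 (mul_nonneg hyx (hψ0 τ))
  have mi : IntervalIntegrable (maj T M ν G f ψ) volume x y := by
    rw [intervalIntegrable_iff_integrableOn_Ioc_of_le hxy]; exact mono (maj_int S hψ)
  have h4 : ∫ r in x..y, (ψ r + (ν / 2 * ‖G r‖ ^ 2 + M * ‖f r‖)) ≤ ∫ r in x..y, maj T M ν G f ψ r := by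
    refine intervalIntegral.integral_mono_on hxy (ψi.add ((G2i.const_mul _).add (fi.const_mul _))) mi
      fun r _ => ?_
    have h5 := mul_nonneg hJ0 (hψ0 r)
    simp only [maj, ← hJ]
    linarith
  have h6 : (y - x) * c + (y - x) * ψ τ * J ≤ (y - x) * maj T M ν G f ψ τ := by
    have h7 := mul_nonneg hyx (mul_nonneg M0 (norm_nonneg (f τ)))
    have e4 : (y - x) * maj T M ν G f ψ τ
        = (y - x) * c + (y - x) * ψ τ * J + (y - x) * (M * ‖f τ‖) := by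
      simp only [maj, ← hJ, hc]; ring
    linarith
  rw [e0]
  linarith

/-- **Backward criterion** for the trilinear form. -/
theorem tri_back (fat : S_FAT) (S : Sol W T M ν u G m f) (T0 : 0 < T) {ψ : ℝ → ℝ}
    (hψ : IntegrableOn ψ (Ioc 0 T)) (hψ0 : ∀ t, 0 ≤ ψ t)
    (hb : ∀ᵐ τ ∂(volume.restrict (Ioc 0 T)), ∀ᵐ r ∂(volume.restrict (Ioc 0 T)), r < τ →
      ⟪m r, G τ⟫_ℝ ≤ ψ r + ψ τ + |r - τ| * (ψ r * ψ τ))
    {s t : ℝ} (hs : 0 ≤ s) (hst : s ≤ t) (htT : t ≤ T) :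
    defect ν u G f s ≤ defect ν u G f t := by
  refine sol_back fat S T0 (maj_int S hψ) ?_ hs hst htT
  filter_upwards [hb, S.memW, ae_restrict_mem measurableSet_Ioc] with τ h1 h2 h3 x hx
  rw [ae_restrict_iff' measurableSet_Ioc] at h1
  have h4 := two_est S hψ hψ0 (σ := 1) (by simp) (Ioc_subset_Icc_self h3) h2 hx.1 hx.2 h3.2 (by
    have hne : ∀ᵐ r : ℝ, r ≠ τ := by simp [ae_iff, measure_singleton]
    filter_upwards [h1, hne] with r hr hrn hI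
    have hlt : r < τ := lt_of_le_of_ne hI.2 hrn
    have k1 := hr ⟨hx.1.trans_lt hI.1, hI.2.trans h3.2⟩ hlt
    rw [one_mul]
    refine k1.trans ?_
    have k2 : |r - τ| ≤ τ - x := by
      rw [abs_of_nonpos (by linarith)]
      linarith [hI.1]
    have k3 := mul_le_mul_of_nonneg_right k2 (mul_nonneg (hψ0 r) (hψ0 τ))
    linarith)
  rw [one_mul, ← inner_sub_left] at h4
  exact h4

/-- **Forward criterion** for the trilinear form. -/
theorem tri_forw (fat : S_FAT) (S : Sol W T M ν u G m f) (T0 : 0 < T) {ψ : ℝ → ℝ}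
    (hψ : IntegrableOn ψ (Ioc 0 T)) (hψ0 : ∀ t, 0 ≤ ψ t)
    (hb : ∀ᵐ τ ∂(volume.restrict (Ioc 0 T)), ∀ᵐ r ∂(volume.restrict (Ioc 0 T)), τ < r →
      -(ψ r + ψ τ + |r - τ| * (ψ r * ψ τ)) ≤ ⟪m r, G τ⟫_ℝ)
    {s t : ℝ} (hs : 0 ≤ s) (hst : s ≤ t) (htT : t ≤ T) :
    defect ν u G f t ≤ defect ν u G f s := by
  refine sol_forw fat S T0 (maj_int S hψ) ?_ hs hst htT
  filter_upwards [hb, S.memW, ae_restrict_mem measurableSet_Ioc] with τ h1 h2 h3 x hx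
  rw [ae_restrict_iff' measurableSet_Ioc] at h1
  have h4 := two_est S hψ hψ0 (σ := -1) (by simp) (Ioc_subset_Icc_self h3) h2 h3.1.le hx.1 hx.2 (by
    filter_upwards [h1] with r hr hI
    have k1 := hr ⟨h3.1.trans hI.1, hI.2.trans hx.2⟩ hI.1
    have k2 : |r - τ| ≤ x - τ := by
      rw [abs_of_nonneg (by linarith [hI.1])]
      linarith [hI.2]
    have k3 := mul_le_mul_of_nonneg_right k2 (mul_nonneg (hψ0 r) (hψ0 τ))
    linarith)
  rw [← inner_sub_left] at h4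
  linarith

end Pool.Agent.P8H70.TF
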